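import Pool.Agent.QFD.Defs

/-!
# [QFD-C1] Separation in the amalgamated double

PROOF. `exists_condexp` (QFP/L5.lean): `x = b + p`, `b ∈ B`, `Perp p`; `p ≠ 0` as `x ∉ B`. Let `y = ι i x - ι j x = ι i p - ι j p` (agreement on `B`). `φ (star y * y) = 2 τ (star p * p) - φ (ι i (star p) * ι j p) - φ (ι j (star p) * ι i p)` and the last
two terms are `0` by `free` (lists of length 2, `Perp.star`). So `r := n2 φ y ^ 2 = 2 n2 τ p ^ 2 > 0` (faithful). Put `e = sqrt (r / 2)`. Given `F, m, δ`: microstates `Z` of `M` for `F' = {ι i a, ι j a : a ∈ F}`, `max m 2` and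
`δ' = min δ (r / 8)`; `X a = Z (ι i a)`, `Y a = Z (ι j a)`. `Mic`: as in `innerAveraging_of_homs` (`A2y_word`, `map_wordEval`, `trace_eq`; a ⋆-homomorphism is contractive). For `b ∈ B`: `X b = Y b`, `n2 ntr 0 = 0 < δ`.
`n2 ntr (X x - Y x) ^ 2 = re (ntr (star (X x) X x) - ntr (star (X x) Y x) - ntr (star (Y x) X x) + ntr (star (Y x) Y x))`, each of the four terms is within `δ'` of the corresponding moment of `ι i x, ι j x`, so it is at least `r - 4 δ' ≥ r / 2`.
-/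

set_option autoImplicit false

namespace Pool.Agent.QFD

open Pool.Agent.QFP
open scoped InnerProductSpace Matrix.Norms.L2Operator

universe u v

namespace C1

theorem expand {D : Type*} [Ring D] [StarRing D] [Algebra ℂ D] (t : D →ₗ[ℂ] ℂ) (x y : D) :
    t (star (x - y) * (x - y)) =
      t (star x * x) - t (star x * y) - t (star y * x) + t (star y * y) := by
  rw [star_sub, sub_mul, mul_sub, mul_sub, map_sub, map_sub, map_sub]
  ring

theorem mic {H : Type u} [NormedAddCommGroup H] [InnerProductSpace ℂ H] [CompleteSpace H]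
    {A : VonNeumannAlgebra H} {τ : Alg A →ₗ[ℂ] ℂ}
    {K : Type v} [NormedAddCommGroup K] [InnerProductSpace ℂ K] [CompleteSpace K]
    {M : VonNeumannAlgebra K} {φ : Alg M →ₗ[ℂ] ℂ} (π : Alg A →⋆ₐ[ℂ] Alg M)
    (hπ : ∀ a, φ (π a) = τ a) {F : Finset (Alg A)} {m : ℕ} {δ : ℝ} {F' : Finset (Alg M)} {m' : ℕ}
    {δ' : ℝ} (hF : ∀ a ∈ F, π a ∈ F') (hm : m ≤ m') (hδ : δ' ≤ δ) {ν : ℕ} {Z : Alg M → Mt ν}
    (hZ1 : ∀ a, ‖Z a‖ ≤ ‖(a : K →L[ℂ] K)‖)
    (hZ2 : ∀ w : List (Alg M × Bool), (∀ p ∈ w, p.1 ∈ F') → w.length ≤ m' →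
      ‖ntr (wordEval Z w) - φ (wordEval id w)‖ < δ') : Mic A τ F m δ (fun a => Z (π a)) := by
  refine ⟨fun a => (hZ1 _).trans (NonUnitalStarAlgHom.norm_apply_le π a), fun w hw hl => ?_⟩
  have h1 := hZ2 (w.map fun p => (π p.1, p.2)) (by
    intro p hp
    obtain ⟨q, hq, rfl⟩ := List.mem_map.1 hp
    exact hF q.1 (hw q hq)) (by
    rw [List.length_map]
    exact hl.trans hm)
  rw [A2y_word, A2y_word] at h1
  have e3 : wordEval (fun k => id (π k)) w = π (wordEval id w) := by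
    rw [map_wordEval]
    rfl
  rw [e3, hπ] at h1
  exact h1.trans_le hδ

end C1

theorem sepBy_of_power {H : Type u} [NormedAddCommGroup H] [InnerProductSpace ℂ H] [CompleteSpace H]
    {A B : VonNeumannAlgebra H} (hBA : ∀ x : H →L[ℂ] H, x ∈ B → x ∈ A) {τ : Alg A →ₗ[ℂ] ℂ} (hτ : IsTrace A τ)
    {K : Type v} [NormedAddCommGroup K] [InnerProductSpace ℂ K] [CompleteSpace K]
    {M : VonNeumannAlgebra K} {φ : Alg M →ₗ[ℂ] ℂ} (hφ : IsTrace M φ) (hM : ConnesEmb M φ)
    {J : Type*} {ι : J → Alg A →⋆ₐ[ℂ] Alg M} (hι : IsFreePower A B τ M φ ι) {i j : J} (hij : i ≠ j)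
    (x : Alg A) (hx : (x : H →L[ℂ] H) ∉ B) :
    ∃ e : ℝ, 0 < e ∧ SepBy A τ {b | (b : H →L[ℂ] H) ∈ B} x e := by
  classical
  obtain ⟨b, hb, hp⟩ := exists_condexp hBA hτ x
  obtain ⟨p, hpdef⟩ : ∃ p, p = x - b := ⟨_, rfl⟩
  rw [← hpdef] at hp
  have hp0 : p ≠ 0 := by
    intro h
    rw [h] at hpdef
    have h2 : x = b := sub_eq_zero.1 hpdef.symm
    rw [h2] at hx
    exact hx hb
  have hyp : ι i x - ι j x = ι i p - ι j p := by
    rw [hpdef, map_sub, map_sub, hι.agree i j b hb]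
    abel
  have hzero : ∀ k l : J, k ≠ l → φ (star (ι k p) * ι l p) = 0 := by
    intro k l hkl
    have h := hι.free [(k, star p), (l, p)] (by simp) (by simp [hkl]) (by
      intro q hq
      simp only [List.mem_cons, List.not_mem_nil, or_false] at hq
      rcases hq with rfl | rfl
      · exact Perp.star hτ hp
      · exact hp)
    rw [← map_star]
    simpa using h
  have hdiag : ∀ k : J, φ (star (ι k p) * ι k p) = τ (star p * p) := by
    intro k
    rw [← map_star, ← map_mul, hι.trace_eq]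
  have hr : (φ (star (ι i x - ι j x) * (ι i x - ι j x))).re = 2 * n2 τ p ^ 2 := by
    rw [hyp, C1.expand, hzero i j hij, hzero j i hij.symm, hdiag, hdiag, hτ.trAlg.n2_sq,
      sub_zero, sub_zero, Complex.add_re]
    ring
  obtain ⟨r, hrdef⟩ : ∃ r, r = 2 * n2 τ p ^ 2 := ⟨_, rfl⟩
  have hrpos : 0 < r := by
    have h1 : n2 τ p ≠ 0 := fun h => hp0 (hτ.eq_zero_of_n2 p h)
    rw [hrdef]
    positivity
  rw [← hrdef] at hr
  refine ⟨Real.sqrt (r / 2), Real.sqrt_pos.2 (by positivity), ?_⟩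
  intro F m δ hδ hxF
  obtain ⟨ν, hν, Z, hZ1, hZ2⟩ := hM (F.image (ι i) ∪ F.image (ι j)) (max m 2) (min δ (r / 8))
    (lt_min hδ (by positivity))
  have hFi : ∀ a ∈ F, ι i a ∈ F.image (ι i) ∪ F.image (ι j) := fun a ha =>
    Finset.mem_union_left _ (Finset.mem_image_of_mem _ ha)
  have hFj : ∀ a ∈ F, ι j a ∈ F.image (ι i) ∪ F.image (ι j) := fun a ha =>
    Finset.mem_union_right _ (Finset.mem_image_of_mem _ ha)
  have : Nonempty (Fin ν) := ⟨⟨0, hν⟩⟩
  refine ⟨ν, hν, fun a => Z (ι i a), fun a => Z (ι j a),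
    C1.mic (ι i) (hι.trace_eq i) hFi (le_max_left _ _) (min_le_left _ _) hZ1 hZ2,
    C1.mic (ι j) (hι.trace_eq j) hFj (le_max_left _ _) (min_le_left _ _) hZ1 hZ2, ?_, ?_⟩
  · intro b' _ hb'
    show n2 ntr (Z (ι i b') - Z (ι j b')) < δ
    rw [hι.agree i j b' hb', sub_self, ntr_trAlg.n2_zero]
    exact hδ
  · show Real.sqrt (r / 2) ≤ n2 ntr (Z (ι i x) - Z (ι j x))
    have hpair : ∀ k l : Alg M, k ∈ F.image (ι i) ∪ F.image (ι j) →
        l ∈ F.image (ι i) ∪ F.image (ι j) →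
        |(ntr (star (Z k) * Z l) - φ (star k * l)).re| < r / 8 := by
      intro k l hk hl
      have h := hZ2 [(k, true), (l, false)] (by
        intro q hq
        simp only [List.mem_cons, List.not_mem_nil, or_false] at hq
        rcases hq with rfl | rfl
        · exact hk
        · exact hl) (by simp)
      have h2 : ‖ntr (star (Z k) * Z l) - φ (star k * l)‖ < min δ (r / 8) := by
        simpa [wordEval] using h
      exact (Complex.abs_re_le_norm _).trans_lt (h2.trans_le (min_le_right _ _))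
    have h1 := hpair _ _ (hFi x hxF) (hFi x hxF)
    have h2 := hpair _ _ (hFi x hxF) (hFj x hxF)
    have h3 := hpair _ _ (hFj x hxF) (hFi x hxF)
    have h4 := hpair _ _ (hFj x hxF) (hFj x hxF)
    rw [C1.expand] at hr
    have h5 : n2 ntr (Z (ι i x) - Z (ι j x)) ^ 2 =
        (ntr (star (Z (ι i x)) * Z (ι i x)) - ntr (star (Z (ι i x)) * Z (ι j x)) -
          ntr (star (Z (ι j x)) * Z (ι i x)) + ntr (star (Z (ι j x)) * Z (ι j x))).re := by
      rw [ntr_trAlg.n2_sq, C1.expand]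
    rw [Complex.add_re, Complex.sub_re, Complex.sub_re] at h5 hr
    rw [Complex.sub_re, abs_lt] at h1 h2 h3 h4
    refine Real.sqrt_le_iff.2 ⟨n2_nonneg _ _, ?_⟩
    rw [h5]
    linarith [h1.1, h2.2, h3.2, h4.1]

end Pool.Agent.QFD
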