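import Pool.Agent.QFD.Defs

/-!
# [QFD-D1] The statement level definition of separation

PROOF of `separated_iff`: as `connesEmb_iff` and `innerAveraging_iff` in QFP/StEq.lean (`wordEval_upL`, `ntrace_eq`, `norm2_eq`, `upL`): the internal definition `SepBy` uses finite sets of `Alg M.N` and microstates defined
(with norm bounds) on all of `Alg M.N`, the statement level definition uses finite sets of operators in `M.N` and norm bounds on `F` only.
(→) given `F : Finset (Alg M.N)` take the image `F'` in `K →L[ℂ] K`, microstates `X', Y'`, and put `X a = if a ∈ F then X' a else 0` (classical). (←) given `F'` with `F' ⊆ M.N` take the preimage (`F'.attach.image` or `F'.subtype`), microstates `X, Y` and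
`X' a = if h : a ∈ M.N then X ⟨a, h⟩ else 0`.

`isTraceHom_of` : `ext θ a = θ ⟨a, h⟩` for `a ∈ A.N`, all clauses are clear.
-/

set_option autoImplicit false

namespace Pool.Agent.QFD

open Pool.Agent.QFP
open Pool.Agent.QFP.St (TracialVN IsMicrostate norm2 IsTraceHom)
open scoped InnerProductSpace Matrix.Norms.L2Operator

universe u v

section
variable {K : Type u} [NormedAddCommGroup K] [InnerProductSpace ℂ K] [CompleteSpace K]

/-- `x ∈ M` is separated from `S ⊆ M`: there is `e > 0` such that every finite `F ⊆ M` containing `x` has, for all orders `m`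
and precisions `δ`, two matricial microstates `X`, `Y` of the same size with `‖X b - Y b‖₂ < δ` for `b ∈ F ∩ S` and
`‖X x - Y x‖₂ ≥ e`. -/
def Separated (M : TracialVN K) (S : Set (K →L[ℂ] K)) (x : K →L[ℂ] K) : Prop :=
  ∃ e : ℝ, 0 < e ∧ ∀ F : Finset (K →L[ℂ] K), (∀ a ∈ F, a ∈ M.N) → x ∈ F → ∀ (m : ℕ) (δ : ℝ), 0 < δ →
    ∃ (ν : ℕ) (X Y : (K →L[ℂ] K) → Matrix (Fin ν) (Fin ν) ℂ), IsMicrostate M F m δ X ∧ IsMicrostate M F m δ Y ∧
      (∀ b ∈ F, b ∈ S → norm2 (X b - Y b) < δ) ∧ e ≤ norm2 (X x - Y x)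

theorem separated_iff (M : TracialVN K) (S : Set (K →L[ℂ] K)) (x : Alg M.N) :
    Separated M S (x : K →L[ℂ] K) ↔
      ∃ e : ℝ, 0 < e ∧ SepBy M.N (stLin M) {y | (y : K →L[ℂ] K) ∈ S} x e := by
  classical
  constructor
  · rintro ⟨e, he, h⟩
    refine ⟨e, he, fun F m δ hδ hxF => ?_⟩
    obtain ⟨ν, X, Y, hX, hY, hb, hxe⟩ := h (F.image fun a : Alg M.N => (a : K →L[ℂ] K)) (by
      intro a ha
      obtain ⟨b, -, rfl⟩ := Finset.mem_image.1 ha
      exact b.2) (Finset.mem_image_of_mem _ hxF) m δ hδ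
    have hmic : ∀ X : (K →L[ℂ] K) → Matrix (Fin ν) (Fin ν) ℂ,
        IsMicrostate M (F.image fun a : Alg M.N => (a : K →L[ℂ] K)) m δ X →
        Mic M.N (stLin M) F m δ fun a => if a ∈ F then X a else 0 := by
      intro X hX
      refine ⟨fun a => ?_, ?_⟩
      · by_cases ha : a ∈ F
        · rw [if_pos ha]
          exact hX.2.1 _ (Finset.mem_image_of_mem _ ha)
        · rw [if_neg ha, norm_zero]
          exact norm_nonneg _
      · exact micro_of_st (fun a ha => Finset.mem_image_of_mem _ ha) hX fun a ha => if_pos ha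
    refine ⟨ν, hX.1, fun a => if a ∈ F then X a else 0, fun a => if a ∈ F then Y a else 0,
      hmic X hX, hmic Y hY, ?_, ?_⟩
    · intro b hbF hbS
      dsimp only
      rw [if_pos hbF, if_pos hbF, ← norm2_eq]
      exact hb _ (Finset.mem_image_of_mem _ hbF) hbS
    · dsimp only
      rw [if_pos hxF, if_pos hxF, ← norm2_eq]
      exact hxe
  · rintro ⟨e, he, h⟩
    refine ⟨e, he, fun F hF hxF m δ hδ => ?_⟩
    have hmem : ∀ (a : K →L[ℂ] K) (haF : a ∈ F), (⟨a, hF a haF⟩ : Alg M.N) ∈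
        F.attach.image fun a : {x // x ∈ F} => (⟨a.1, hF a.1 a.2⟩ : Alg M.N) := fun a haF =>
      Finset.mem_image.2 ⟨⟨a, haF⟩, Finset.mem_attach _ _, rfl⟩
    obtain ⟨ν, hν, X, Y, hX, hY, hb, hxe⟩ :=
      h (F.attach.image fun a : {x // x ∈ F} => (⟨a.1, hF a.1 a.2⟩ : Alg M.N)) m δ hδ
        (hmem x hxF)
    have hext : ∀ (X : Alg M.N → Matrix (Fin ν) (Fin ν) ℂ) (a : K →L[ℂ] K) (haF : a ∈ F),
        ext0 X a = X ⟨a, hF a haF⟩ := fun X a haF => ext0_coe X ⟨a, hF a haF⟩
    refine ⟨ν, ext0 X, ext0 Y,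
      st_of_micro (fun a ha => ⟨hF a ha, hmem a ha⟩) hν hX.norm hX.mom (fun a => ext0_coe X a),
      st_of_micro (fun a ha => ⟨hF a ha, hmem a ha⟩) hν hY.norm hY.mom (fun a => ext0_coe Y a),
      ?_, ?_⟩
    · intro b hbF hbS
      rw [hext X b hbF, hext Y b hbF, norm2_eq]
      exact hb _ (hmem b hbF) hbS
    · rw [ext0_coe, ext0_coe, norm2_eq]
      exact hxe

end

end Pool.Agent.QFD
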