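import Pool.Agent.QFD.Defs

/-!
# [QFD-D1] The statement level definition of separation

PROOF of `separated_iff`: as `connesEmb_iff` and `innerAveraging_iff` in QFP/StEq.lean (`wordEval_upL`, `ntrace_eq`, `norm2_eq`, `upL`): the internal definition `SepBy` uses finite sets of `Alg M.N` and microstates defined
(with norm bounds) on all of `Alg M.N`, the statement level definition uses finite sets of operators in `M.N` and norm bounds on `F` only.
(→) given `F : Finset (Alg M.N)` take the image `F'` in `K →L[ℂ] K`, microstates `X', Y'`, and put `X a = if a ∈ F then X' a else 0` (classical). (←) given `F'` with `F' ⊆ M.N` take the preimage (`F'.attach.image` or `F'.subtype`), microstates `X, Y` and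
`X' a = if h : a ∈ M.N then X ⟨a, h⟩ else 0`.

`isTraceHom_of` : `ext θ a = θ ⟨a, h⟩` for `a ∈ A.N`, all clauses are clear.
-/

set_option autoImplicit false

namespace Pool.Agent.QFD

open Pool.Agent.QFP
open Pool.Agent.QFP.St (TracialVN IsMicrostate norm2 IsTraceHom)
open scoped InnerProductSpace Matrix.Norms.L2Operator

universe u v

section
variable {H : Type u} [NormedAddCommGroup H] [InnerProductSpace ℂ H] [CompleteSpace H]
  {K : Type v} [NormedAddCommGroup K] [InnerProductSpace ℂ K] [CompleteSpace K]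

open Classical in
/-- a homomorphism of the algebras as a function on all operators -/
noncomputable def ext {A : TracialVN H} {M : TracialVN K} (θ : Alg A.N →⋆ₐ[ℂ] Alg M.N) (a : H →L[ℂ] H) : K →L[ℂ] K :=
  if h : a ∈ A.N then (θ ⟨a, h⟩ : K →L[ℂ] K) else 0

theorem ext_apply {A : TracialVN H} {M : TracialVN K} (θ : Alg A.N →⋆ₐ[ℂ] Alg M.N) (a : Alg A.N) :
    ext θ (a : H →L[ℂ] H) = (θ a : K →L[ℂ] K) := by
  unfold ext
  rw [dif_pos (show (a : H →L[ℂ] H) ∈ A.N from a.2)]

theorem ext_mk {A : TracialVN H} {M : TracialVN K} (θ : Alg A.N →⋆ₐ[ℂ] Alg M.N) {a : H →L[ℂ] H}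
    (ha : a ∈ A.N) : ext θ a = (θ ⟨a, ha⟩ : K →L[ℂ] K) :=
  ext_apply θ ⟨a, ha⟩

theorem isTraceHom_ext {A : TracialVN H} {M : TracialVN K} (θ : Alg A.N →⋆ₐ[ℂ] Alg M.N)
    (hθ : ∀ a, stLin M (θ a) = stLin A a) : IsTraceHom A M (ext θ) where
  mem a ha := by
    rw [ext_mk θ ha]
    exact (θ ⟨a, ha⟩).2
  map_one := by
    rw [ext_mk θ (one_mem A.N)]
    exact congrArg Subtype.val (map_one θ)
  map_add a ha b hb := by
    rw [ext_mk θ ha, ext_mk θ hb, ext_mk θ (add_mem ha hb)]
    exact congrArg Subtype.val (map_add θ ⟨a, ha⟩ ⟨b, hb⟩)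
  map_mul a ha b hb := by
    rw [ext_mk θ ha, ext_mk θ hb, ext_mk θ (mul_mem ha hb)]
    exact congrArg Subtype.val (map_mul θ ⟨a, ha⟩ ⟨b, hb⟩)
  map_smul z a ha := by
    have h := ext_apply θ (z • (⟨a, ha⟩ : Alg A.N))
    rw [map_smul] at h
    rw [ext_mk θ ha]
    exact h
  map_star a ha := by
    have h := ext_apply θ (star (⟨a, ha⟩ : Alg A.N))
    rw [map_star] at h
    rw [ext_mk θ ha]
    exact h
  trace_eq a ha := by
    rw [ext_mk θ ha]
    exact hθ ⟨a, ha⟩

end

end Pool.Agent.QFD
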