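import Pool.Agent.QFP.StEq
import Pool.Agent.QFP.L5
import Pool.Agent.QFP.T4
import Pool.Agent.QFP.A2y

/-!
# [QFD] Definitions: microstates, families of microstates agreeing on a subalgebra, separation
-/

set_option autoImplicit false

namespace Pool.Agent.QFD

open Pool.Agent.QFP
open scoped InnerProductSpace Matrix.Norms.L2Operator
open Filter Topology

universe u v

/-- the algebra of `n × n` matrices -/
abbrev Mt (n : ℕ) : Type := Matrix (Fin n) (Fin n) ℂ

section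
variable {H : Type u} [NormedAddCommGroup H] [InnerProductSpace ℂ H] [CompleteSpace H]

/-- `X` is an `(m, ε)`-microstate of `F` -/
structure Mic (A : VonNeumannAlgebra H) (τ : Alg A →ₗ[ℂ] ℂ) (F : Finset (Alg A)) (m : ℕ) (ε : ℝ)
    {ν : ℕ} (X : Alg A → Mt ν) : Prop where
  norm : ∀ a, ‖X a‖ ≤ ‖(a : H →L[ℂ] H)‖
  mom : ∀ w : List (Alg A × Bool), (∀ p ∈ w, p.1 ∈ F) → w.length ≤ m →
    ‖ntr (wordEval X w) - τ (wordEval id w)‖ < ε

/-- the sum over `a ∈ G` of the squared 2-norms of the averages of the `X s a` -/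
noncomputable def pot {A : VonNeumannAlgebra H} {ν n : ℕ} (G : Finset (Alg A))
    (X : Fin n → Alg A → Mt ν) : ℝ :=
  ∑ a ∈ G, n2 ntr ((n : ℂ)⁻¹ • ∑ s, X s a) ^ 2

/-- there are families of microstates, agreeing on `B`, with potential less than `c` -/
def Fam (A B : VonNeumannAlgebra H) (τ : Alg A →ₗ[ℂ] ℂ) (G : Finset (Alg A)) (c : ℝ) : Prop :=
  ∀ (F : Finset (Alg A)) (m : ℕ) (ε : ℝ), 0 < ε →
    ∃ (ν : ℕ) (_ : 0 < ν) (n : ℕ) (_ : 0 < n) (X : Fin n → Alg A → Mt ν),
      (∀ s, Mic A τ F m ε (X s)) ∧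
      (∀ s s', ∀ b ∈ F, (b : H →L[ℂ] H) ∈ B → X s b = X s' b) ∧ pot G X < c

/-- `x` is separated from the set `S` in `(A, τ)` by `e`: there are pairs of microstates which are
arbitrarily close on `S` and have distance at least `e` at `x` -/
def SepBy (A : VonNeumannAlgebra H) (τ : Alg A →ₗ[ℂ] ℂ) (S : Set (Alg A)) (x : Alg A) (e : ℝ) :
    Prop :=
  ∀ (F : Finset (Alg A)) (m : ℕ) (δ : ℝ), 0 < δ → x ∈ F →
    ∃ (ν : ℕ) (_ : 0 < ν) (X Y : Alg A → Mt ν), Mic A τ F m δ X ∧ Mic A τ F m δ Y ∧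
      (∀ b ∈ F, b ∈ S → n2 ntr (X b - Y b) < δ) ∧ e ≤ n2 ntr (X x - Y x)

end

/-- bounded families of matrices -/
abbrev BF {I : Type u} (ν : I → ℕ) : Type u := lp (fun i => Mt (ν i)) ⊤

noncomputable instance {I : Type u} (ν : I → ℕ) [∀ i, NeZero (ν i)] : CStarAlgebra (BF ν) where

/-- a matrix ultraproduct: a Connes embeddable finite von Neumann algebra `M` with a homomorphism of
the bounded families of matrices, the trace is the limit of the normalised traces along `ω` -/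
structure UM {I : Type u} (ω : Ultrafilter I) (ν : I → ℕ) [∀ i, NeZero (ν i)] where
  K : Type u
  [i1 : NormedAddCommGroup K]
  [i2 : InnerProductSpace ℂ K]
  [i3 : CompleteSpace K]
  M : St.TracialVN K
  π : BF ν →⋆ₐ[ℂ] Alg M.N
  emb : ConnesEmb M.N (stLin M)
  lim : ∀ c : BF ν, Tendsto (fun i => ntr (c i)) ω (𝓝 (stLin M (π c)))

attribute [instance] UM.i1 UM.i2 UM.i3

end Pool.Agent.QFD
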