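import Pool.Agent.QFD.Defs

/-!
# [QFD-E1] Elements of matrix ultraproducts given by bounded families

PROOF. `el`: `U.π` of the family as an element of `BF ν` (`memℓp_infty_iff`). All algebraic rules: `U.π` is a ⋆-homomorphism and the operations of `lp` are pointwise (`Subtype.ext`,
`lp.coeFn_add` and similar, for the unit `lp.infty_coeFn_one`, products `lp.infty_coeFn_mul`).
`el_tendsto`: `U.lim`. `el_n2`: `n2 = sqrt (re (t (star x * x)))`, `el_mul`, `el_star`, `el_tendsto`, continuity. `el_congr`: `n2 (el x - el y) = 0` by uniqueness of limits,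
`IsTrace.eq_zero_of_n2` (QFP/D1.lean) for `stLin_isTrace`. `el_sum`: induction (`Finset.induction_on`).
-/

set_option autoImplicit false

namespace Pool.Agent.QFD

open Pool.Agent.QFP
open scoped InnerProductSpace Matrix.Norms.L2Operator
open Filter Topology

universe u

variable {I : Type u} {ω : Ultrafilter I} {ν : I → ℕ}

/-- a bounded family of matrices -/
def Bdd (x : ∀ i, Mt (ν i)) : Prop := ∃ R : ℝ, ∀ i, ‖x i‖ ≤ R

theorem Bdd.mem {x : ∀ i, Mt (ν i)} (h : Bdd x) : Memℓp x ⊤ := by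
  obtain ⟨R, hR⟩ := h
  refine memℓp_infty ⟨R, ?_⟩
  rintro _ ⟨i, rfl⟩
  exact hR i

variable [∀ i, NeZero (ν i)] (U : UM ω ν)

open Classical in
/-- the element of the ultraproduct given by a bounded family -/
noncomputable def el (x : ∀ i, Mt (ν i)) : Alg U.M.N :=
  if h : Bdd x then U.π ⟨x, h.mem⟩ else 0

section
omit [∀ i, NeZero (ν i)]

theorem Bdd.add {x y : ∀ i, Mt (ν i)} (hx : Bdd x) (hy : Bdd y) : Bdd (fun i => x i + y i) := by
  obtain ⟨R, hR⟩ := hx
  obtain ⟨R', hR'⟩ := hy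
  exact ⟨R + R', fun i => (norm_add_le _ _).trans (add_le_add (hR i) (hR' i))⟩

theorem Bdd.sub {x y : ∀ i, Mt (ν i)} (hx : Bdd x) (hy : Bdd y) : Bdd (fun i => x i - y i) := by
  obtain ⟨R, hR⟩ := hx
  obtain ⟨R', hR'⟩ := hy
  exact ⟨R + R', fun i => (norm_sub_le _ _).trans (add_le_add (hR i) (hR' i))⟩

theorem Bdd.mul {x y : ∀ i, Mt (ν i)} (hx : Bdd x) (hy : Bdd y) : Bdd (fun i => x i * y i) := by
  obtain ⟨R, hR⟩ := hx
  obtain ⟨R', hR'⟩ := hy
  refine ⟨|R| * |R'|, fun i => (norm_mul_le _ _).trans ?_⟩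
  exact mul_le_mul ((hR i).trans (le_abs_self _)) ((hR' i).trans (le_abs_self _)) (norm_nonneg _) (abs_nonneg _)

theorem Bdd.star {x : ∀ i, Mt (ν i)} (hx : Bdd x) : Bdd (fun i => Star.star (x i)) := by
  obtain ⟨R, hR⟩ := hx
  exact ⟨R, fun i => by rw [norm_star]; exact hR i⟩

theorem Bdd.smul {x : ∀ i, Mt (ν i)} (c : ℂ) (hx : Bdd x) : Bdd (fun i => c • x i) := by
  obtain ⟨R, hR⟩ := hx
  exact ⟨‖c‖ * R, fun i => by rw [norm_smul]; exact mul_le_mul_of_nonneg_left (hR i) (norm_nonneg _)⟩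

theorem Bdd.sum {γ : Type*} (s : Finset γ) {x : γ → ∀ i, Mt (ν i)} (hx : ∀ k ∈ s, Bdd (x k)) :
    Bdd (fun i => ∑ k ∈ s, x k i) := by
  classical
  induction s using Finset.induction_on with
  | empty => exact ⟨0, fun i => by simp⟩
  | insert a s ha ih =>
    have h1 := (hx a (Finset.mem_insert_self a s)).add (ih fun k hk => hx k (Finset.mem_insert_of_mem hk))
    obtain ⟨R, hR⟩ := h1
    refine ⟨R, fun i => ?_⟩
    show ‖∑ k ∈ insert a s, x k i‖ ≤ R
    rw [Finset.sum_insert ha]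
    exact hR i

end

theorem Bdd.one : Bdd (fun i => (1 : Mt (ν i))) := by
  refine ⟨1, fun i => ?_⟩
  exact B3_one

theorem E1a_el (U : UM ω ν) {x : ∀ i, Mt (ν i)} (h : Bdd x) : el U x = U.π ⟨x, h.mem⟩ := by
  unfold el
  rw [dif_pos h]

theorem el_add {x y : ∀ i, Mt (ν i)} (hx : Bdd x) (hy : Bdd y) :
    el U (fun i => x i + y i) = el U x + el U y := by
  rw [E1a_el U hx, E1a_el U hy, E1a_el U (hx.add hy), ← map_add]
  rfl

theorem el_sub {x y : ∀ i, Mt (ν i)} (hx : Bdd x) (hy : Bdd y) :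
    el U (fun i => x i - y i) = el U x - el U y := by
  rw [E1a_el U hx, E1a_el U hy, E1a_el U (hx.sub hy), ← map_sub]
  rfl

theorem el_mul {x y : ∀ i, Mt (ν i)} (hx : Bdd x) (hy : Bdd y) :
    el U (fun i => x i * y i) = el U x * el U y := by
  rw [E1a_el U hx, E1a_el U hy, E1a_el U (hx.mul hy), ← map_mul]
  rfl

theorem el_star {x : ∀ i, Mt (ν i)} (hx : Bdd x) : el U (fun i => star (x i)) = star (el U x) := by
  rw [E1a_el U hx, E1a_el U hx.star, ← map_star]
  rfl

theorem el_smul {x : ∀ i, Mt (ν i)} (c : ℂ) (hx : Bdd x) : el U (fun i => c • x i) = c • el U x := by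
  rw [E1a_el U hx, E1a_el U (hx.smul c), ← map_smul]
  rfl

theorem el_one : el U (fun i => (1 : Mt (ν i))) = 1 := by
  rw [E1a_el U Bdd.one, ← map_one U.π]
  rfl

theorem el_sum {γ : Type*} (s : Finset γ) {x : γ → ∀ i, Mt (ν i)} (hx : ∀ k ∈ s, Bdd (x k)) :
    el U (fun i => ∑ k ∈ s, x k i) = ∑ k ∈ s, el U (x k) := by
  classical
  induction s using Finset.induction_on with
  | empty =>
    rw [Finset.sum_empty]
    have h0 : Bdd (fun i => (0 : Mt (ν i))) := ⟨0, fun i => by simp⟩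
    have h1 : el U (fun i => (0 : Mt (ν i))) = 0 := by
      rw [E1a_el U h0, ← map_zero U.π]
      rfl
    simpa using h1
  | insert a s ha ih =>
    rw [Finset.sum_insert ha, ← ih fun k hk => hx k (Finset.mem_insert_of_mem hk),
      ← el_add U (hx a (Finset.mem_insert_self a s)) (Bdd.sum s fun k hk => hx k (Finset.mem_insert_of_mem hk))]
    congr 1
    funext i
    rw [Finset.sum_insert ha]

end Pool.Agent.QFD
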