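import Pool.Agent.QFD.E1a

/-!
# [QFD-E1] Elements of matrix ultraproducts given by bounded families

PROOF. `el`: `U.π` of the family as an element of `BF ν` (`memℓp_infty_iff`). All algebraic rules: `U.π` is a ⋆-homomorphism and the operations of `lp` are pointwise (`Subtype.ext`,
`lp.coeFn_add` and similar, for the unit `lp.infty_coeFn_one`, products `lp.infty_coeFn_mul`).
`el_tendsto`: `U.lim`. `el_n2`: `n2 = sqrt (re (t (star x * x)))`, `el_mul`, `el_star`, `el_tendsto`, continuity. `el_congr`: `n2 (el x - el y) = 0` by uniqueness of limits,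
`IsTrace.eq_zero_of_n2` (QFP/D1.lean) for `stLin_isTrace`. `el_sum`: induction (`Finset.induction_on`).
-/

set_option autoImplicit false

namespace Pool.Agent.QFD

open Pool.Agent.QFP
open scoped InnerProductSpace Matrix.Norms.L2Operator
open Filter Topology

universe u

variable {I : Type u} {ω : Ultrafilter I} {ν : I → ℕ}

variable [∀ i, NeZero (ν i)] (U : UM ω ν)

theorem el_tendsto {x : ∀ i, Mt (ν i)} (hx : Bdd x) :
    Tendsto (fun i => ntr (x i)) ω (𝓝 (stLin U.M (el U x))) := by
  rw [E1a_el U hx]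
  exact U.lim ⟨x, hx.mem⟩

theorem el_n2 {x : ∀ i, Mt (ν i)} (hx : Bdd x) :
    Tendsto (fun i => n2 ntr (x i)) ω (𝓝 (n2 (stLin U.M) (el U x))) := by
  have h1 := el_tendsto U (hx.star.mul hx)
  rw [el_mul U hx.star hx, el_star U hx] at h1
  have h2 := (Complex.continuous_re.tendsto _).comp h1
  exact (Real.continuous_sqrt.tendsto _).comp h2

theorem el_congr {x y : ∀ i, Mt (ν i)} (hx : Bdd x) (hy : Bdd y)
    (h : Tendsto (fun i => n2 ntr (x i - y i)) ω (𝓝 0)) : el U x = el U y := by
  have h1 := tendsto_nhds_unique (el_n2 U (hx.sub hy)) h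
  rw [el_sub U hx hy] at h1
  exact sub_eq_zero.1 ((stLin_isTrace U.M).eq_zero_of_n2 _ h1)

end Pool.Agent.QFD
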