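import Pool.Agent.QFD.E1b

/-!
# [QFD-E2] Homomorphisms into matrix ultraproducts from microstates

`exists_hom` [E2]: `θ a = el U (fun i => X i a)`. Additive, multiplicative, `⋆`: `el_congr` with the limits of `words_add`, `words_mul`, `words_star` (QFP/W1.lean with `t α = ntr`, `ntr_trAlg`, the filter `ω`,
`Nonempty (Fin (ν i))` from `NeZero`), then `el_add`, `el_mul`, `el_star`. Unit and scalars: `W1_gen` with `![1, -1]` and `![[(1, false)], []]` for `1`; for the scalar `z`: `commutes'`: `algebraMap z = z • 1`; use `W1_gen`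
with coefficients `![1, -z]` and words `![[(z • a, false)], [(a, false)]]`. Trace: `el_tendsto` and `words_tr`, uniqueness of limits.

`tendsto_words` [E2]: for `i ≥ ({letters of w}, w.length)` the difference is less than `1 / (i.2 + 1)`, which is at most `1 / (m + 1)` for `i.2 ≥ m`.
-/

set_option autoImplicit false

namespace Pool.Agent.QFD

open Pool.Agent.QFP
open scoped InnerProductSpace Matrix.Norms.L2Operator
open Filter Topology

universe u v

variable {H : Type v} [NormedAddCommGroup H] [InnerProductSpace ℂ H] [CompleteSpace H]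
  {A : VonNeumannAlgebra H} {τ : Alg A →ₗ[ℂ] ℂ}

theorem exists_hom {I : Type u} {ω : Ultrafilter I} {ν : I → ℕ} [∀ i, NeZero (ν i)] (U : UM ω ν)
    (X : ∀ i, Alg A → Mt (ν i)) (hX1 : ∀ i a, ‖X i a‖ ≤ ‖(a : H →L[ℂ] H)‖)
    (hX2 : ∀ w : List (Alg A × Bool), Tendsto (fun i => ntr (wordEval (X i) w)) ω (𝓝 (τ (wordEval id w)))) :
    ∃ θ : Alg A →⋆ₐ[ℂ] Alg U.M.N, (∀ a, θ a = el U (fun i => X i a)) ∧ ∀ a, stLin U.M (θ a) = τ a := by
  have hne : ∀ i, Nonempty (Fin (ν i)) := fun i => ⟨⟨0, Nat.pos_of_ne_zero (NeZero.ne (ν i))⟩⟩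
  have ht : ∀ i, TrAlg (ntr : Mt (ν i) →ₗ[ℂ] ℂ) := fun i => ntr_trAlg
  have hb : ∀ a, Bdd (fun i => X i a) := fun a => ⟨‖(a : H →L[ℂ] H)‖, fun i => hX1 i a⟩
  have hsmul : ∀ (z : ℂ) (a : Alg A), el U (fun i => X i (z • a)) = z • el U (fun i => X i a) := by
    intro z a
    rw [← el_smul U z (hb a)]
    refine el_congr U (hb _) ((hb a).smul z) ?_
    have h := W1_gen hX2 ![1, -z] ![[(z • a, false)], [(a, false)]] (by
      rw [Fin.sum_univ_two]
      simp [wordEval])
    refine h.congr fun i => ?_
    congr 1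
    rw [Fin.sum_univ_two]
    simp [wordEval, sub_eq_add_neg]
  have hone : el U (fun i => X i 1) = 1 := by
    rw [← el_one U]
    refine el_congr U (hb _) Bdd.one ?_
    have h := W1_gen hX2 ![1, -1] ![[(1, false)], []] (by
      rw [Fin.sum_univ_two]
      simp [wordEval])
    refine h.congr fun i => ?_
    congr 1
    rw [Fin.sum_univ_two]
    simp [wordEval, sub_eq_add_neg]
  have hadd : ∀ a b : Alg A, el U (fun i => X i (a + b)) = el U (fun i => X i a) + el U (fun i => X i b) := by
    intro a b
    rw [← el_add U (hb a) (hb b)]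
    exact el_congr U (hb _) ((hb a).add (hb b)) (words_add ht hX2 a b (a + b) rfl)
  have hmul : ∀ a b : Alg A, el U (fun i => X i (a * b)) = el U (fun i => X i a) * el U (fun i => X i b) := by
    intro a b
    rw [← el_mul U (hb a) (hb b)]
    exact el_congr U (hb _) ((hb a).mul (hb b)) (words_mul ht hX2 a b)
  have hstar : ∀ a : Alg A, el U (fun i => X i (star a)) = star (el U (fun i => X i a)) := by
    intro a
    rw [← el_star U (hb a)]
    exact el_congr U (hb _) (hb a).star (words_star ht hX2 a)
  have hzero : el U (fun i => X i 0) = 0 := by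
    have h := hsmul 0 0
    rwa [zero_smul, zero_smul] at h
  refine ⟨{ toFun := fun a => el U (fun i => X i a)
            map_one' := hone
            map_mul' := hmul
            map_zero' := hzero
            map_add' := hadd
            commutes' := fun z => ?_
            map_star' := hstar }, fun a => rfl, fun a => ?_⟩
  · rw [Algebra.algebraMap_eq_smul_one, Algebra.algebraMap_eq_smul_one]
    exact (hsmul z 1).trans (by rw [hone])
  · exact tendsto_nhds_unique (el_tendsto U (hb a)) (words_tr hX2 a)

end Pool.Agent.QFD
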