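import Pool.Agent.QFD.Defs

/-!
# [QFD-E2] Homomorphisms into matrix ultraproducts from microstates

`exists_hom` [E2]: `θ a = el U (fun i => X i a)`. Additive, multiplicative, `⋆`: `el_congr` with the limits of `words_add`, `words_mul`, `words_star` (QFP/W1.lean with `t α = ntr`, `ntr_trAlg`, the filter `ω`,
`Nonempty (Fin (ν i))` from `NeZero`), then `el_add`, `el_mul`, `el_star`. Unit and scalars: `W1_gen` with `![1, -1]` and `![[(1, false)], []]` for `1`; for the scalar `z`: `commutes'`: `algebraMap z = z • 1`; use `W1_gen`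
with coefficients `![1, -z]` and words `![[(z • a, false)], [(a, false)]]`. Trace: `el_tendsto` and `words_tr`, uniqueness of limits.

`tendsto_words` [E2]: for `i ≥ ({letters of w}, w.length)` the difference is less than `1 / (i.2 + 1)`, which is at most `1 / (m + 1)` for `i.2 ≥ m`.
-/

set_option autoImplicit false

namespace Pool.Agent.QFD

open Pool.Agent.QFP
open scoped InnerProductSpace Matrix.Norms.L2Operator
open Filter Topology

universe u v

variable {H : Type v} [NormedAddCommGroup H] [InnerProductSpace ℂ H] [CompleteSpace H]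
  {A : VonNeumannAlgebra H} {τ : Alg A →ₗ[ℂ] ℂ}

theorem tendsto_words {ν : Finset (Alg A) × ℕ → ℕ} (X : ∀ i, Alg A → Mt (ν i))
    (hX : ∀ i : Finset (Alg A) × ℕ, Mic A τ i.1 i.2 (1 / ((i.2 : ℝ) + 1)) (X i)) (w : List (Alg A × Bool)) :
    Tendsto (fun i => ntr (wordEval (X i) w)) atTop (𝓝 (τ (wordEval id w))) := by
  classical
  rw [Metric.tendsto_nhds]
  intro ε hε
  obtain ⟨k, hk⟩ := exists_nat_one_div_lt hε
  filter_upwards [eventually_ge_atTop ((w.map Prod.fst).toFinset, max k w.length)] with i hi
  rw [dist_eq_norm]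
  have h1 := (hX i).mom w (fun p hp => hi.1 (List.mem_toFinset.2 (List.mem_map_of_mem hp)))
    ((le_max_right k w.length).trans hi.2)
  refine h1.trans_le (le_trans ?_ hk.le)
  have h2 : (k : ℝ) ≤ i.2 := by exact_mod_cast (le_max_left k w.length).trans hi.2
  gcongr

end Pool.Agent.QFD
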