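import Pool.Agent.QFD.Defs

/-!
# [QFD-M1] The empirical method of Maurey

PROOF. Let `μ a = n⁻¹ ∑ s, x s a` and `q s a = x s a - μ a`, `E s = ∑ a ∈ G, n2 t (q s a) ^ 2`. Then `∑ s, q s a = 0`, and `E s ≤ 4 R`: `n2 (q s a)^2 ≤ 2 n2 (x s a)^2 + 2 n2 (μ a)^2` (parallelogram law
`TrAlg.parallelogram`), `∑ a, n2 (μ a)^2 ≤ n⁻¹ ∑ s ∑ a, n2 (x s a)^2 ≤ R` (convexity of the square of the seminorm `n2`, e. g. `n2 (μ a) ≤ n⁻¹ ∑ s, n2 (x s a)` and Cauchy-Schwarz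
`inner_mul_le_norm_mul_norm` / `Finset.sum_mul_sq_le_sq_mul_sq` / `inv_mul_sum..` `(∑ s, r s)^2 ≤ n ∑ s, r s ^ 2` (`sq_sum_le_card_mul_sum_sq`)).
Induction on `N`: there is `σ : Fin N → Fin n` with `∑ a ∈ G, n2 t (∑ j, q (σ j) a) ^ 2 ≤ 4 R N`. Step: let `S a = ∑ j, q (σ j) a`. Since `∑ s, ∑ a ∈ G, re t (star (S a) * q s a) = 0`, there is `s` with
`∑ a ∈ G, re t (star (S a) * q s a) ≤ 0` (`Finset.exists_le_of_sum_le` or by contradiction `Finset.sum_pos`). `n2 (S a + q s a)^2 = n2 (S a)^2 + 2 re t (star (S a) * q s a) + n2 (q s a)^2`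
(`TrAlg.n2_sq`, `TrAlg.map_star`, `B1_conj`). Extend `σ` by `s` (`Fin.snoc`, `Fin.sum_univ_castSucc`). Finally `N⁻¹ ∑ j, x (σ j) a - μ a = N⁻¹ ∑ j, q (σ j) a`, `TrAlg.n2_smul`.
-/

set_option autoImplicit false

namespace Pool.Agent.QFD

open Pool.Agent.QFP

namespace M1
section
variable {D : Type*} [CStarAlgebra D] {t : D →ₗ[ℂ] ℂ}

theorem add_sq (h : TrAlg t) (x y : D) :
    n2 t (x + y) ^ 2 = n2 t x ^ 2 + 2 * (t (star x * y)).re + n2 t y ^ 2 := by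
  have h1 : (t (star y * x)).re = (t (star x * y)).re := by
    rw [B1_conj h y x, Complex.conj_re]
  rw [h.n2_sq, h.n2_sq, h.n2_sq, star_add, add_mul, mul_add, mul_add, map_add, map_add, map_add,
    Complex.add_re, Complex.add_re, Complex.add_re, h1]
  ring

theorem mean_sq (h : TrAlg t) {n : ℕ} (hn : 0 < n) (y : Fin n → D) :
    n2 t ((n : ℂ)⁻¹ • ∑ s, y s) ^ 2 ≤ (n : ℝ)⁻¹ * ∑ s, n2 t (y s) ^ 2 := by
  have hn' : (0 : ℝ) < n := by exact_mod_cast hn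
  rw [h.n2_smul, norm_inv, Complex.norm_natCast, mul_pow]
  have h1 : n2 t (∑ s, y s) ^ 2 ≤ n * ∑ s, n2 t (y s) ^ 2 := by
    have h2 := h.n2_sum_le Finset.univ y
    have h3 : (∑ s, n2 t (y s)) ^ 2 ≤ (Finset.univ : Finset (Fin n)).card * ∑ s, n2 t (y s) ^ 2 :=
      sq_sum_le_card_mul_sum_sq
    rw [Finset.card_univ, Fintype.card_fin] at h3
    exact (pow_le_pow_left₀ (n2_nonneg _ _) h2 2).trans h3
  calc (n : ℝ)⁻¹ ^ 2 * n2 t (∑ s, y s) ^ 2 ≤ (n : ℝ)⁻¹ ^ 2 * (n * ∑ s, n2 t (y s) ^ 2) := by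
        gcongr
    _ = (n : ℝ)⁻¹ * ∑ s, n2 t (y s) ^ 2 := by
        field_simp

theorem sub_sq_le (h : TrAlg t) (x y : D) :
    n2 t (x - y) ^ 2 ≤ 2 * n2 t x ^ 2 + 2 * n2 t y ^ 2 := by
  have h1 := h.parallelogram x y
  nlinarith [sq_nonneg (n2 t (x + y))]

end
end M1

theorem maurey {D : Type*} [CStarAlgebra D] {t : D →ₗ[ℂ] ℂ} (ht : TrAlg t) {γ : Type*} (G : Finset γ)
    {n : ℕ} (hn : 0 < n) (x : Fin n → γ → D) (R : ℝ) (hx : ∀ s, ∑ a ∈ G, n2 t (x s a) ^ 2 ≤ R)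
    (N : ℕ) (hN : 0 < N) :
    ∃ σ : Fin N → Fin n,
      ∑ a ∈ G, n2 t ((N : ℂ)⁻¹ • ∑ j, x (σ j) a - (n : ℂ)⁻¹ • ∑ s, x s a) ^ 2 ≤ 4 * R / N := by
  have hn' : (0 : ℝ) < n := by exact_mod_cast hn
  have hN' : (0 : ℝ) < N := by exact_mod_cast hN
  obtain ⟨μ, hμ⟩ : ∃ μ : γ → D, ∀ a, μ a = (n : ℂ)⁻¹ • ∑ s, x s a := ⟨_, fun _ => rfl⟩
  obtain ⟨q, hq⟩ : ∃ q : Fin n → γ → D, ∀ s a, q s a = x s a - μ a := ⟨_, fun _ _ => rfl⟩
  have hq0 : ∀ a, ∑ s, q s a = 0 := by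
    intro a
    have h1 : ∑ s, q s a = ∑ s, x s a - (n : ℂ) • μ a := by
      rw [Finset.sum_congr rfl fun s _ => hq s a, Finset.sum_sub_distrib, Finset.sum_const,
        Finset.card_univ, Fintype.card_fin, Nat.cast_smul_eq_nsmul ℂ n (μ a)]
    rw [h1, hμ, smul_smul, mul_inv_cancel₀ (by exact_mod_cast hn.ne'), one_smul, sub_self]
  have hE : ∀ s, ∑ a ∈ G, n2 t (q s a) ^ 2 ≤ 4 * R := by
    intro s
    have h1 : ∑ a ∈ G, n2 t (q s a) ^ 2 ≤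
        ∑ a ∈ G, (2 * n2 t (x s a) ^ 2 + 2 * ((n : ℝ)⁻¹ * ∑ s', n2 t (x s' a) ^ 2)) := by
      refine Finset.sum_le_sum fun a _ => ?_
      have h2 := M1.sub_sq_le ht (x s a) (μ a)
      have h3 := M1.mean_sq ht hn (fun s' => x s' a)
      rw [← hμ] at h3
      rw [hq]
      linarith
    rw [Finset.sum_add_distrib, ← Finset.mul_sum, ← Finset.mul_sum, ← Finset.mul_sum,
      Finset.sum_comm] at h1
    have h4 : ∑ s', ∑ a ∈ G, n2 t (x s' a) ^ 2 ≤ n * R := by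
      calc ∑ s', ∑ a ∈ G, n2 t (x s' a) ^ 2 ≤ ∑ _s' : Fin n, R := Finset.sum_le_sum fun s' _ => hx s'
        _ = n * R := by rw [Finset.sum_const, Finset.card_univ, Fintype.card_fin, nsmul_eq_mul]
    have h5 : (n : ℝ)⁻¹ * ∑ s', ∑ a ∈ G, n2 t (x s' a) ^ 2 ≤ R := by
      calc (n : ℝ)⁻¹ * ∑ s', ∑ a ∈ G, n2 t (x s' a) ^ 2 ≤ (n : ℝ)⁻¹ * (n * R) := by gcongr
        _ = R := by field_simp
    have h6 := hx s
    linarith
  have key : ∀ N : ℕ, ∃ σ : Fin N → Fin n, ∑ a ∈ G, n2 t (∑ j, q (σ j) a) ^ 2 ≤ 4 * R * N := by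
    intro N
    induction N with
    | zero =>
      refine ⟨fun j => j.elim0, ?_⟩
      have h1 : ∀ a ∈ G, n2 t (∑ j : Fin 0, q (j.elim0) a) ^ 2 = 0 := by
        intro a _
        rw [Finset.univ_eq_empty, Finset.sum_empty, ht.n2_zero]
        norm_num
      rw [Finset.sum_congr rfl h1]
      simp
    | succ N ih =>
      obtain ⟨σ, hσ⟩ := ih
      obtain ⟨S, hS⟩ : ∃ S : γ → D, ∀ a, S a = ∑ j, q (σ j) a := ⟨_, fun _ => rfl⟩
      have h0 : ∑ s : Fin n, ∑ a ∈ G, (t (star (S a) * q s a)).re = 0 := by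
        rw [Finset.sum_comm]
        refine Finset.sum_eq_zero fun a _ => ?_
        rw [← Complex.re_sum, ← map_sum, ← Finset.mul_sum, hq0, mul_zero, map_zero, Complex.zero_re]
      obtain ⟨s, hs⟩ : ∃ s : Fin n, ∑ a ∈ G, (t (star (S a) * q s a)).re ≤ 0 := by
        by_contra hcon
        push Not at hcon
        have : Nonempty (Fin n) := ⟨⟨0, hn⟩⟩
        have h2 := Finset.sum_pos (fun s (_ : s ∈ (Finset.univ : Finset (Fin n))) => hcon s)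
          Finset.univ_nonempty
        linarith
      refine ⟨Fin.snoc σ s, ?_⟩
      have h1 : ∀ a, ∑ j : Fin (N + 1), q (Fin.snoc (α := fun _ => Fin n) σ s j) a = S a + q s a := by
        intro a
        rw [Fin.sum_univ_castSucc, hS]
        simp only [Fin.snoc_castSucc, Fin.snoc_last]
      have h2 : ∑ a ∈ G, n2 t (∑ j : Fin (N + 1), q (Fin.snoc (α := fun _ => Fin n) σ s j) a) ^ 2 =
          ∑ a ∈ G, n2 t (S a) ^ 2 + 2 * ∑ a ∈ G, (t (star (S a) * q s a)).re +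
            ∑ a ∈ G, n2 t (q s a) ^ 2 := by
        rw [Finset.mul_sum, ← Finset.sum_add_distrib, ← Finset.sum_add_distrib]
        refine Finset.sum_congr rfl fun a _ => ?_
        rw [h1, M1.add_sq ht]
      rw [h2]
      have h3 : ∑ a ∈ G, n2 t (S a) ^ 2 ≤ 4 * R * N := by
        rw [Finset.sum_congr rfl fun a _ => by rw [hS]]
        exact hσ
      have h4 := hE s
      push_cast
      linarith
  obtain ⟨σ, hσ⟩ := key N
  refine ⟨σ, ?_⟩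
  have h1 : ∀ a, (N : ℂ)⁻¹ • ∑ j, x (σ j) a - (n : ℂ)⁻¹ • ∑ s, x s a =
      (N : ℂ)⁻¹ • ∑ j, q (σ j) a := by
    intro a
    have h2 : ∑ j, q (σ j) a = ∑ j, x (σ j) a - (N : ℂ) • μ a := by
      rw [Finset.sum_congr rfl fun j _ => hq (σ j) a, Finset.sum_sub_distrib, Finset.sum_const,
        Finset.card_univ, Fintype.card_fin, Nat.cast_smul_eq_nsmul ℂ N (μ a)]
    rw [h2, smul_sub, smul_smul, inv_mul_cancel₀ (by exact_mod_cast hN.ne'), one_smul, hμ]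
  have h3 : ∑ a ∈ G, n2 t ((N : ℂ)⁻¹ • ∑ j, x (σ j) a - (n : ℂ)⁻¹ • ∑ s, x s a) ^ 2 =
      (N : ℝ)⁻¹ ^ 2 * ∑ a ∈ G, n2 t (∑ j, q (σ j) a) ^ 2 := by
    rw [Finset.mul_sum]
    refine Finset.sum_congr rfl fun a _ => ?_
    rw [h1, ht.n2_smul, norm_inv, Complex.norm_natCast, mul_pow]
  rw [h3]
  calc (N : ℝ)⁻¹ ^ 2 * ∑ a ∈ G, n2 t (∑ j, q (σ j) a) ^ 2 ≤ (N : ℝ)⁻¹ ^ 2 * (4 * R * N) := by gcongr
    _ = 4 * R / N := by field_simp

end Pool.Agent.QFD
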