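import Pool.Agent.QFD.Defs

/-!
# [QFD-M2] Limits of norms of linear combinations of microstates, pairs of microstates

`tendsto_comb` [M2a]: `n2 ntr z = sqrt (re (ntr (star z * z)))`; `W1_sq` (QFP/W1.lean) with the one letter words `[(z j, false)]` writes `ntr (star z * z)` for
`z = ∑ j, c j • X i (z j)` as a combination of the `ntr (wordEval (X i) w)`, which converges to the same combination of the `t (wordEval id w)`; continuity of `re` and `sqrt`.

`exists_pairs` [M2b]: for `i` apply the hypothesis to `insert x i.1` (classical `DecidableEq`), `i.2`, `1 / (i.2 + 1)`, and choose. `Mic` for the larger set implies `Mic` for `i.1`.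
-/

set_option autoImplicit false

namespace Pool.Agent.QFD

open Pool.Agent.QFP
open scoped InnerProductSpace Matrix.Norms.L2Operator
open Filter Topology

universe u v

variable {K : Type v} [NormedAddCommGroup K] [InnerProductSpace ℂ K] [CompleteSpace K]
  {M : VonNeumannAlgebra K} {t : Alg M →ₗ[ℂ] ℂ}

/-- [M2a] -/
theorem tendsto_comb {Λ : Type*} {ℱ : Filter Λ} {ν : Λ → ℕ} {X : ∀ i, Alg M → Mt (ν i)}
    (hX : ∀ w : List (Alg M × Bool), Tendsto (fun i => ntr (wordEval (X i) w)) ℱ (𝓝 (t (wordEval id w))))
    {n : ℕ} (c : Fin n → ℂ) (z : Fin n → Alg M) :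
    Tendsto (fun i => n2 ntr (∑ j, c j • X i (z j))) ℱ (𝓝 (n2 t (∑ j, c j • z j))) := by
  have e1 : ∀ i, ∑ j, c j • X i (z j) = ∑ j, c j • wordEval (X i) [(z j, false)] := by
    intro i
    refine Finset.sum_congr rfl fun j _ => ?_
    simp [wordEval]
  have e2 : ∑ j, c j • z j = ∑ j, c j • wordEval (id : Alg M → Alg M) [(z j, false)] := by
    refine Finset.sum_congr rfl fun j _ => ?_
    simp [wordEval]
  have h1 : Tendsto (fun i => ntr (star (∑ j, c j • X i (z j)) * ∑ j, c j • X i (z j))) ℱ
      (𝓝 (t (star (∑ j, c j • z j) * ∑ j, c j • z j))) := by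
    rw [e2, W1_sq]
    simp only [e1, W1_sq]
    exact tendsto_finsetSum _ fun i _ => tendsto_finsetSum _ fun j _ =>
      ((hX _).const_mul _).const_mul _
  exact (Real.continuous_sqrt.tendsto _).comp ((Complex.continuous_re.tendsto _).comp h1)

end Pool.Agent.QFD
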