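import Pool.Agent.QFD.Defs

/-!
# [QFD-M2] Limits of norms of linear combinations of microstates, pairs of microstates

`tendsto_comb` [M2a]: `n2 ntr z = sqrt (re (ntr (star z * z)))`; `W1_sq` (QFP/W1.lean) with the one letter words `[(z j, false)]` writes `ntr (star z * z)` for
`z = ∑ j, c j • X i (z j)` as a combination of the `ntr (wordEval (X i) w)`, which converges to the same combination of the `t (wordEval id w)`; continuity of `re` and `sqrt`.

`exists_pairs` [M2b]: for `i` apply the hypothesis to `insert x i.1` (classical `DecidableEq`), `i.2`, `1 / (i.2 + 1)`, and choose. `Mic` for the larger set implies `Mic` for `i.1`.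
-/

set_option autoImplicit false

namespace Pool.Agent.QFD

open Pool.Agent.QFP
open scoped InnerProductSpace Matrix.Norms.L2Operator
open Filter Topology

universe u v

variable {K : Type v} [NormedAddCommGroup K] [InnerProductSpace ℂ K] [CompleteSpace K]
  {M : VonNeumannAlgebra K} {t : Alg M →ₗ[ℂ] ℂ}

/-- [M2b] -/
theorem exists_pairs {S : Set (Alg M)} {x : Alg M} {e : ℝ} (h : SepBy M t S x e) :
    ∃ (ν : Finset (Alg M) × ℕ → ℕ) (Y Y' : ∀ i, Alg M → Mt (ν i)), (∀ i, 0 < ν i) ∧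
      (∀ i, Mic M t i.1 i.2 (1 / ((i.2 : ℝ) + 1)) (Y i)) ∧
      (∀ i, Mic M t i.1 i.2 (1 / ((i.2 : ℝ) + 1)) (Y' i)) ∧
      (∀ i, ∀ b ∈ i.1, b ∈ S → n2 ntr (Y i b - Y' i b) < 1 / ((i.2 : ℝ) + 1)) ∧
      ∀ i, e ≤ n2 ntr (Y i x - Y' i x) := by
  classical
  have h' := fun i : Finset (Alg M) × ℕ => h (insert x i.1) i.2 (1 / ((i.2 : ℝ) + 1)) (by positivity)
    (Finset.mem_insert_self x i.1)
  choose ν hν Y Y' h1 h2 h3 h4 using h'
  exact ⟨ν, Y, Y', hν,
    fun i => ⟨(h1 i).norm, fun w hw hl => (h1 i).mom w (fun p hp => Finset.mem_insert_of_mem (hw p hp)) hl⟩,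
    fun i => ⟨(h2 i).norm, fun w hw hl => (h2 i).mom w (fun p hp => Finset.mem_insert_of_mem (hw p hp)) hl⟩,
    fun i b hb hbS => h3 i b (Finset.mem_insert_of_mem hb) hbS, h4⟩

end Pool.Agent.QFD
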