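import Pool.Agent.QFD.E2b

/-!
# [QFD-M3] The new family of microstates

Notation: `z a = N⁻¹ ∑ j, θ j a : Alg M`. Take `ν, Y, Y'` from `exists_pairs` for `hsep`; all limits are along `atTop` on `Finset (Alg M) × ℕ`. `tendsto_words` gives the convergence of the moments of `Y` and `Y'`.
Put `Z i j a = Y i (θ j a)` and `Z' i j a = if a ∈ B then Y i (θ j a) else Y' i (θ j a)`.

`mom_Z` [M3a]: `wordEval (Z i j) w = wordEval (Y i) (w.map fun p => (θ j p.1, p.2))` (`A2y_word`), and `t (wordEval id (w.map ..)) = t (θ j (wordEval id w)) = τ (wordEval id w)` (`map_wordEval`, `hθ`). For `Z'`: for fixed `w` the letters of `w`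
satisfy eventually `n2 ntr (Z' i j a - Y' i (θ j a)) ≤ 1 / (i.2 + 1)` (`a ∈ B`: `Y i (θ j a) - Y' i (θ j a)`, `θ j a ∈ S`, eventually `θ j a ∈ i.1`; otherwise the difference is `0`), and the norms are at most `‖a‖ ≤ R`;
`TrAlg.word_close` (QFP/B3.lean) gives `‖ntr (wordEval (Z' i j) w) - ntr (wordEval (fun a => Y' i (θ j a)) w)‖ ≤ w.length R^w.length / (i.2 + 1) → 0`.

`pot_Z` [M3b]: let `p i a = N⁻¹ ∑ j, Y i (θ j a)`, `q i a = N⁻¹ ∑ j, Y' i (θ j a)`. For `a ∈ G`: `Z' i j a = Y' i (θ j a)`: if `a ∈ B` then `a = 0` (`Perp` with `b = star a`, faithful), `θ j a = 0`, `‖Y i 0‖ ≤ 0`, both are `0`.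
So the average of the family is `(1/2) • (p i a + q i a)`, `n2 ((1/2) (p + q))^2 = (n2 p ^2 + n2 q ^2)/2 - n2 (p - q)^2/4` (`TrAlg.parallelogram`, `TrAlg.n2_smul`). `n2 (p i a) → n2 t (z a)`, `n2 (q i a) → n2 t (z a)` (`tendsto_comb`).
`n2 (p i a₀ - Y i x) → n2 t (z a₀ - x) ≤ κ` (`tendsto_comb` with `N + 1` letters, or `Fin.cons`), the same for `q`, `Y'`; so for every `η > 0` eventually `n2 (p i a₀ - q i a₀) ≥ e - 2 κ - 2 η`.
Hence eventually the potential is at most `∑ a ∈ G, n2 t (z a)^2 - (e - 2 κ)^2/4 + η'`, for every `η' > 0` (`0 ≤ e - 2 κ`).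

`fam_new` [M3c]: given `F, m, ε` choose `i` so large that all words of length at most `m` over `F` have moments within `ε` for all `Z i j`, `Z' i j` (finitely many words; `Filter.eventually_all_finite`, `Filter.eventually_all`), and the potential is less than `c`.
The family is indexed by `Fin (N + N)` (`Fin.append`-like: `Fin.addCases (Z i) (Z' i)`, `Fin.sum_univ_add`). Agreement on `B`: for `b ∈ B` both are `Y i (θ j b)`, `θ j b = θ j' b`. Norms: `‖Y i (θ j a)‖ ≤ ‖θ j a‖ ≤ ‖a‖`.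
-/

set_option autoImplicit false

namespace Pool.Agent.QFD

open Pool.Agent.QFP
open scoped InnerProductSpace Matrix.Norms.L2Operator
open Filter Topology

universe u v

variable {H : Type u} [NormedAddCommGroup H] [InnerProductSpace ℂ H] [CompleteSpace H]
  {A B : VonNeumannAlgebra H} {τ : Alg A →ₗ[ℂ] ℂ}
  {K : Type v} [NormedAddCommGroup K] [InnerProductSpace ℂ K] [CompleteSpace K]
  {M : VonNeumannAlgebra K} {t : Alg M →ₗ[ℂ] ℂ}

open Classical in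
/-- the patched second family -/
noncomputable def Zp (B : VonNeumannAlgebra H) {ν : ℕ} (Y Y' : Alg M → Mt ν) (θ : Alg A →⋆ₐ[ℂ] Alg M) (a : Alg A) : Mt ν :=
  if (a : H →L[ℂ] H) ∈ B then Y (θ a) else Y' (θ a)

theorem norm_comp_le {ν : ℕ} {F : Finset (Alg M)} {m : ℕ} {ε : ℝ} {Y : Alg M → Mt ν}
    (hY : Mic M t F m ε Y) (θ : Alg A →⋆ₐ[ℂ] Alg M) (a : Alg A) :
    ‖Y (θ a)‖ ≤ ‖(a : H →L[ℂ] H)‖ :=
  (hY.norm (θ a)).trans (NonUnitalStarAlgHom.norm_apply_le θ a)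

/-- [M3a] -/
theorem mom_Z {ν : Finset (Alg M) × ℕ → ℕ} {Y : ∀ i, Alg M → Mt (ν i)}
    (hY : ∀ i : Finset (Alg M) × ℕ, Mic M t i.1 i.2 (1 / ((i.2 : ℝ) + 1)) (Y i))
    (θ : Alg A →⋆ₐ[ℂ] Alg M) (hθ : ∀ a, t (θ a) = τ a) (w : List (Alg A × Bool)) :
    Tendsto (fun i => ntr (wordEval (fun a => Y i (θ a)) w)) atTop (𝓝 (τ (wordEval id w))) := by
  have h := tendsto_words Y hY (w.map fun p => (θ p.1, p.2))
  have e1 : ∀ i, wordEval (Y i) (w.map fun p => (θ p.1, p.2)) = wordEval (fun a => Y i (θ a)) w :=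
    fun i => A2y_word _ _ _
  have e2 : wordEval (id : Alg M → Alg M) (w.map fun p => (θ p.1, p.2)) = θ (wordEval id w) := by
    rw [A2y_word, map_wordEval]
    rfl
  rw [e2, hθ] at h
  exact h.congr fun i => by rw [e1]

/-- [M3a] -/
theorem mom_Zp {ν : Finset (Alg M) × ℕ → ℕ} (hν : ∀ i, 0 < ν i) {Y Y' : ∀ i, Alg M → Mt (ν i)}
    (hY : ∀ i : Finset (Alg M) × ℕ, Mic M t i.1 i.2 (1 / ((i.2 : ℝ) + 1)) (Y i))
    (hY' : ∀ i : Finset (Alg M) × ℕ, Mic M t i.1 i.2 (1 / ((i.2 : ℝ) + 1)) (Y' i))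
    (θ : Alg A →⋆ₐ[ℂ] Alg M) (hθ : ∀ a, t (θ a) = τ a)
    (hB : ∀ i : Finset (Alg M) × ℕ, ∀ b : Alg A, (b : H →L[ℂ] H) ∈ B → θ b ∈ i.1 →
      n2 ntr (Y i (θ b) - Y' i (θ b)) < 1 / ((i.2 : ℝ) + 1)) (w : List (Alg A × Bool)) :
    Tendsto (fun i => ntr (wordEval (Zp B (Y i) (Y' i) θ) w)) atTop (𝓝 (τ (wordEval id w))) := by
  classical
  have h1 := mom_Z hY' θ hθ w
  obtain ⟨R₀, hR₀⟩ := ((w.map fun p => ‖((p.1 : Alg A) : H →L[ℂ] H)‖).toFinset).exists_le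
  obtain ⟨R, hR1, hR⟩ : ∃ R : ℝ, 1 ≤ R ∧ ∀ p ∈ w, ‖((p.1 : Alg A) : H →L[ℂ] H)‖ ≤ R :=
    ⟨max 1 R₀, le_max_left _ _, fun p hp => (hR₀ _ (List.mem_toFinset.2
      (List.mem_map.2 ⟨p, hp, rfl⟩))).trans (le_max_right _ _)⟩
  have h2 : Tendsto (fun i => ntr (wordEval (Zp B (Y i) (Y' i) θ) w) -
      ntr (wordEval (fun a => Y' i (θ a)) w)) atTop (𝓝 0) := by
    have hzero : Tendsto (fun i : Finset (Alg M) × ℕ => w.length * R ^ w.length *
        (1 / ((i.2 : ℝ) + 1))) atTop (𝓝 0) := by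
      have h3 : Tendsto (fun i : Finset (Alg M) × ℕ => i.2) atTop atTop := by
        refine tendsto_atTop.2 fun k => ?_
        filter_upwards [eventually_ge_atTop ((∅ : Finset (Alg M)), k)] with i hi
        exact hi.2
      have h4 := (tendsto_one_div_add_atTop_nhds_zero_nat (𝕜 := ℝ)).comp h3
      have h5 := h4.const_mul (w.length * R ^ w.length)
      rw [mul_zero] at h5
      exact h5
    refine squeeze_zero_norm' ?_ hzero
    filter_upwards [eventually_ge_atTop ((w.map fun p => θ p.1).toFinset, 0)] with i hi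
    have : Nonempty (Fin (ν i)) := ⟨⟨0, hν i⟩⟩
    have hpos : (0 : ℝ) < 1 / ((i.2 : ℝ) + 1) := by positivity
    refine (ntr_trAlg.word_close (Zp B (Y i) (Y' i) θ) (fun a => Y' i (θ a)) R (1 / ((i.2 : ℝ) + 1))
      hR1 hpos.le w fun p hp => ?_).2
    have hp1 : θ p.1 ∈ i.1 := hi.1 (List.mem_toFinset.2 (List.mem_map.2 ⟨p, hp, rfl⟩))
    have hn1 := (norm_comp_le (hY i) θ p.1).trans (hR p hp)
    have hn2 := (norm_comp_le (hY' i) θ p.1).trans (hR p hp)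
    by_cases hb : (p.1 : H →L[ℂ] H) ∈ B
    · have e1 : Zp B (Y i) (Y' i) θ p.1 = Y i (θ p.1) := if_pos hb
      rw [e1]
      exact ⟨hn1, hn2, (hB i p.1 hb hp1).le⟩
    · have e1 : Zp B (Y i) (Y' i) θ p.1 = Y' i (θ p.1) := if_neg hb
      rw [e1]
      refine ⟨hn2, hn2, ?_⟩
      rw [sub_self, ntr_trAlg.n2_zero]
      exact hpos.le
  have h3 := h2.add h1
  rw [zero_add] at h3
  exact h3.congr fun i => sub_add_cancel _ _

end Pool.Agent.QFD
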