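import Pool.Agent.QFD.M2a
import Pool.Agent.QFD.M3a

/-!
# [QFD-M3] The new family of microstates

Notation: `z a = N⁻¹ ∑ j, θ j a : Alg M`. Take `ν, Y, Y'` from `exists_pairs` for `hsep`; all limits are along `atTop` on `Finset (Alg M) × ℕ`. `tendsto_words` gives the convergence of the moments of `Y` and `Y'`.
Put `Z i j a = Y i (θ j a)` and `Z' i j a = if a ∈ B then Y i (θ j a) else Y' i (θ j a)`.

`mom_Z` [M3a]: `wordEval (Z i j) w = wordEval (Y i) (w.map fun p => (θ j p.1, p.2))` (`A2y_word`), and `t (wordEval id (w.map ..)) = t (θ j (wordEval id w)) = τ (wordEval id w)` (`map_wordEval`, `hθ`). For `Z'`: for fixed `w` the letters of `w`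
satisfy eventually `n2 ntr (Z' i j a - Y' i (θ j a)) ≤ 1 / (i.2 + 1)` (`a ∈ B`: `Y i (θ j a) - Y' i (θ j a)`, `θ j a ∈ S`, eventually `θ j a ∈ i.1`; otherwise the difference is `0`), and the norms are at most `‖a‖ ≤ R`;
`TrAlg.word_close` (QFP/B3.lean) gives `‖ntr (wordEval (Z' i j) w) - ntr (wordEval (fun a => Y' i (θ j a)) w)‖ ≤ w.length R^w.length / (i.2 + 1) → 0`.

`pot_Z` [M3b]: let `p i a = N⁻¹ ∑ j, Y i (θ j a)`, `q i a = N⁻¹ ∑ j, Y' i (θ j a)`. For `a ∈ G`: `Z' i j a = Y' i (θ j a)`: if `a ∈ B` then `a = 0` (`Perp` with `b = star a`, faithful), `θ j a = 0`, `‖Y i 0‖ ≤ 0`, both are `0`.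
So the average of the family is `(1/2) • (p i a + q i a)`, `n2 ((1/2) (p + q))^2 = (n2 p ^2 + n2 q ^2)/2 - n2 (p - q)^2/4` (`TrAlg.parallelogram`, `TrAlg.n2_smul`). `n2 (p i a) → n2 t (z a)`, `n2 (q i a) → n2 t (z a)` (`tendsto_comb`).
`n2 (p i a₀ - Y i x) → n2 t (z a₀ - x) ≤ κ` (`tendsto_comb` with `N + 1` letters, or `Fin.cons`), the same for `q`, `Y'`; so for every `η > 0` eventually `n2 (p i a₀ - q i a₀) ≥ e - 2 κ - 2 η`.
Hence eventually the potential is at most `∑ a ∈ G, n2 t (z a)^2 - (e - 2 κ)^2/4 + η'`, for every `η' > 0` (`0 ≤ e - 2 κ`).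

`fam_new` [M3c]: given `F, m, ε` choose `i` so large that all words of length at most `m` over `F` have moments within `ε` for all `Z i j`, `Z' i j` (finitely many words; `Filter.eventually_all_finite`, `Filter.eventually_all`), and the potential is less than `c`.
The family is indexed by `Fin (N + N)` (`Fin.append`-like: `Fin.addCases (Z i) (Z' i)`, `Fin.sum_univ_add`). Agreement on `B`: for `b ∈ B` both are `Y i (θ j b)`, `θ j b = θ j' b`. Norms: `‖Y i (θ j a)‖ ≤ ‖θ j a‖ ≤ ‖a‖`.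
-/

set_option autoImplicit false

namespace Pool.Agent.QFD

open Pool.Agent.QFP
open scoped InnerProductSpace Matrix.Norms.L2Operator
open Filter Topology

universe u v

variable {H : Type u} [NormedAddCommGroup H] [InnerProductSpace ℂ H] [CompleteSpace H]
  {A B : VonNeumannAlgebra H} {τ : Alg A →ₗ[ℂ] ℂ}
  {K : Type v} [NormedAddCommGroup K] [InnerProductSpace ℂ K] [CompleteSpace K]
  {M : VonNeumannAlgebra K} {t : Alg M →ₗ[ℂ] ℂ}

namespace M3b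

theorem eq_zero (hτ : IsTrace A τ) {a : Alg A} (ha : Perp A B τ a) (hb : (a : H →L[ℂ] H) ∈ B) :
    a = 0 := by
  have h1 : τ (a * star a) = 0 := ha (star a) (star_mem hb)
  exact hτ.faithful a (by rw [hτ.tracial, h1])

theorem mic_zero {ν : ℕ} {F : Finset (Alg M)} {m : ℕ} {ε : ℝ} {Y : Alg M → Mt ν}
    (hY : Mic M t F m ε Y) : Y 0 = 0 := by
  have h := hY.norm 0
  have h0 : ‖((0 : Alg M) : K →L[ℂ] K)‖ = 0 := norm_zero
  rw [h0] at h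
  exact norm_le_zero_iff.1 h

theorem half_sq {D : Type*} [CStarAlgebra D] {s : D →ₗ[ℂ] ℂ} (hs : TrAlg s) (p q : D) :
    n2 s ((1 / 2 : ℂ) • (p + q)) ^ 2 = (n2 s p ^ 2 + n2 s q ^ 2) / 2 - n2 s (p - q) ^ 2 / 4 := by
  have h1 := hs.parallelogram p q
  rw [hs.n2_smul, mul_pow]
  have h2 : ‖(1 / 2 : ℂ)‖ ^ 2 = 1 / 4 := by norm_num
  rw [h2]
  linarith

theorem half_avg {D : Type*} [AddCommGroup D] [Module ℂ D] {N : ℕ} (y z : Fin N → D) :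
    ((N + N : ℕ) : ℂ)⁻¹ • (∑ j, y j + ∑ j, z j) =
      (1 / 2 : ℂ) • (∑ j, (N : ℂ)⁻¹ • y j + ∑ j, (N : ℂ)⁻¹ • z j) := by
  rw [← Finset.smul_sum, ← Finset.smul_sum, ← smul_add, smul_smul]
  congr 1
  push_cast
  rw [← two_mul, mul_inv]
  ring

end M3b

/-- [M3b] -/
theorem pot_Z (hτ : IsTrace A τ) (ht : IsTrace M t) {N : ℕ} (hN : 0 < N) (θ : Fin N → Alg A →⋆ₐ[ℂ] Alg M)
    (hθ : ∀ j a, t (θ j a) = τ a) (G : Finset (Alg A)) (hG : ∀ a ∈ G, Perp A B τ a) {a₀ : Alg A} (ha₀ : a₀ ∈ G)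
    {ν : Finset (Alg M) × ℕ → ℕ} (hν : ∀ i, 0 < ν i) {Y Y' : ∀ i, Alg M → Mt (ν i)}
    (hY : ∀ i : Finset (Alg M) × ℕ, Mic M t i.1 i.2 (1 / ((i.2 : ℝ) + 1)) (Y i))
    (hY' : ∀ i : Finset (Alg M) × ℕ, Mic M t i.1 i.2 (1 / ((i.2 : ℝ) + 1)) (Y' i))
    {x : Alg M} {e κ : ℝ} (he : ∀ i, e ≤ n2 ntr (Y i x - Y' i x))
    (hκ : n2 t ((N : ℂ)⁻¹ • ∑ j, θ j a₀ - x) ≤ κ) (hκe : 2 * κ ≤ e) {c : ℝ}
    (hc : ∑ a ∈ G, n2 t ((N : ℂ)⁻¹ • ∑ j, θ j a) ^ 2 - (e - 2 * κ) ^ 2 / 4 < c) :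
    ∀ᶠ i in atTop, ∑ a ∈ G, n2 ntr (((N + N : ℕ) : ℂ)⁻¹ •
      (∑ j, Y i (θ j a) + ∑ j, Zp B (Y i) (Y' i) (θ j) a)) ^ 2 < c := by
  classical
  have hne : ∀ i, Nonempty (Fin (ν i)) := fun i => ⟨⟨0, hν i⟩⟩
  have htr : ∀ i, TrAlg (ntr : Mt (ν i) →ₗ[ℂ] ℂ) := fun i => ntr_trAlg
  obtain ⟨P, hP⟩ : ∃ P : ∀ i, Alg A → Mt (ν i), ∀ i a, P i a = ∑ j, (N : ℂ)⁻¹ • Y i (θ j a) :=
    ⟨_, fun _ _ => rfl⟩
  obtain ⟨Q, hQ⟩ : ∃ Q : ∀ i, Alg A → Mt (ν i), ∀ i a, Q i a = ∑ j, (N : ℂ)⁻¹ • Y' i (θ j a) :=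
    ⟨_, fun _ _ => rfl⟩
  obtain ⟨z, hz⟩ : ∃ z : Alg A → Alg M, ∀ a, z a = (N : ℂ)⁻¹ • ∑ j, θ j a := ⟨_, fun _ => rfl⟩
  have hZp : ∀ i, ∀ a ∈ G, ∀ j, Zp B (Y i) (Y' i) (θ j) a = Y' i (θ j a) := by
    intro i a ha j
    by_cases hb : (a : H →L[ℂ] H) ∈ B
    · have e1 : Zp B (Y i) (Y' i) (θ j) a = Y i (θ j a) := if_pos hb
      rw [e1, M3b.eq_zero hτ (hG a ha) hb, map_zero, M3b.mic_zero (hY i), M3b.mic_zero (hY' i)]
    · exact if_neg hb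
  have hpot : ∀ i, ∑ a ∈ G, n2 ntr (((N + N : ℕ) : ℂ)⁻¹ •
      (∑ j, Y i (θ j a) + ∑ j, Zp B (Y i) (Y' i) (θ j) a)) ^ 2 =
      ∑ a ∈ G, ((n2 ntr (P i a) ^ 2 + n2 ntr (Q i a) ^ 2) / 2 - n2 ntr (P i a - Q i a) ^ 2 / 4) := by
    intro i
    refine Finset.sum_congr rfl fun a ha => ?_
    rw [Finset.sum_congr rfl fun j _ => hZp i a ha j, M3b.half_avg, ← hP, ← hQ,
      M3b.half_sq (htr i)]
  have hPlim : ∀ a, Tendsto (fun i => n2 ntr (P i a)) atTop (𝓝 (n2 t (z a))) := by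
    intro a
    have h := tendsto_comb (tendsto_words Y hY) (fun _ : Fin N => (N : ℂ)⁻¹) (fun j => θ j a)
    rw [← Finset.smul_sum, ← hz] at h
    exact h.congr fun i => by rw [hP]
  have hQlim : ∀ a, Tendsto (fun i => n2 ntr (Q i a)) atTop (𝓝 (n2 t (z a))) := by
    intro a
    have h := tendsto_comb (tendsto_words Y' hY') (fun _ : Fin N => (N : ℂ)⁻¹) (fun j => θ j a)
    rw [← Finset.smul_sum, ← hz] at h
    exact h.congr fun i => by rw [hQ]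
  have hPx : Tendsto (fun i => n2 ntr (P i a₀ - Y i x)) atTop (𝓝 (n2 t (z a₀ - x))) := by
    have h := tendsto_comb (tendsto_words Y hY) (Fin.cons (-1) (fun _ : Fin N => (N : ℂ)⁻¹))
      (Fin.cons x (fun j : Fin N => θ j a₀) : Fin (N + 1) → Alg M)
    rw [Fin.sum_univ_succ] at h
    simp only [Fin.cons_zero, Fin.cons_succ] at h
    rw [← Finset.smul_sum, ← hz, neg_smul, one_smul, neg_add_eq_sub] at h
    refine h.congr fun i => ?_
    rw [Fin.sum_univ_succ]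
    simp only [Fin.cons_zero, Fin.cons_succ]
    rw [← hP, neg_smul, one_smul, neg_add_eq_sub]
  have hQx : Tendsto (fun i => n2 ntr (Q i a₀ - Y' i x)) atTop (𝓝 (n2 t (z a₀ - x))) := by
    have h := tendsto_comb (tendsto_words Y' hY') (Fin.cons (-1) (fun _ : Fin N => (N : ℂ)⁻¹))
      (Fin.cons x (fun j : Fin N => θ j a₀) : Fin (N + 1) → Alg M)
    rw [Fin.sum_univ_succ] at h
    simp only [Fin.cons_zero, Fin.cons_succ] at h
    rw [← Finset.smul_sum, ← hz, neg_smul, one_smul, neg_add_eq_sub] at h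
    refine h.congr fun i => ?_
    rw [Fin.sum_univ_succ]
    simp only [Fin.cons_zero, Fin.cons_succ]
    rw [← hQ, neg_smul, one_smul, neg_add_eq_sub]
  rw [← hz] at hκ
  -- the lower bound of the distance
  obtain ⟨L, hL⟩ : ∃ L : Finset (Alg M) × ℕ → ℝ, ∀ i,
      L i = max (e - n2 ntr (P i a₀ - Y i x) - n2 ntr (Q i a₀ - Y' i x)) 0 := ⟨_, fun _ => rfl⟩
  have hLlim : Tendsto L atTop (𝓝 (max (e - n2 t (z a₀ - x) - n2 t (z a₀ - x)) 0)) := by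
    have h := ((tendsto_const_nhds (x := e)).sub hPx).sub hQx
    exact (h.max tendsto_const_nhds).congr fun i => (hL i).symm
  have hLle : ∀ i, L i ≤ n2 ntr (P i a₀ - Q i a₀) := by
    intro i
    rw [hL]
    refine max_le ?_ (n2_nonneg _ _)
    have h1 := he i
    have h2 : n2 ntr (Y i x - Y' i x) ≤ n2 ntr (P i a₀ - Y i x) + n2 ntr (P i a₀ - Q i a₀) +
        n2 ntr (Q i a₀ - Y' i x) := by
      have e1 : Y i x - Y' i x = (Y i x - P i a₀) + (P i a₀ - Q i a₀) + (Q i a₀ - Y' i x) := by abel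
      rw [e1]
      refine ((htr i).n2_add_le _ _).trans (add_le_add (((htr i).n2_add_le _ _).trans ?_) le_rfl)
      rw [(htr i).n2_sub_comm (Y i x) (P i a₀)]
    linarith
  have hup : ∀ i, ∑ a ∈ G, ((n2 ntr (P i a) ^ 2 + n2 ntr (Q i a) ^ 2) / 2 -
      n2 ntr (P i a - Q i a) ^ 2 / 4) ≤
      ∑ a ∈ G, (n2 ntr (P i a) ^ 2 + n2 ntr (Q i a) ^ 2) / 2 - L i ^ 2 / 4 := by
    intro i
    rw [Finset.sum_sub_distrib]
    have h1 : n2 ntr (P i a₀ - Q i a₀) ^ 2 / 4 ≤ ∑ a ∈ G, n2 ntr (P i a - Q i a) ^ 2 / 4 :=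
      Finset.single_le_sum (f := fun a => n2 ntr (P i a - Q i a) ^ 2 / 4)
        (fun a _ => by positivity) ha₀
    have hL0 : 0 ≤ L i := by
      rw [hL]
      exact le_max_right _ _
    have h2 : L i ^ 2 ≤ n2 ntr (P i a₀ - Q i a₀) ^ 2 := pow_le_pow_left₀ hL0 (hLle i) 2
    linarith
  have hlim : Tendsto (fun i => ∑ a ∈ G, (n2 ntr (P i a) ^ 2 + n2 ntr (Q i a) ^ 2) / 2 - L i ^ 2 / 4)
      atTop (𝓝 (∑ a ∈ G, (n2 t (z a) ^ 2 + n2 t (z a) ^ 2) / 2 -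
        (max (e - n2 t (z a₀ - x) - n2 t (z a₀ - x)) 0) ^ 2 / 4)) := by
    refine Tendsto.sub ?_ ((hLlim.pow 2).div_const 4)
    exact tendsto_finsetSum _ fun a _ => (((hPlim a).pow 2).add ((hQlim a).pow 2)).div_const 2
  have hlt : ∑ a ∈ G, (n2 t (z a) ^ 2 + n2 t (z a) ^ 2) / 2 -
        (max (e - n2 t (z a₀ - x) - n2 t (z a₀ - x)) 0) ^ 2 / 4 < c := by
    refine lt_of_le_of_lt ?_ hc
    have h1 : ∑ a ∈ G, (n2 t (z a) ^ 2 + n2 t (z a) ^ 2) / 2 =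
        ∑ a ∈ G, n2 t ((N : ℂ)⁻¹ • ∑ j, θ j a) ^ 2 := by
      refine Finset.sum_congr rfl fun a _ => ?_
      rw [← hz]
      ring
    have h2 : (e - 2 * κ) ^ 2 ≤ (max (e - n2 t (z a₀ - x) - n2 t (z a₀ - x)) 0) ^ 2 := by
      refine pow_le_pow_left₀ (by linarith) ?_ 2
      refine le_trans ?_ (le_max_left _ _)
      linarith
    rw [h1]
    linarith
  filter_upwards [hlim.eventually (gt_mem_nhds hlt)] with i hi
  rw [hpot i]
  exact (hup i).trans_lt hi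

end Pool.Agent.QFD
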