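import Pool.Agent.QFD.M2b
import Pool.Agent.QFD.M3b

/-!
# [QFD-M3] The new family of microstates

Notation: `z a = N⁻¹ ∑ j, θ j a : Alg M`. Take `ν, Y, Y'` from `exists_pairs` for `hsep`; all limits are along `atTop` on `Finset (Alg M) × ℕ`. `tendsto_words` gives the convergence of the moments of `Y` and `Y'`.
Put `Z i j a = Y i (θ j a)` and `Z' i j a = if a ∈ B then Y i (θ j a) else Y' i (θ j a)`.

`mom_Z` [M3a]: `wordEval (Z i j) w = wordEval (Y i) (w.map fun p => (θ j p.1, p.2))` (`A2y_word`), and `t (wordEval id (w.map ..)) = t (θ j (wordEval id w)) = τ (wordEval id w)` (`map_wordEval`, `hθ`). For `Z'`: for fixed `w` the letters of `w`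
satisfy eventually `n2 ntr (Z' i j a - Y' i (θ j a)) ≤ 1 / (i.2 + 1)` (`a ∈ B`: `Y i (θ j a) - Y' i (θ j a)`, `θ j a ∈ S`, eventually `θ j a ∈ i.1`; otherwise the difference is `0`), and the norms are at most `‖a‖ ≤ R`;
`TrAlg.word_close` (QFP/B3.lean) gives `‖ntr (wordEval (Z' i j) w) - ntr (wordEval (fun a => Y' i (θ j a)) w)‖ ≤ w.length R^w.length / (i.2 + 1) → 0`.

`pot_Z` [M3b]: let `p i a = N⁻¹ ∑ j, Y i (θ j a)`, `q i a = N⁻¹ ∑ j, Y' i (θ j a)`. For `a ∈ G`: `Z' i j a = Y' i (θ j a)`: if `a ∈ B` then `a = 0` (`Perp` with `b = star a`, faithful), `θ j a = 0`, `‖Y i 0‖ ≤ 0`, both are `0`.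
So the average of the family is `(1/2) • (p i a + q i a)`, `n2 ((1/2) (p + q))^2 = (n2 p ^2 + n2 q ^2)/2 - n2 (p - q)^2/4` (`TrAlg.parallelogram`, `TrAlg.n2_smul`). `n2 (p i a) → n2 t (z a)`, `n2 (q i a) → n2 t (z a)` (`tendsto_comb`).
`n2 (p i a₀ - Y i x) → n2 t (z a₀ - x) ≤ κ` (`tendsto_comb` with `N + 1` letters, or `Fin.cons`), the same for `q`, `Y'`; so for every `η > 0` eventually `n2 (p i a₀ - q i a₀) ≥ e - 2 κ - 2 η`.
Hence eventually the potential is at most `∑ a ∈ G, n2 t (z a)^2 - (e - 2 κ)^2/4 + η'`, for every `η' > 0` (`0 ≤ e - 2 κ`).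

`fam_new` [M3c]: given `F, m, ε` choose `i` so large that all words of length at most `m` over `F` have moments within `ε` for all `Z i j`, `Z' i j` (finitely many words; `Filter.eventually_all_finite`, `Filter.eventually_all`), and the potential is less than `c`.
The family is indexed by `Fin (N + N)` (`Fin.append`-like: `Fin.addCases (Z i) (Z' i)`, `Fin.sum_univ_add`). Agreement on `B`: for `b ∈ B` both are `Y i (θ j b)`, `θ j b = θ j' b`. Norms: `‖Y i (θ j a)‖ ≤ ‖θ j a‖ ≤ ‖a‖`.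
-/

set_option autoImplicit false

namespace Pool.Agent.QFD

open Pool.Agent.QFP
open scoped InnerProductSpace Matrix.Norms.L2Operator
open Filter Topology

universe u v

variable {H : Type u} [NormedAddCommGroup H] [InnerProductSpace ℂ H] [CompleteSpace H]
  {A B : VonNeumannAlgebra H} {τ : Alg A →ₗ[ℂ] ℂ}
  {K : Type v} [NormedAddCommGroup K] [InnerProductSpace ℂ K] [CompleteSpace K]
  {M : VonNeumannAlgebra K} {t : Alg M →ₗ[ℂ] ℂ}

/-- [M3c] -/
theorem fam_new (hτ : IsTrace A τ) (ht : IsTrace M t) {N : ℕ} (hN : 0 < N) (θ : Fin N → Alg A →⋆ₐ[ℂ] Alg M)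
    (hθ : ∀ j a, t (θ j a) = τ a) (hag : ∀ j j' (b : Alg A), (b : H →L[ℂ] H) ∈ B → θ j b = θ j' b)
    (G : Finset (Alg A)) (hG : ∀ a ∈ G, Perp A B τ a) {a₀ : Alg A} (ha₀ : a₀ ∈ G)
    {x : Alg M} {e κ : ℝ} (hsep : SepBy M t {y | ∃ b : Alg A, (b : H →L[ℂ] H) ∈ B ∧ ∃ j, y = θ j b} x e)
    (hκ : n2 t ((N : ℂ)⁻¹ • ∑ j, θ j a₀ - x) ≤ κ) (hκe : 2 * κ ≤ e) {c : ℝ}
    (hc : ∑ a ∈ G, n2 t ((N : ℂ)⁻¹ • ∑ j, θ j a) ^ 2 - (e - 2 * κ) ^ 2 / 4 < c) : Fam A B τ G c := by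
  classical
  intro F m ε hε
  obtain ⟨ν, Y, Y', hν, hY, hY', hYB, hYx⟩ := exists_pairs hsep
  have hB : ∀ (j : Fin N) (i : Finset (Alg M) × ℕ), ∀ b : Alg A, (b : H →L[ℂ] H) ∈ B →
      θ j b ∈ i.1 → n2 ntr (Y i (θ j b) - Y' i (θ j b)) < 1 / ((i.2 : ℝ) + 1) :=
    fun j i b hb hbi => hYB i _ hbi ⟨b, hb, j, rfl⟩
  have hmom : ∀ᶠ i in atTop, ∀ w ∈ {w : List (Alg A × Bool) | (∀ p ∈ w, p.1 ∈ F) ∧ w.length ≤ m},
      ∀ j : Fin N, ‖ntr (wordEval (fun a => Y i (θ j a)) w) - τ (wordEval id w)‖ < ε ∧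
        ‖ntr (wordEval (Zp B (Y i) (Y' i) (θ j)) w) - τ (wordEval id w)‖ < ε := by
    refine (eventually_all_finite (words_finite F m)).2 fun w _ => eventually_all.2 fun j => ?_
    filter_upwards [Metric.tendsto_nhds.1 (mom_Z hY (θ j) (hθ j) w) ε hε,
      Metric.tendsto_nhds.1 (mom_Zp hν hY hY' (θ j) (hθ j) (hB j) w) ε hε] with i h1 h2
    rw [dist_eq_norm] at h1 h2
    exact ⟨h1, h2⟩
  obtain ⟨i, hi1, hi2⟩ := (hmom.and (pot_Z hτ ht hN θ hθ G hG ha₀ hν hY hY' hYx hκ hκe hc)).exists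
  let X : Fin (N + N) → Alg A → Mt (ν i) :=
    Fin.addCases (fun j a => Y i (θ j a)) (fun j => Zp B (Y i) (Y' i) (θ j))
  have hXl : ∀ j, X (Fin.castAdd N j) = fun a => Y i (θ j a) := fun j => Fin.addCases_left j
  have hXr : ∀ j, X (Fin.natAdd N j) = Zp B (Y i) (Y' i) (θ j) := fun j => Fin.addCases_right j
  refine ⟨ν i, hν i, N + N, by omega, X, ?_, ?_, ?_⟩
  · intro s
    refine Fin.addCases (motive := fun s => Mic A τ F m ε (X s)) (fun j => ?_) (fun j => ?_) s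
    · rw [hXl]
      exact ⟨fun a => norm_comp_le (hY i) (θ j) a, fun w hw hl => (hi1 w ⟨hw, hl⟩ j).1⟩
    · rw [hXr]
      refine ⟨fun a => ?_, fun w hw hl => (hi1 w ⟨hw, hl⟩ j).2⟩
      by_cases hb : (a : H →L[ℂ] H) ∈ B
      · have e1 : Zp B (Y i) (Y' i) (θ j) a = Y i (θ j a) := if_pos hb
        rw [e1]
        exact norm_comp_le (hY i) (θ j) a
      · have e1 : Zp B (Y i) (Y' i) (θ j) a = Y' i (θ j a) := if_neg hb
        rw [e1]
        exact norm_comp_le (hY' i) (θ j) a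
  · have hag' : ∀ s, ∀ b : Alg A, (b : H →L[ℂ] H) ∈ B → X s b = Y i (θ ⟨0, hN⟩ b) := by
      intro s b hb
      refine Fin.addCases (motive := fun s => X s b = Y i (θ ⟨0, hN⟩ b)) (fun j => ?_)
        (fun j => ?_) s
      · rw [hXl]
        show Y i (θ j b) = _
        rw [hag j ⟨0, hN⟩ b hb]
      · have e1 : Zp B (Y i) (Y' i) (θ j) b = Y i (θ j b) := if_pos hb
        rw [hXr, e1, hag j ⟨0, hN⟩ b hb]
    intro s s' b _ hb
    rw [hag' s b hb, hag' s' b hb]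
  · unfold pot
    refine lt_of_eq_of_lt (Finset.sum_congr rfl fun a _ => ?_) hi2
    rw [Fin.sum_univ_add]
    simp only [hXl, hXr]

end Pool.Agent.QFD
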