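import Pool.Agent.QFD.Defs

/-!
# [QFD-M4] Inner averaging from families of microstates; the infimum of the potentials

`innerAveraging_of_fam` [M4a]: given `F, m, ε` let `G` be the set of the `a ∈ F` with `Perp A B τ a` (classical filter) and take the family `X` from `Fam A B τ G (ε ^ 2)` for `F, m, ε`: `n2 ntr (n⁻¹ ∑ s, X s a)^2 ≤ pot G X < ε ^ 2` for `a ∈ G`.
Now exactly as in the proof of `innerAveraging_of_homs` (QFP/A2y.lean), with `x a s = X s a` instead of `Z (π s a)`: `exists_blockDiag`, `shift_avg`, `exists_fin`; moments: `A2y_avg`.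

`fam_of_step` [M4b]: let `S = {c | 0 < c ∧ Fam A B τ G c}`. `S` is not empty: `c = ∑ a ∈ G, ‖a‖ ^ 2 + 1`: microstates from `hA` (`n = 1`): `n2 ntr (X a) ≤ ‖X a‖ ≤ ‖a‖`. `Fam` is monotone in `c`. Let `c₀ = sInf S ≥ 0`. For `c > c₀` we have `Fam c`. If `c₀ > 0`, `hstep` gives
`c < c₀` with `Fam c`; `0 < c` since `pot ≥ 0` (apply `Fam c` to `∅, 0, 1`), so `c ∈ S`, contradiction. So `c₀ = 0`.
-/

set_option autoImplicit false

namespace Pool.Agent.QFD

open Pool.Agent.QFP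
open scoped InnerProductSpace Matrix.Norms.L2Operator
open Filter Topology

universe u

variable {H : Type u} [NormedAddCommGroup H] [InnerProductSpace ℂ H] [CompleteSpace H]
  {A B : VonNeumannAlgebra H} {τ : Alg A →ₗ[ℂ] ℂ}

/-- [M4a] -/
theorem innerAveraging_of_fam (h : ∀ G : Finset (Alg A), (∀ a ∈ G, Perp A B τ a) → ∀ c : ℝ, 0 < c → Fam A B τ G c) :
    InnerAveraging A B τ := by
  classical
  intro F m ε hε
  obtain ⟨ν, hν, n, hn, X0, hmic, hag, hpot⟩ := h (F.filter fun a => Perp A B τ a)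
    (fun a ha => (Finset.mem_filter.1 ha).2) (ε ^ 2) (by positivity) F m ε hε
  haveI : Nonempty (Fin ν) := ⟨⟨0, hν⟩⟩
  haveI : Nonempty (Fin n) := ⟨⟨0, hn⟩⟩
  obtain ⟨Ψ, hΨ1, hΨ2⟩ := exists_blockDiag n hn (Fin ν)
  obtain ⟨v, hv1, hv2, hv3⟩ := shift_avg n hn (Fin ν)
  obtain ⟨ν', hν', Ψ', hΨ'⟩ := exists_fin (Fin ν × Fin n)
  haveI : Nonempty (Fin ν') := ⟨⟨0, hν'⟩⟩
  let x : Alg A → Fin n → Matrix (Fin ν) (Fin ν) ℂ := fun a s => X0 s a
  have hn2' : ∀ y, n2 ntr (Ψ' y) = n2 ntr y := by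
    intro y
    unfold n2
    rw [← map_star, ← map_mul, hΨ']
  refine ⟨ν', hν', fun a => Ψ' (Ψ (x a)), n, hn, fun s => Ψ' (v s), ?_, ?_, ?_, ?_, ?_⟩
  · -- norms
    intro a
    refine le_trans (NonUnitalStarAlgHom.norm_apply_le Ψ' _) ?_
    refine le_trans (NonUnitalStarAlgHom.norm_apply_le Ψ _) ?_
    exact (pi_norm_le_iff_of_nonneg (norm_nonneg _)).2 fun s => (hmic s).norm a
  · -- moments
    intro w hw hwm
    have e1 : wordEval (fun a => Ψ' (Ψ (x a))) w = Ψ' (Ψ (wordEval x w)) := by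
      rw [map_wordEval, map_wordEval]
    rw [e1, hΨ', hΨ2, tpi_apply]
    have e2 : (n : ℂ)⁻¹ * ∑ s, ntr (wordEval x w s) - τ (wordEval id w) =
        (n : ℂ)⁻¹ * ∑ s, (ntr (wordEval x w s) - τ (wordEval id w)) := by
      have hn' : (n : ℂ) ≠ 0 := by exact_mod_cast hn.ne'
      rw [Finset.sum_sub_distrib, mul_sub, Finset.sum_const, Finset.card_univ, Fintype.card_fin,
        nsmul_eq_mul, inv_mul_cancel_left₀ hn']
    rw [e2]
    refine A2y_avg hn _ ε fun s => ?_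
    have e4 : wordEval x w s = wordEval (X0 s) w := wordEval_pi n x w s
    rw [e4]
    exact (hmic s).mom w hw hwm
  · intro s
    constructor
    · rw [← map_star, ← map_mul, (hv1 s).1, map_one]
    · rw [← map_star, ← map_mul, (hv1 s).2, map_one]
  · intro s b hbF hbB
    have e1 : x b = fun _ => X0 ⟨0, hn⟩ b := by
      funext s'
      exact hag s' ⟨0, hn⟩ b hbF hbB
    change Ψ' (v s) * Ψ' (Ψ (x b)) = Ψ' (Ψ (x b)) * Ψ' (v s)
    rw [← map_mul, ← map_mul, e1, hΨ1, hv2]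
  · intro a haF haP
    have e1 : (n : ℂ)⁻¹ • ∑ s, Ψ' (v s) * Ψ' (Ψ (x a)) * star (Ψ' (v s)) =
        Ψ' ((n : ℂ)⁻¹ • ∑ s, v s * Matrix.blockDiagonal (x a) * star (v s)) := by
      rw [map_smul, map_sum]
      congr 1
      refine Finset.sum_congr rfl fun s _ => ?_
      rw [map_mul, map_mul, map_star, hΨ1]
    change n2 ntr ((n : ℂ)⁻¹ • ∑ s, Ψ' (v s) * Ψ' (Ψ (x a)) * star (Ψ' (v s))) < ε
    rw [e1, hn2', hv3]
    have h1 : n2 ntr ((n : ℂ)⁻¹ • ∑ s, X0 s a) ^ 2 ≤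
        pot (F.filter fun a => Perp A B τ a) X0 :=
      Finset.single_le_sum (f := fun a => n2 ntr ((n : ℂ)⁻¹ • ∑ s, X0 s a) ^ 2)
        (fun a _ => sq_nonneg _) (Finset.mem_filter.2 ⟨haF, haP⟩)
    exact lt_of_pow_lt_pow_left₀ 2 hε.le (h1.trans_lt hpot)

end Pool.Agent.QFD
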