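import Pool.Agent.QFD.Defs

/-!
# [QFD-M4] Inner averaging from families of microstates; the infimum of the potentials

`innerAveraging_of_fam` [M4a]: given `F, m, ε` let `G` be the set of the `a ∈ F` with `Perp A B τ a` (classical filter) and take the family `X` from `Fam A B τ G (ε ^ 2)` for `F, m, ε`: `n2 ntr (n⁻¹ ∑ s, X s a)^2 ≤ pot G X < ε ^ 2` for `a ∈ G`.
Now exactly as in the proof of `innerAveraging_of_homs` (QFP/A2y.lean), with `x a s = X s a` instead of `Z (π s a)`: `exists_blockDiag`, `shift_avg`, `exists_fin`; moments: `A2y_avg`.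

`fam_of_step` [M4b]: let `S = {c | 0 < c ∧ Fam A B τ G c}`. `S` is not empty: `c = ∑ a ∈ G, ‖a‖ ^ 2 + 1`: microstates from `hA` (`n = 1`): `n2 ntr (X a) ≤ ‖X a‖ ≤ ‖a‖`. `Fam` is monotone in `c`. Let `c₀ = sInf S ≥ 0`. For `c > c₀` we have `Fam c`. If `c₀ > 0`, `hstep` gives
`c < c₀` with `Fam c`; `0 < c` since `pot ≥ 0` (apply `Fam c` to `∅, 0, 1`), so `c ∈ S`, contradiction. So `c₀ = 0`.
-/

set_option autoImplicit false

namespace Pool.Agent.QFD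

open Pool.Agent.QFP
open scoped InnerProductSpace Matrix.Norms.L2Operator
open Filter Topology

universe u

variable {H : Type u} [NormedAddCommGroup H] [InnerProductSpace ℂ H] [CompleteSpace H]
  {A B : VonNeumannAlgebra H} {τ : Alg A →ₗ[ℂ] ℂ}

theorem Fam.mono {G : Finset (Alg A)} {c c' : ℝ} (h : Fam A B τ G c) (hc : c ≤ c') : Fam A B τ G c' := by
  intro F m ε hε
  obtain ⟨ν, hν, n, hn, X, h1, h2, h3⟩ := h F m ε hε
  exact ⟨ν, hν, n, hn, X, h1, h2, h3.trans_le hc⟩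

theorem fam_pos {G : Finset (Alg A)} {c : ℝ} (h : Fam A B τ G c) : 0 < c := by
  obtain ⟨ν, hν, n, hn, X, h1, h2, h3⟩ := h ∅ 0 1 one_pos
  refine lt_of_le_of_lt ?_ h3
  exact Finset.sum_nonneg fun a _ => sq_nonneg _

/-- [M4b] -/
theorem fam_of_step (hA : ConnesEmb A τ) (G : Finset (Alg A))
    (hstep : ∀ c₀ : ℝ, 0 < c₀ → (∀ c, c₀ < c → Fam A B τ G c) → ∃ c, c < c₀ ∧ Fam A B τ G c) :
    ∀ c : ℝ, 0 < c → Fam A B τ G c := by
  obtain ⟨S, hS⟩ : ∃ S : Set ℝ, S = {c | Fam A B τ G c} := ⟨_, rfl⟩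
  have hmem : ∀ c, c ∈ S ↔ Fam A B τ G c := fun c => by rw [hS]; rfl
  have hne : S.Nonempty := by
    refine ⟨∑ a ∈ G, ‖(a : H →L[ℂ] H)‖ ^ 2 + 1, (hmem _).2 fun F m ε hε => ?_⟩
    obtain ⟨ν, hν, X, h1, h2⟩ := hA F m ε hε
    have : Nonempty (Fin ν) := ⟨⟨0, hν⟩⟩
    refine ⟨ν, hν, 1, one_pos, fun _ => X, fun _ => ⟨h1, h2⟩, fun _ _ _ _ _ => rfl, ?_⟩
    unfold pot
    refine lt_of_le_of_lt (Finset.sum_le_sum fun a _ => ?_) (lt_add_one _)
    have e1 : (((1 : ℕ) : ℂ))⁻¹ • ∑ _s : Fin 1, X a = X a := by simp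
    rw [e1]
    exact pow_le_pow_left₀ (n2_nonneg _ _) ((ntr_trAlg.n2_le_norm _).trans (h1 a)) 2
  have hbdd : BddBelow S := ⟨0, fun c hc => (fam_pos ((hmem c).1 hc)).le⟩
  have hlt : ∀ c, sInf S < c → Fam A B τ G c := by
    intro c hc
    obtain ⟨c', hc', hcc⟩ := exists_lt_of_csInf_lt hne hc
    exact ((hmem _).1 hc').mono hcc.le
  have h0 : sInf S ≤ 0 := by
    by_contra hcon
    push Not at hcon
    obtain ⟨c, hc, hFc⟩ := hstep (sInf S) hcon hlt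
    exact absurd (csInf_le hbdd ((hmem c).2 hFc)) (not_le.2 hc)
  exact fun c hc => hlt c (h0.trans_lt hc)

end Pool.Agent.QFD
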