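import Pool.Agent.QFD.V2b
import Pool.Agent.QFD.E2a
import Pool.Agent.QFD.E2b
import Pool.Agent.QFD.M1
import Pool.Agent.QFD.M3c

/-!
# [QFD-M5] A minimising net of families of microstates

The matrix ultraproduct along a net of families of microstates whose potentials tend to the infimum `c₀`.
-/

set_option autoImplicit false

namespace Pool.Agent.QFD

open Pool.Agent.QFP
open scoped InnerProductSpace Matrix.Norms.L2Operator
open Filter Topology

universe u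

variable {H : Type u} [NormedAddCommGroup H] [InnerProductSpace ℂ H] [CompleteSpace H]
  {A B : VonNeumannAlgebra H} {τ : Alg A →ₗ[ℂ] ℂ} {G : Finset (Alg A)} {c₀ : ℝ}

/-- a minimising net of families -/
structure Dat (A B : VonNeumannAlgebra H) (τ : Alg A →ₗ[ℂ] ℂ) (G : Finset (Alg A)) (c₀ : ℝ) where
  ν : Finset (Alg A) × ℕ → ℕ
  n : Finset (Alg A) × ℕ → ℕ
  X : ∀ i, Fin (n i) → Alg A → Mt (ν i)
  hν : ∀ i, 0 < ν i
  hn : ∀ i, 0 < n i
  mic : ∀ (i : Finset (Alg A) × ℕ) (s), Mic A τ i.1 i.2 (1 / ((i.2 : ℝ) + 1)) (X i s)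
  agree : ∀ (i : Finset (Alg A) × ℕ) (s s'), ∀ b ∈ i.1, (b : H →L[ℂ] H) ∈ B → X i s b = X i s' b
  pot_lt : ∀ i : Finset (Alg A) × ℕ, pot G (X i) < c₀ + 1 / ((i.2 : ℝ) + 1)

theorem exists_dat (h : ∀ c, c₀ < c → Fam A B τ G c) : Nonempty (Dat A B τ G c₀) := by
  have h' := fun i : Finset (Alg A) × ℕ => h (c₀ + 1 / ((i.2 : ℝ) + 1))
    (lt_add_of_pos_right _ (by positivity)) i.1 i.2 (1 / ((i.2 : ℝ) + 1)) (by positivity)
  choose ν hν n hn X h1 h2 h3 using h'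
  exact ⟨⟨ν, n, X, hν, hn, h1, h2, h3⟩⟩

instance Dat.neZero (D : Dat A B τ G c₀) (i : Finset (Alg A) × ℕ) : NeZero (D.ν i) := ⟨(D.hν i).ne'⟩

theorem Mic.mono {F F' : Finset (Alg A)} {m m' : ℕ} {ε ε' : ℝ} {ν : ℕ} {X : Alg A → Mt ν}
    (h : Mic A τ F m ε X) (hF : F' ⊆ F) (hm : m' ≤ m) (hε : ε ≤ ε') : Mic A τ F' m' ε' X :=
  ⟨h.norm, fun w hw hl => (h.mom w (fun p hp => hF (hw p hp)) (hl.trans hm)).trans_le hε⟩

section
variable {ω : Ultrafilter (Finset (Alg A) × ℕ)} (hω : (ω : Filter (Finset (Alg A) × ℕ)) ≤ atTop)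
  (D : Dat A B τ G c₀) (U : UM ω D.ν)

theorem Dat.bdd (σ : ∀ i, Fin (D.n i)) (a : Alg A) : Bdd (fun i => D.X i (σ i) a) :=
  ⟨‖(a : H →L[ℂ] H)‖, fun i => (D.mic i (σ i)).norm a⟩

/-- the average -/
noncomputable def Dat.avg (a : Alg A) (i : Finset (Alg A) × ℕ) : Mt (D.ν i) :=
  (D.n i : ℂ)⁻¹ • ∑ s, D.X i s a

theorem norm_avg_le {n ν : ℕ} (hn : 0 < n) {x : Fin n → Mt ν} {r : ℝ} (h : ∀ s, ‖x s‖ ≤ r) :
    ‖(n : ℂ)⁻¹ • ∑ s, x s‖ ≤ r := by
  have hn' : (0 : ℝ) < n := by exact_mod_cast hn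
  rw [norm_smul, norm_inv, Complex.norm_natCast]
  have h1 : ‖∑ s, x s‖ ≤ n * r := by
    refine (norm_sum_le _ _).trans ?_
    refine (Finset.sum_le_sum fun s _ => h s).trans ?_
    simp
  calc (n : ℝ)⁻¹ * ‖∑ s, x s‖ ≤ (n : ℝ)⁻¹ * (n * r) := by gcongr
    _ = r := by field_simp

theorem Dat.bdd_avg (a : Alg A) : Bdd (D.avg a) :=
  ⟨‖(a : H →L[ℂ] H)‖, fun i => norm_avg_le (D.hn i) fun s => (D.mic i s).norm a⟩

include hω

theorem Dat.hom (σ : ∀ i, Fin (D.n i)) : ∃ θ : Alg A →⋆ₐ[ℂ] Alg U.M.N,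
    (∀ a, θ a = el U (fun i => D.X i (σ i) a)) ∧ ∀ a, stLin U.M (θ a) = τ a :=
  exists_hom U (fun i => D.X i (σ i)) (fun i a => (D.mic i (σ i)).norm a)
    (fun w => (tendsto_words (fun i => D.X i (σ i)) (fun i => D.mic i (σ i)) w).mono_left hω)

theorem mem_eventually (a : Alg A) : ∀ᶠ i : Finset (Alg A) × ℕ in ω, a ∈ i.1 := by
  classical
  have h : ∀ᶠ i : Finset (Alg A) × ℕ in atTop, a ∈ i.1 := by
    filter_upwards [eventually_ge_atTop (({a} : Finset (Alg A)), 0)] with i hi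
    exact hi.1 (Finset.mem_singleton_self a)
  exact hω h

theorem Dat.el_agree (σ σ' : ∀ i, Fin (D.n i)) {b : Alg A} (hb : (b : H →L[ℂ] H) ∈ B) :
    el U (fun i => D.X i (σ i) b) = el U (fun i => D.X i (σ' i) b) := by
  refine el_congr U (D.bdd σ b) (D.bdd σ' b) ?_
  refine (tendsto_const_nhds (x := (0 : ℝ))).congr' ?_
  filter_upwards [mem_eventually hω b] with i hi
  have : Nonempty (Fin (D.ν i)) := ⟨⟨0, D.hν i⟩⟩
  rw [D.agree i (σ i) (σ' i) b hi hb, sub_self, ntr_trAlg.n2_zero]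

theorem Dat.perp {a : Alg A} (ha : Perp A B τ a) (σ : ∀ i, Fin (D.n i)) {b : Alg A}
    (hb : (b : H →L[ℂ] H) ∈ B) : stLin U.M (el U (D.avg a) * el U (fun i => D.X i (σ i) b)) = 0 := by
  classical
  rw [← el_mul U (D.bdd_avg a) (D.bdd σ b)]
  refine tendsto_nhds_unique (el_tendsto U ((D.bdd_avg a).mul (D.bdd σ b))) ?_
  have hzero : Tendsto (fun i : Finset (Alg A) × ℕ => 1 / ((i.2 : ℝ) + 1)) ω (𝓝 0) := by
    have h1 : Tendsto (fun i : Finset (Alg A) × ℕ => i.2) ω atTop := by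
      refine tendsto_atTop.2 fun k => hω ?_
      filter_upwards [eventually_ge_atTop ((∅ : Finset (Alg A)), k)] with i hi
      exact hi.2
    exact tendsto_one_div_add_atTop_nhds_zero_nat.comp h1
  refine squeeze_zero_norm' ?_ hzero
  have h2 : ∀ᶠ i : Finset (Alg A) × ℕ in ω, 2 ≤ i.2 := by
    have h : ∀ᶠ i : Finset (Alg A) × ℕ in atTop, 2 ≤ i.2 := by
      filter_upwards [eventually_ge_atTop ((∅ : Finset (Alg A)), 2)] with i hi
      exact hi.2
    exact hω h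
  filter_upwards [mem_eventually hω a, mem_eventually hω b, h2] with i hia hib hi2
  have e1 : ntr (D.avg a i * D.X i (σ i) b) = (D.n i : ℂ)⁻¹ * ∑ s, ntr (D.X i s a * D.X i s b) := by
    unfold Dat.avg
    rw [smul_mul_assoc, map_smul, Finset.sum_mul, map_sum, smul_eq_mul]
    congr 1
    refine Finset.sum_congr rfl fun s _ => ?_
    rw [D.agree i (σ i) s b hib hb]
  rw [e1]
  refine (A2y_avg (D.hn i) _ _ fun s => ?_).le
  have h3 := (D.mic i s).mom [(a, false), (b, false)] (by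
    intro p hp
    simp only [List.mem_cons, List.not_mem_nil, or_false] at hp
    rcases hp with rfl | rfl
    · exact hia
    · exact hib) (by simpa using hi2)
  have h4 : τ (a * b) = 0 := ha b hb
  simpa [wordEval, h4] using h3

omit hω in
theorem Dat.tendsto_pot : Tendsto (fun i => pot G (D.X i)) ω
    (𝓝 (∑ a ∈ G, n2 (stLin U.M) (el U (D.avg a)) ^ 2)) :=
  tendsto_finsetSum _ fun a _ => (el_n2 U (D.bdd_avg a)).pow 2

theorem Dat.fam_of_lim {L c : ℝ} (hL : Tendsto (fun i => pot G (D.X i)) ω (𝓝 L)) (hc : L < c) :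
    Fam A B τ G c := by
  classical
  intro F m ε hε
  obtain ⟨k, hk⟩ := exists_nat_one_div_lt hε
  have h1 : ∀ᶠ i : Finset (Alg A) × ℕ in ω, (F, max m k) ≤ i := hω (eventually_ge_atTop _)
  obtain ⟨i, hi1, hi2⟩ := (h1.and (hL.eventually (gt_mem_nhds hc))).exists
  have hmk : max m k ≤ i.2 := hi1.2
  have hle : 1 / ((i.2 : ℝ) + 1) ≤ ε := by
    refine le_trans ?_ hk.le
    have : (k : ℝ) ≤ i.2 := by exact_mod_cast (le_max_right m k).trans hmk
    gcongr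
  exact ⟨D.ν i, D.hν i, D.n i, D.hn i, D.X i,
    fun s => (D.mic i s).mono hi1.1 ((le_max_left m k).trans hmk) hle,
    fun s s' b hb hbB => D.agree i s s' b (hi1.1 hb) hbB, hi2⟩

end

end Pool.Agent.QFD
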