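import Pool.Agent.QFD.M5
import Pool.Agent.QFD.M4a
import Pool.Agent.QFD.M4b

/-!
# [QFD-M6] The infimum of the potentials is zero if all elements are separated
-/

set_option autoImplicit false

namespace Pool.Agent.QFD

open Pool.Agent.QFP
open scoped InnerProductSpace Matrix.Norms.L2Operator
open Filter Topology

universe u

variable {H : Type u} [NormedAddCommGroup H] [InnerProductSpace ℂ H] [CompleteSpace H]
  {A B : VonNeumannAlgebra H} {τ : Alg A →ₗ[ℂ] ℂ} {G : Finset (Alg A)} {c₀ : ℝ}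

/-- the separation hypothesis -/
def HSep (A B : VonNeumannAlgebra H) (τ : Alg A →ₗ[ℂ] ℂ) : Prop :=
  ∀ (K : Type u) [NormedAddCommGroup K] [InnerProductSpace ℂ K] [CompleteSpace K]
    (M : St.TracialVN K) (θ : Alg A →⋆ₐ[ℂ] Alg M.N), ConnesEmb M.N (stLin M) →
    (∀ a, stLin M (θ a) = τ a) → ∀ x : Alg M.N, x ≠ 0 →
    (∀ b : Alg A, (b : H →L[ℂ] H) ∈ B → stLin M (x * θ b) = 0) →
    ∃ e : ℝ, 0 < e ∧ SepBy M.N (stLin M) {y | ∃ b : Alg A, (b : H →L[ℂ] H) ∈ B ∧ y = θ b} x e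

theorem SepBy.mono {A : VonNeumannAlgebra H} {τ : Alg A →ₗ[ℂ] ℂ} {S S' : Set (Alg A)} {x : Alg A} {e : ℝ}
    (h : SepBy A τ S x e) (hS : S' ⊆ S) : SepBy A τ S' x e := by
  intro F m δ hδ hx
  obtain ⟨ν, hν, X, Y, h1, h2, h3, h4⟩ := h F m δ hδ hx
  exact ⟨ν, hν, X, Y, h1, h2, fun b hb hbS => h3 b hb (hS hbS), h4⟩

theorem step_num {s u v w : ℝ} (hs : 0 < s) (hu : 0 ≤ u) (hw : 0 ≤ w) (h : u ≤ v + w) (hv : 0 ≤ v) :
    u ^ 2 ≤ (1 + s) * v ^ 2 + (1 + 1 / s) * w ^ 2 := by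
  have h1 : u ^ 2 ≤ (v + w) ^ 2 := pow_le_pow_left₀ hu h 2
  have h2 : (v + w) ^ 2 ≤ (1 + s) * v ^ 2 + (1 + 1 / s) * w ^ 2 := by
    have h3 : 0 ≤ (s * v - w) ^ 2 / s := by positivity
    have h4 : (s * v - w) ^ 2 / s = s * v ^ 2 - 2 * v * w + w ^ 2 / s := by
      field_simp
      ring
    have h5 : (1 + 1 / s) * w ^ 2 = w ^ 2 + w ^ 2 / s := by ring
    rw [h5]
    nlinarith
  exact h1.trans h2

theorem step (hτ : IsTrace A τ) (hG : ∀ a ∈ G, Perp A B τ a) (hsep : HSep A B τ) (hc₀ : 0 < c₀)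
    (h : ∀ c, c₀ < c → Fam A B τ G c) : ∃ c, c < c₀ ∧ Fam A B τ G c := by
  classical
  obtain ⟨D⟩ := exists_dat h
  let ω : Ultrafilter (Finset (Alg A) × ℕ) := Ultrafilter.of atTop
  have hω : (ω : Filter (Finset (Alg A) × ℕ)) ≤ atTop := Ultrafilter.of_le _
  obtain ⟨U⟩ := nonempty_UM ω D.ν
  have hM := stLin_isTrace U.M
  have hMt := hM.trAlg
  have hlim := D.tendsto_pot U
  set L : ℝ := ∑ a ∈ G, n2 (stLin U.M) (el U (D.avg a)) ^ 2 with hLdef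
  by_cases hL : L < c₀
  · obtain ⟨c, hc1, hc2⟩ := exists_between hL
    exact ⟨c, hc2, D.fam_of_lim hω hlim hc1⟩
  have hLe : L ≤ c₀ := by
    have h1 : Tendsto (fun i : Finset (Alg A) × ℕ => i.2) ω atTop := by
      refine tendsto_atTop.2 fun k => hω ?_
      filter_upwards [eventually_ge_atTop ((∅ : Finset (Alg A)), k)] with i hi
      exact hi.2
    have h2 : Tendsto (fun i : Finset (Alg A) × ℕ => c₀ + 1 / ((i.2 : ℝ) + 1)) ω (𝓝 (c₀ + 0)) :=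
      (tendsto_one_div_add_atTop_nhds_zero_nat.comp h1).const_add c₀
    rw [add_zero] at h2
    exact le_of_tendsto_of_tendsto hlim h2 (Eventually.of_forall fun i => (D.pot_lt i).le)
  obtain ⟨a₀, ha₀, hy0⟩ : ∃ a₀ ∈ G, el U (D.avg a₀) ≠ 0 := by
    by_contra hcon
    push Not at hcon
    apply hL
    have : L = 0 := by
      rw [hLdef]
      refine Finset.sum_eq_zero fun a ha => ?_
      rw [hcon a ha, hMt.n2_zero]
      norm_num
    rw [this]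
    exact hc₀
  let σ₀ : ∀ i, Fin (D.n i) := fun i => ⟨0, D.hn i⟩
  obtain ⟨θ₀, hθ₀, hθ₀t⟩ := D.hom hω U σ₀
  obtain ⟨e, he, hsx⟩ := hsep U.K U.M θ₀ U.emb hθ₀t (el U (D.avg a₀)) hy0 (fun b hb => by
    rw [hθ₀]; exact D.perp hω U (hG a₀ ha₀) σ₀ hb)
  -- the number of samples
  set R : ℝ := ∑ a ∈ G, ‖(a : H →L[ℂ] H)‖ ^ 2 with hR
  have hR0 : 0 ≤ R := Finset.sum_nonneg fun a _ => by positivity
  set s : ℝ := e ^ 2 / (64 * c₀) with hs
  have hs0 : 0 < s := by positivity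
  obtain ⟨N, hN0, hN1, hN2⟩ : ∃ N : ℕ, 0 < N ∧ 4 * R / N ≤ (e / 4) ^ 2 ∧
      (1 + 1 / s) * (4 * R / N) ≤ e ^ 2 / 64 := by
    obtain ⟨N, hN⟩ := exists_nat_gt (max (4 * R / (e / 4) ^ 2) ((1 + 1 / s) * (4 * R) / (e ^ 2 / 64)))
    have h1 : 4 * R / (e / 4) ^ 2 < N := (le_max_left _ _).trans_lt hN
    have h2 : (1 + 1 / s) * (4 * R) / (e ^ 2 / 64) < N := (le_max_right _ _).trans_lt hN
    have hNp : (0 : ℝ) < N := lt_of_le_of_lt (by positivity) h1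
    refine ⟨N, by exact_mod_cast hNp, ?_, ?_⟩
    · rw [div_le_iff₀ hNp]
      rw [div_lt_iff₀ (by positivity)] at h1
      linarith
    · rw [div_lt_iff₀ (by positivity)] at h2
      rw [← mul_div_assoc, div_le_iff₀ hNp]
      linarith
  have hRb : ∀ (i : Finset (Alg A) × ℕ) (k : Fin (D.n i)), ∑ a ∈ G, n2 ntr (D.X i k a) ^ 2 ≤ R := by
    intro i k
    have : Nonempty (Fin (D.ν i)) := ⟨⟨0, D.hν i⟩⟩
    refine Finset.sum_le_sum fun a _ => ?_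
    exact pow_le_pow_left₀ (n2_nonneg _ _) ((ntr_trAlg.n2_le_norm _).trans ((D.mic i k).norm a)) 2
  have hmau : ∀ i : Finset (Alg A) × ℕ, ∃ σ : Fin N → Fin (D.n i),
      ∑ a ∈ G, n2 ntr ((N : ℂ)⁻¹ • ∑ j, D.X i (σ j) a - D.avg a i) ^ 2 ≤ 4 * R / N := by
    intro i
    have : Nonempty (Fin (D.ν i)) := ⟨⟨0, D.hν i⟩⟩
    exact maurey ntr_trAlg G (D.hn i) (D.X i) R (hRb i) N hN0
  choose σ hσ using hmau
  have hh := fun j : Fin N => D.hom hω U (fun i => σ i j)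
  choose θ hθ hθt using hh
  have hbd : ∀ a, Bdd (fun i => (N : ℂ)⁻¹ • ∑ j, D.X i (σ i j) a) := fun a =>
    (Bdd.sum Finset.univ fun j _ => D.bdd (fun i => σ i j) a).smul _
  have hz : ∀ a, (N : ℂ)⁻¹ • ∑ j, θ j a - el U (D.avg a) =
      el U (fun i => (N : ℂ)⁻¹ • ∑ j, D.X i (σ i j) a - D.avg a i) := by
    intro a
    rw [el_sub U (hbd a) (D.bdd_avg a)]
    congr 1
    rw [el_smul U _ (Bdd.sum Finset.univ fun j _ => D.bdd (fun i => σ i j) a),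
      el_sum U Finset.univ fun j _ => D.bdd (fun i => σ i j) a]
    congr 1
    exact Finset.sum_congr rfl fun j _ => hθ j a
  have hdist : ∑ a ∈ G, n2 (stLin U.M) ((N : ℂ)⁻¹ • ∑ j, θ j a - el U (D.avg a)) ^ 2 ≤ 4 * R / N := by
    have h1 : Tendsto (fun i => ∑ a ∈ G, n2 ntr ((N : ℂ)⁻¹ • ∑ j, D.X i (σ i j) a - D.avg a i) ^ 2) ω
        (𝓝 (∑ a ∈ G, n2 (stLin U.M) ((N : ℂ)⁻¹ • ∑ j, θ j a - el U (D.avg a)) ^ 2)) := by
      refine tendsto_finsetSum _ fun a _ => ?_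
      rw [hz a]
      exact (el_n2 U ((hbd a).sub (D.bdd_avg a))).pow 2
    exact le_of_tendsto h1 (Eventually.of_forall hσ)
  have hκ : n2 (stLin U.M) ((N : ℂ)⁻¹ • ∑ j, θ j a₀ - el U (D.avg a₀)) ≤ e / 4 := by
    have h1 : n2 (stLin U.M) ((N : ℂ)⁻¹ • ∑ j, θ j a₀ - el U (D.avg a₀)) ^ 2 ≤ (e / 4) ^ 2 := by
      refine le_trans ?_ (hdist.trans hN1)
      exact Finset.single_le_sum (f := fun a => n2 (stLin U.M) ((N : ℂ)⁻¹ • ∑ j, θ j a - el U (D.avg a)) ^ 2)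
        (fun a _ => by positivity) ha₀
    exact le_of_sq_le_sq h1 (by positivity)
  have hsum : ∑ a ∈ G, n2 (stLin U.M) ((N : ℂ)⁻¹ • ∑ j, θ j a) ^ 2 ≤ c₀ + e ^ 2 / 32 := by
    have h1 : ∑ a ∈ G, n2 (stLin U.M) ((N : ℂ)⁻¹ • ∑ j, θ j a) ^ 2 ≤
        ∑ a ∈ G, ((1 + s) * n2 (stLin U.M) (el U (D.avg a)) ^ 2 +
          (1 + 1 / s) * n2 (stLin U.M) ((N : ℂ)⁻¹ • ∑ j, θ j a - el U (D.avg a)) ^ 2) := by
      refine Finset.sum_le_sum fun a _ => step_num hs0 (n2_nonneg _ _) (n2_nonneg _ _) ?_ (n2_nonneg _ _)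
      have h2 := hMt.n2_add_le (el U (D.avg a)) ((N : ℂ)⁻¹ • ∑ j, θ j a - el U (D.avg a))
      rwa [add_sub_cancel] at h2
    refine h1.trans ?_
    rw [Finset.sum_add_distrib, ← Finset.mul_sum, ← Finset.mul_sum, ← hLdef]
    have h3 : (1 + 1 / s) * ∑ a ∈ G, n2 (stLin U.M) ((N : ℂ)⁻¹ • ∑ j, θ j a - el U (D.avg a)) ^ 2 ≤
        e ^ 2 / 64 := by
      refine le_trans ?_ hN2
      exact mul_le_mul_of_nonneg_left hdist (by positivity)
    have h4 : (1 + s) * L ≤ (1 + s) * c₀ := mul_le_mul_of_nonneg_left hLe (by positivity)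
    have h5 : s * c₀ = e ^ 2 / 64 := by
      rw [hs]
      field_simp
    nlinarith
  have hag : ∀ j j' (b : Alg A), (b : H →L[ℂ] H) ∈ B → θ j b = θ j' b := by
    intro j j' b hb
    rw [hθ, hθ]
    exact D.el_agree hω U (fun i => σ i j) (fun i => σ i j') hb
  have hsx' : SepBy U.M.N (stLin U.M) {y | ∃ b : Alg A, (b : H →L[ℂ] H) ∈ B ∧ ∃ j, y = θ j b}
      (el U (D.avg a₀)) e := by
    refine hsx.mono ?_
    rintro y ⟨b, hb, j, rfl⟩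
    refine ⟨b, hb, ?_⟩
    rw [hθ, hθ₀]
    exact D.el_agree hω U (fun i => σ i j) σ₀ hb
  obtain ⟨c, hc1, hc2⟩ := exists_between (show
    ∑ a ∈ G, n2 (stLin U.M) ((N : ℂ)⁻¹ • ∑ j, θ j a) ^ 2 - (e - 2 * (e / 4)) ^ 2 / 4 < c₀ by nlinarith)
  exact ⟨c, hc2, fam_new hτ hM hN0 θ hθt hag G hG ha₀ hsx' hκ (by linarith) hc1⟩

/-- Inner averaging holds if all elements orthogonal to `B` of all Connes embeddable extensions are
separated from `B`. -/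
theorem innerAveraging_of_sep (hτ : IsTrace A τ) (hA : ConnesEmb A τ) (hsep : HSep A B τ) :
    InnerAveraging A B τ :=
  innerAveraging_of_fam fun G hG => fam_of_step hA G fun _ hc₀ h => step hτ hG hsep hc₀ h

end Pool.Agent.QFD
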