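import Pool.Agent.QFD.M5
import Pool.Agent.QFD.M4a
import Pool.Agent.QFD.M4b
import Pool.Agent.QFD.C1

/-!
# [QFD-M7] Tools: subalgebras of finite von Neumann algebras, separation by homomorphisms
-/

set_option autoImplicit false

namespace Pool.Agent.QFD

open Pool.Agent.QFP
open scoped InnerProductSpace Matrix.Norms.L2Operator
open Filter Topology

universe u v w

section
variable {K : Type u} [NormedAddCommGroup K] [InnerProductSpace ℂ K] [CompleteSpace K]

/-- the von Neumann algebra generated by a star closed set -/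
def gen (S : Set (K →L[ℂ] K)) (hS : ∀ x ∈ S, star x ∈ S) : VonNeumannAlgebra K where
  carrier := Set.centralizer (Set.centralizer S)
  mul_mem' := (Subalgebra.centralizer ℂ (Set.centralizer S)).mul_mem'
  one_mem' := (Subalgebra.centralizer ℂ (Set.centralizer S)).one_mem'
  add_mem' := (Subalgebra.centralizer ℂ (Set.centralizer S)).add_mem'
  zero_mem' := (Subalgebra.centralizer ℂ (Set.centralizer S)).zero_mem'
  algebraMap_mem' := (Subalgebra.centralizer ℂ (Set.centralizer S)).algebraMap_mem'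
  star_mem' := by
    intro a ha
    refine Set.star_mem_centralizer' (fun b hb => ?_) ha
    exact Set.star_mem_centralizer' hS hb
  centralizer_centralizer' := Set.centralizer_centralizer_centralizer _

theorem gen_coe (S : Set (K →L[ℂ] K)) (hS : ∀ x ∈ S, star x ∈ S) :
    (gen S hS : Set (K →L[ℂ] K)) = Set.centralizer (Set.centralizer S) := rfl

theorem subset_gen {S : Set (K →L[ℂ] K)} {hS : ∀ x ∈ S, star x ∈ S} {x : K →L[ℂ] K} (hx : x ∈ S) :
    x ∈ gen S hS :=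
  Set.subset_centralizer_centralizer hx

theorem gen_le {S : Set (K →L[ℂ] K)} {hS : ∀ x ∈ S, star x ∈ S} (N : VonNeumannAlgebra K)
    (h : ∀ x ∈ S, x ∈ N) : ∀ x ∈ gen S hS, x ∈ N := by
  intro x hx
  have h1 : S ⊆ (N : Set (K →L[ℂ] K)) := h
  have h2 := Set.centralizer_subset (Set.centralizer_subset h1) hx
  rw [N.centralizer_centralizer] at h2
  exact h2

/-- a subalgebra of a finite von Neumann algebra, with the same trace -/
def sub (M : St.TracialVN K) (N₀ : VonNeumannAlgebra K) (h : ∀ x ∈ N₀, x ∈ M.N) :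
    St.TracialVN K where
  N := N₀
  ξ := M.ξ
  summable := M.summable
  map_one := M.map_one
  tracial x hx y hy := M.tracial x (h x hx) y (h y hy)
  faithful x hx := M.faithful x (h x hx)

/-- the inclusion -/
noncomputable def incl {M N₀ : VonNeumannAlgebra K} (h : ∀ x ∈ N₀, x ∈ M) : Alg N₀ →⋆ₐ[ℂ] Alg M :=
  StarSubalgebra.inclusion (S₁ := N₀.toStarSubalgebra) (S₂ := M.toStarSubalgebra) h

theorem incl_coe {M N₀ : VonNeumannAlgebra K} (h : ∀ x ∈ N₀, x ∈ M) (x : Alg N₀) :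
    ((incl h x : Alg M) : K →L[ℂ] K) = (x : K →L[ℂ] K) := rfl

theorem stLin_incl (M : St.TracialVN K) (N₀ : VonNeumannAlgebra K) (h : ∀ x ∈ N₀, x ∈ M.N)
    (x : Alg N₀) : stLin M (incl h x) = stLin (sub M N₀ h) x := rfl

/-- restriction of the codomain -/
noncomputable def restr {A : Type*} [Semiring A] [StarRing A] [Algebra ℂ A] {M : VonNeumannAlgebra K} (N₀ : VonNeumannAlgebra K)
    (θ : A →⋆ₐ[ℂ] Alg M) (h : ∀ a, ((θ a : Alg M) : K →L[ℂ] K) ∈ N₀) : A →⋆ₐ[ℂ] Alg N₀ where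
  toFun a := ⟨((θ a : Alg M) : K →L[ℂ] K), h a⟩
  map_one' := Subtype.ext (congrArg (fun y : Alg M => (y : K →L[ℂ] K)) (map_one θ))
  map_mul' a b := Subtype.ext (congrArg (fun y : Alg M => (y : K →L[ℂ] K)) (map_mul θ a b))
  map_zero' := Subtype.ext (congrArg (fun y : Alg M => (y : K →L[ℂ] K)) (map_zero θ))
  map_add' a b := Subtype.ext (congrArg (fun y : Alg M => (y : K →L[ℂ] K)) (map_add θ a b))
  commutes' z := Subtype.ext (congrArg (fun y : Alg M => (y : K →L[ℂ] K)) (AlgHomClass.commutes θ z))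
  map_star' a := Subtype.ext (congrArg (fun y : Alg M => (y : K →L[ℂ] K)) (map_star θ a))

theorem restr_coe {A : Type*} [Semiring A] [StarRing A] [Algebra ℂ A] {M : VonNeumannAlgebra K} (N₀ : VonNeumannAlgebra K)
    (θ : A →⋆ₐ[ℂ] Alg M) (h : ∀ a, ((θ a : Alg M) : K →L[ℂ] K) ∈ N₀) (a : A) :
    ((restr N₀ θ h a : Alg N₀) : K →L[ℂ] K) = ((θ a : Alg M) : K →L[ℂ] K) := rfl

/-- an element which is approximated by elements of the subalgebra in 2-norm is in the subalgebra -/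
theorem mem_of_approx {M N₀ : VonNeumannAlgebra K} (h : ∀ x ∈ N₀, x ∈ M) {t : Alg M →ₗ[ℂ] ℂ}
    (ht : IsTrace M t) (x : Alg M)
    (hx : ∀ ε : ℝ, 0 < ε → ∃ y : Alg M, (y : K →L[ℂ] K) ∈ N₀ ∧ n2 t (x - y) < ε) :
    (x : K →L[ℂ] K) ∈ N₀ := by
  obtain ⟨b, hb, hp⟩ := exists_condexp h ht x
  obtain ⟨p, hpdef⟩ : ∃ p, p = x - b := ⟨_, rfl⟩
  rw [← hpdef] at hp
  have htr := ht.trAlg
  have hps := Perp.star ht hp
  have h1 : ∀ ε : ℝ, 0 < ε → n2 t p ^ 2 ≤ n2 t p * ε := by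
    intro ε hε
    obtain ⟨y, hy, hyε⟩ := hx ε hε
    have h2 : t (star p * p) = t (star p * (x - y)) := by
      have h3 : t (star p * (y - b)) = 0 := hps (y - b) (sub_mem hy hb)
      have h4 : star p * p = star p * (x - y) + star p * (y - b) := by
        rw [← mul_add]
        congr 1
        rw [hpdef]
        abel
      rw [h4, map_add, h3, add_zero]
    rw [htr.n2_sq, h2]
    refine (Complex.re_le_norm _).trans ((htr.cs p (x - y)).trans ?_)
    exact mul_le_mul_of_nonneg_left hyε.le (n2_nonneg _ _)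
  have h2 : n2 t p = 0 := by
    by_contra hne
    have hpos : 0 < n2 t p := lt_of_le_of_ne (n2_nonneg _ _) (Ne.symm hne)
    have h3 := h1 (n2 t p / 2) (by positivity)
    nlinarith
  have h3 : p = 0 := ht.eq_zero_of_n2 p h2
  rw [h3] at hpdef
  have h4 : x = b := sub_eq_zero.1 hpdef.symm
  rw [h4]
  exact hb

end

section
variable {H : Type u} [NormedAddCommGroup H] [InnerProductSpace ℂ H] [CompleteSpace H]
  {A : VonNeumannAlgebra H} {τ : Alg A →ₗ[ℂ] ℂ}
  {K : Type v} [NormedAddCommGroup K] [InnerProductSpace ℂ K] [CompleteSpace K]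
  {M : VonNeumannAlgebra K} {φ : Alg M →ₗ[ℂ] ℂ}

theorem connesEmb_of_hom (π : Alg A →⋆ₐ[ℂ] Alg M) (hπ : ∀ a, φ (π a) = τ a)
    (hM : ConnesEmb M φ) : ConnesEmb A τ := by
  classical
  intro F m ε hε
  obtain ⟨ν, hν, Z, hZ1, hZ2⟩ := hM (F.image π) m ε hε
  have h := C1.mic π hπ (F := F) (m := m) (δ := ε) (fun a ha => Finset.mem_image_of_mem _ ha) le_rfl
    le_rfl hZ1 hZ2
  exact ⟨ν, hν, fun a => Z (π a), h.norm, h.mom⟩

/-- two homomorphisms into a Connes embeddable algebra which agree on `S` but not at `x` separate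
`x` from `S` -/
theorem sepBy_of_homs (hφ : IsTrace M φ) (hM : ConnesEmb M φ) (ρ ρ' : Alg A →⋆ₐ[ℂ] Alg M)
    (hρ : ∀ a, φ (ρ a) = τ a) (hρ' : ∀ a, φ (ρ' a) = τ a) {S : Set (Alg A)}
    (hS : ∀ b ∈ S, ρ b = ρ' b) {x : Alg A} (hx : ρ x ≠ ρ' x) :
    ∃ e : ℝ, 0 < e ∧ SepBy A τ S x e := by
  classical
  obtain ⟨r, hrdef⟩ : ∃ r, r = n2 φ (ρ x - ρ' x) ^ 2 := ⟨_, rfl⟩
  have hrpos : 0 < r := by
    have h1 : n2 φ (ρ x - ρ' x) ≠ 0 := fun h => hx (sub_eq_zero.1 (hφ.eq_zero_of_n2 _ h))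
    rw [hrdef]
    positivity
  have hr : (φ (star (ρ x - ρ' x) * (ρ x - ρ' x))).re = r := by
    rw [hrdef, hφ.trAlg.n2_sq]
  refine ⟨Real.sqrt (r / 2), Real.sqrt_pos.2 (by positivity), ?_⟩
  intro F m δ hδ hxF
  obtain ⟨ν, hν, Z, hZ1, hZ2⟩ := hM (F.image ρ ∪ F.image ρ') (max m 2) (min δ (r / 8))
    (lt_min hδ (by positivity))
  have hFi : ∀ a ∈ F, ρ a ∈ F.image ρ ∪ F.image ρ' := fun a ha =>
    Finset.mem_union_left _ (Finset.mem_image_of_mem _ ha)
  have hFj : ∀ a ∈ F, ρ' a ∈ F.image ρ ∪ F.image ρ' := fun a ha =>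
    Finset.mem_union_right _ (Finset.mem_image_of_mem _ ha)
  have : Nonempty (Fin ν) := ⟨⟨0, hν⟩⟩
  refine ⟨ν, hν, fun a => Z (ρ a), fun a => Z (ρ' a),
    C1.mic ρ hρ hFi (le_max_left _ _) (min_le_left _ _) hZ1 hZ2,
    C1.mic ρ' hρ' hFj (le_max_left _ _) (min_le_left _ _) hZ1 hZ2, ?_, ?_⟩
  · intro b' _ hb'
    show n2 ntr (Z (ρ b') - Z (ρ' b')) < δ
    rw [hS b' hb', sub_self, ntr_trAlg.n2_zero]
    exact hδ
  · show Real.sqrt (r / 2) ≤ n2 ntr (Z (ρ x) - Z (ρ' x))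
    have hpair : ∀ k l : Alg M, k ∈ F.image ρ ∪ F.image ρ' → l ∈ F.image ρ ∪ F.image ρ' →
        |(ntr (star (Z k) * Z l) - φ (star k * l)).re| < r / 8 := by
      intro k l hk hl
      have h := hZ2 [(k, true), (l, false)] (by
        intro q hq
        simp only [List.mem_cons, List.not_mem_nil, or_false] at hq
        rcases hq with rfl | rfl
        · exact hk
        · exact hl) (by simp)
      have h2 : ‖ntr (star (Z k) * Z l) - φ (star k * l)‖ < min δ (r / 8) := by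
        simpa [wordEval] using h
      exact (Complex.abs_re_le_norm _).trans_lt (h2.trans_le (min_le_right _ _))
    have h1 := hpair _ _ (hFi x hxF) (hFi x hxF)
    have h2 := hpair _ _ (hFi x hxF) (hFj x hxF)
    have h3 := hpair _ _ (hFj x hxF) (hFi x hxF)
    have h4 := hpair _ _ (hFj x hxF) (hFj x hxF)
    rw [C1.expand] at hr
    have h5 : n2 ntr (Z (ρ x) - Z (ρ' x)) ^ 2 =
        (ntr (star (Z (ρ x)) * Z (ρ x)) - ntr (star (Z (ρ x)) * Z (ρ' x)) -
          ntr (star (Z (ρ' x)) * Z (ρ x)) + ntr (star (Z (ρ' x)) * Z (ρ' x))).re := by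
      rw [ntr_trAlg.n2_sq, C1.expand]
    rw [Complex.add_re, Complex.sub_re, Complex.sub_re] at h5 hr
    rw [Complex.sub_re, abs_lt] at h1 h2 h3 h4
    refine Real.sqrt_le_iff.2 ⟨n2_nonneg _ _, ?_⟩
    rw [h5]
    linarith [h1.1, h2.2, h3.2, h4.1]

end

end Pool.Agent.QFD
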