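import Pool.Agent.QFD.M6
import Pool.Agent.QFD.M7

/-!
# [QFD-M8] Obstructions generated by a sequence of copies of `A`
-/

set_option autoImplicit false

namespace Pool.Agent.QFD

open Pool.Agent.QFP
open scoped InnerProductSpace Matrix.Norms.L2Operator
open Filter Topology

universe u v

/-- the data of an obstruction: `M` is generated by the copies `θ n (A)` of `A`, which agree on `B`, and
`x ≠ 0` is in the 2-norm closure of the averages of the `θ n (a)`, where `E_B(a) = 0` -/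
structure Obs {H : Type u} [NormedAddCommGroup H] [InnerProductSpace ℂ H] [CompleteSpace H]
    (A B : VonNeumannAlgebra H) (τ : Alg A →ₗ[ℂ] ℂ)
    {K : Type v} [NormedAddCommGroup K] [InnerProductSpace ℂ K] [CompleteSpace K]
    (M : VonNeumannAlgebra K) (t : Alg M →ₗ[ℂ] ℂ) (θ : ℕ → Alg A →⋆ₐ[ℂ] Alg M) (a : Alg A)
    (x : Alg M) : Prop where
  emb : ConnesEmb M t
  trace_eq : ∀ n a, t (θ n a) = τ a
  agree : ∀ m n (b : Alg A), (b : H →L[ℂ] H) ∈ B → θ m b = θ n b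
  generates : (M : Set (K →L[ℂ] K)) =
    Set.centralizer (Set.centralizer {y | ∃ n c, y = ((θ n c : Alg M) : K →L[ℂ] K)})
  perp : Perp A B τ a
  ne_zero : x ≠ 0
  approx : ∀ ε : ℝ, 0 < ε → ∃ (N : ℕ) (_ : 0 < N) (s : Fin N → ℕ),
    n2 t ((N : ℂ)⁻¹ • ∑ j, θ (s j) a - x) < ε

variable {H : Type u} [NormedAddCommGroup H] [InnerProductSpace ℂ H] [CompleteSpace H]
  {A B : VonNeumannAlgebra H} {τ : Alg A →ₗ[ℂ] ℂ} {G : Finset (Alg A)} {c₀ : ℝ}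

/-- the separation hypothesis for obstructions -/
def HSepN (A B : VonNeumannAlgebra H) (τ : Alg A →ₗ[ℂ] ℂ) : Prop :=
  ∀ (K : Type u) [NormedAddCommGroup K] [InnerProductSpace ℂ K] [CompleteSpace K]
    (M : St.TracialVN K) (θ : ℕ → Alg A →⋆ₐ[ℂ] Alg M.N) (a : Alg A) (x : Alg M.N),
    Obs A B τ M.N (stLin M) θ a x →
    ∃ e : ℝ, 0 < e ∧ SepBy M.N (stLin M) {y | ∃ b : Alg A, (b : H →L[ℂ] H) ∈ B ∧ y = θ 0 b} x e

theorem stepN (hτ : IsTrace A τ) (hG : ∀ a ∈ G, Perp A B τ a) (hsep : HSepN A B τ) (hc₀ : 0 < c₀)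
    (h : ∀ c, c₀ < c → Fam A B τ G c) : ∃ c, c < c₀ ∧ Fam A B τ G c := by
  classical
  obtain ⟨D⟩ := exists_dat h
  let ω : Ultrafilter (Finset (Alg A) × ℕ) := Ultrafilter.of atTop
  have hω : (ω : Filter (Finset (Alg A) × ℕ)) ≤ atTop := Ultrafilter.of_le _
  obtain ⟨U⟩ := nonempty_UM ω D.ν
  have hM := stLin_isTrace U.M
  have hMt := hM.trAlg
  have hlim := D.tendsto_pot U
  set L : ℝ := ∑ a ∈ G, n2 (stLin U.M) (el U (D.avg a)) ^ 2 with hLdef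
  by_cases hL : L < c₀
  · obtain ⟨c, hc1, hc2⟩ := exists_between hL
    exact ⟨c, hc2, D.fam_of_lim hω hlim hc1⟩
  have hLe : L ≤ c₀ := by
    have h1 : Tendsto (fun i : Finset (Alg A) × ℕ => i.2) ω atTop := by
      refine tendsto_atTop.2 fun k => hω ?_
      filter_upwards [eventually_ge_atTop ((∅ : Finset (Alg A)), k)] with i hi
      exact hi.2
    have h2 : Tendsto (fun i : Finset (Alg A) × ℕ => c₀ + 1 / ((i.2 : ℝ) + 1)) ω (𝓝 (c₀ + 0)) :=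
      (tendsto_one_div_add_atTop_nhds_zero_nat.comp h1).const_add c₀
    rw [add_zero] at h2
    exact le_of_tendsto_of_tendsto hlim h2 (Eventually.of_forall fun i => (D.pot_lt i).le)
  obtain ⟨a₀, ha₀, hy0⟩ : ∃ a₀ ∈ G, el U (D.avg a₀) ≠ 0 := by
    by_contra hcon
    push Not at hcon
    apply hL
    have : L = 0 := by
      rw [hLdef]
      refine Finset.sum_eq_zero fun a ha => ?_
      rw [hcon a ha, hMt.n2_zero]
      norm_num
    rw [this]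
    exact hc₀
  -- samples
  obtain ⟨R, hR⟩ : ∃ R : ℝ, R = ∑ a ∈ G, ‖(a : H →L[ℂ] H)‖ ^ 2 := ⟨_, rfl⟩
  have hR0 : 0 ≤ R := by
    rw [hR]
    exact Finset.sum_nonneg fun a _ => by positivity
  have hRb : ∀ (i : Finset (Alg A) × ℕ) (k : Fin (D.n i)), ∑ a ∈ G, n2 ntr (D.X i k a) ^ 2 ≤ R := by
    intro i k
    have : Nonempty (Fin (D.ν i)) := ⟨⟨0, D.hν i⟩⟩
    rw [hR]
    refine Finset.sum_le_sum fun a _ => ?_
    exact pow_le_pow_left₀ (n2_nonneg _ _) ((ntr_trAlg.n2_le_norm _).trans ((D.mic i k).norm a)) 2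
  have hmau : ∀ (N : ℕ) (i : Finset (Alg A) × ℕ), ∃ σ : Fin N → Fin (D.n i), 0 < N →
      ∑ a ∈ G, n2 ntr ((N : ℂ)⁻¹ • ∑ j, D.X i (σ j) a - D.avg a i) ^ 2 ≤ 4 * R / N := by
    intro N i
    have : Nonempty (Fin (D.ν i)) := ⟨⟨0, D.hν i⟩⟩
    by_cases hN : 0 < N
    · obtain ⟨σ, hσ⟩ := maurey ntr_trAlg G (D.hn i) (D.X i) R (hRb i) N hN
      exact ⟨σ, fun _ => hσ⟩
    · exact ⟨fun _ => ⟨0, D.hn i⟩, fun h => absurd h hN⟩
  choose σ hσ using hmau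
  let idx : ℕ → ∀ i, Fin (D.n i) := fun n i =>
    if hlt : (Nat.unpair n).2 < (Nat.unpair n).1 then σ (Nat.unpair n).1 i ⟨_, hlt⟩ else ⟨0, D.hn i⟩
  have hidx : ∀ (N : ℕ) (j : Fin N), idx (Nat.pair N j) = fun i => σ N i j := by
    intro N j
    funext i
    simp only [idx]
    have h1 : (Nat.unpair (Nat.pair N j)).1 = N := by rw [Nat.unpair_pair]
    have h2 : (Nat.unpair (Nat.pair N j)).2 = j := by rw [Nat.unpair_pair]
    have hlt : (Nat.unpair (Nat.pair N j)).2 < (Nat.unpair (Nat.pair N j)).1 := by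
      rw [h1, h2]
      exact j.2
    rw [dif_pos hlt]
    have key : ∀ (N' j' : ℕ) (hlt' : j' < N'), N' = N → j' = j → σ N' i ⟨j', hlt'⟩ = σ N i j := by
      rintro N' j' hlt' rfl rfl
      rfl
    exact key _ _ hlt h1 h2
  have hh := fun n : ℕ => D.hom hω U (idx n)
  choose Θ hΘ hΘt using hh
  have hΘag : ∀ m n (b : Alg A), (b : H →L[ℂ] H) ∈ B → Θ m b = Θ n b := by
    intro m n b hb
    rw [hΘ, hΘ]
    exact D.el_agree hω U _ _ hb
  -- the algebra generated by the copies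
  obtain ⟨S, hSdef⟩ : ∃ S : Set (U.K →L[ℂ] U.K),
    S = {y | ∃ n c, y = ((Θ n c : Alg U.M.N) : U.K →L[ℂ] U.K)} := ⟨_, rfl⟩
  have hSstar : ∀ y ∈ S, star y ∈ S := by
    intro y hy
    rw [hSdef] at hy ⊢
    obtain ⟨n, c, rfl⟩ := hy
    refine ⟨n, star c, ?_⟩
    rw [map_star]
    rfl
  have hΘS : ∀ n c, ((Θ n c : Alg U.M.N) : U.K →L[ℂ] U.K) ∈ S := by
    intro n c
    rw [hSdef]
    exact ⟨n, c, rfl⟩
  have hle : ∀ y ∈ gen S hSstar, y ∈ U.M.N := by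
    refine gen_le U.M.N fun y hy => ?_
    rw [hSdef] at hy
    obtain ⟨n, c, rfl⟩ := hy
    exact (Θ n c).2
  obtain ⟨M₀, hM₀⟩ : ∃ M₀ : St.TracialVN U.K, M₀ = sub U.M (gen S hSstar) hle := ⟨_, rfl⟩
  have hM₀N : M₀.N = gen S hSstar := by rw [hM₀]; rfl
  have hle' : ∀ y ∈ M₀.N, y ∈ U.M.N := by
    intro y hy
    rw [hM₀N] at hy
    exact hle y hy
  have hincl : ∀ y : Alg M₀.N, stLin U.M (incl hle' y) = stLin M₀ y := by
    subst hM₀
    intro y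
    rfl
  have hM₀t := (stLin_isTrace M₀).trAlg
  have hmem : ∀ n c, ((Θ n c : Alg U.M.N) : U.K →L[ℂ] U.K) ∈ M₀.N := by
    intro n c
    rw [hM₀N]
    exact subset_gen (hΘS n c)
  let θ : ℕ → Alg A →⋆ₐ[ℂ] Alg M₀.N := fun n => restr M₀.N (Θ n) (hmem n)
  have hθincl : ∀ n c, incl hle' (θ n c) = Θ n c := fun n c => rfl
  have hn2 : ∀ y : Alg M₀.N, n2 (stLin U.M) (incl hle' y) = n2 (stLin M₀) y :=
    fun y => n2_map (incl hle') hincl y
  -- distances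
  have hbd : ∀ (N : ℕ) (a : Alg A), Bdd (fun i => (N : ℂ)⁻¹ • ∑ j : Fin N, D.X i (σ N i j) a) := fun N a =>
    (Bdd.sum Finset.univ fun j _ => D.bdd (fun i => σ N i j) a).smul _
  have hz : ∀ (N : ℕ) (a : Alg A), (N : ℂ)⁻¹ • ∑ j : Fin N, Θ (Nat.pair N j) a - el U (D.avg a) =
      el U (fun i => (N : ℂ)⁻¹ • ∑ j : Fin N, D.X i (σ N i j) a - D.avg a i) := by
    intro N a
    rw [el_sub U (hbd N a) (D.bdd_avg a)]
    congr 1
    rw [el_smul U _ (Bdd.sum Finset.univ fun j _ => D.bdd (fun i => σ N i j) a),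
      el_sum U Finset.univ fun j _ => D.bdd (fun i => σ N i j) a]
    congr 1
    refine Finset.sum_congr rfl fun j _ => ?_
    rw [hΘ, hidx]
  have hdist : ∀ N : ℕ, 0 < N → ∑ a ∈ G, n2 (stLin U.M)
      ((N : ℂ)⁻¹ • ∑ j : Fin N, Θ (Nat.pair N j) a - el U (D.avg a)) ^ 2 ≤ 4 * R / N := by
    intro N hN
    have h1 : Tendsto (fun i => ∑ a ∈ G, n2 ntr
        ((N : ℂ)⁻¹ • ∑ j : Fin N, D.X i (σ N i j) a - D.avg a i) ^ 2) ω
        (𝓝 (∑ a ∈ G, n2 (stLin U.M)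
          ((N : ℂ)⁻¹ • ∑ j : Fin N, Θ (Nat.pair N j) a - el U (D.avg a)) ^ 2)) := by
      refine tendsto_finsetSum _ fun a _ => ?_
      rw [hz N a]
      exact (el_n2 U ((hbd N a).sub (D.bdd_avg a))).pow 2
    exact le_of_tendsto h1 (Eventually.of_forall fun i => hσ N i hN)
  -- the element of `M₀`
  have hsmall : ∀ ε : ℝ, 0 < ε → ∃ N : ℕ, 0 < N ∧ 4 * R / N < ε ^ 2 := by
    intro ε hε
    obtain ⟨N, hN⟩ := exists_nat_gt (4 * R / ε ^ 2)
    have hNp : (0 : ℝ) < N := lt_of_le_of_lt (by positivity) hN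
    refine ⟨N, by exact_mod_cast hNp, ?_⟩
    rw [div_lt_iff₀ hNp]
    rw [div_lt_iff₀ (by positivity)] at hN
    linarith
  have happ : ∀ ε : ℝ, 0 < ε → ∃ N : ℕ, 0 < N ∧ n2 (stLin U.M)
      ((N : ℂ)⁻¹ • ∑ j : Fin N, Θ (Nat.pair N j) a₀ - el U (D.avg a₀)) < ε := by
    intro ε hε
    obtain ⟨N, hN0, hN⟩ := hsmall ε hε
    refine ⟨N, hN0, ?_⟩
    have h1 := Finset.single_le_sum (f := fun a => n2 (stLin U.M)
      ((N : ℂ)⁻¹ • ∑ j : Fin N, Θ (Nat.pair N j) a - el U (D.avg a)) ^ 2)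
      (fun a _ => by positivity) ha₀
    exact lt_of_pow_lt_pow_left₀ 2 hε.le (h1.trans_lt ((hdist N hN0).trans_lt hN))
  have hx₀ : ((el U (D.avg a₀) : Alg U.M.N) : U.K →L[ℂ] U.K) ∈ M₀.N := by
    refine mem_of_approx hle' hM _ fun ε hε => ?_
    obtain ⟨N, hN0, hN⟩ := happ ε hε
    refine ⟨incl hle' ((N : ℂ)⁻¹ • ∑ j : Fin N, θ (Nat.pair N j) a₀),
      ((N : ℂ)⁻¹ • ∑ j : Fin N, θ (Nat.pair N j) a₀ : Alg M₀.N).2, ?_⟩
    rw [hMt.n2_sub_comm, map_smul, map_sum]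
    exact hN
  obtain ⟨x₀, hx₀e⟩ : ∃ x₀ : Alg M₀.N, incl hle' x₀ = el U (D.avg a₀) :=
    ⟨⟨_, hx₀⟩, Subtype.ext rfl⟩
  have htr : ∀ (N : ℕ) (a : Alg A) (y : Alg M₀.N), n2 (stLin M₀)
      ((N : ℂ)⁻¹ • ∑ j : Fin N, θ (Nat.pair N j) a - y) = n2 (stLin U.M)
      ((N : ℂ)⁻¹ • ∑ j : Fin N, Θ (Nat.pair N j) a - incl hle' y) := by
    intro N a y
    rw [← hn2, map_sub, map_smul, map_sum]
    rfl
  have hobs : Obs A B τ M₀.N (stLin M₀) θ a₀ x₀ :=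
    { emb := connesEmb_of_hom (incl hle') hincl U.emb
      trace_eq := fun n a => (hincl _).symm.trans (hΘt n a)
      agree := fun m n b hb => Subtype.ext (congrArg (fun y : Alg U.M.N => (y : U.K →L[ℂ] U.K))
        (hΘag m n b hb))
      generates := by
        have h1 : (M₀.N : Set (U.K →L[ℂ] U.K)) = (gen S hSstar : Set (U.K →L[ℂ] U.K)) := by
          rw [hM₀N]
        refine h1.trans ?_
        rw [gen_coe, hSdef]
        rfl
      perp := hG a₀ ha₀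
      ne_zero := by
        intro h0
        rw [h0, map_zero] at hx₀e
        exact hy0 hx₀e.symm
      approx := fun ε hε => by
        obtain ⟨N, hN0, hN⟩ := happ ε hε
        refine ⟨N, hN0, fun j => Nat.pair N j, ?_⟩
        rw [htr, hx₀e]
        exact hN }
  obtain ⟨e, he, hsx⟩ := hsep U.K M₀ θ a₀ x₀ hobs
  -- the number of samples
  obtain ⟨s, hs⟩ : ∃ s : ℝ, s = e ^ 2 / (64 * c₀) := ⟨_, rfl⟩
  have hs0 : 0 < s := by
    rw [hs]
    positivity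
  obtain ⟨N, hN0, hN1, hN2⟩ : ∃ N : ℕ, 0 < N ∧ 4 * R / N ≤ (e / 4) ^ 2 ∧
      (1 + 1 / s) * (4 * R / N) ≤ e ^ 2 / 64 := by
    obtain ⟨N, hN⟩ := exists_nat_gt (max (4 * R / (e / 4) ^ 2) ((1 + 1 / s) * (4 * R) / (e ^ 2 / 64)))
    have h1 : 4 * R / (e / 4) ^ 2 < N := (le_max_left _ _).trans_lt hN
    have h2 : (1 + 1 / s) * (4 * R) / (e ^ 2 / 64) < N := (le_max_right _ _).trans_lt hN
    have hNp : (0 : ℝ) < N := lt_of_le_of_lt (by positivity) h1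
    refine ⟨N, by exact_mod_cast hNp, ?_, ?_⟩
    · rw [div_le_iff₀ hNp]
      rw [div_lt_iff₀ (by positivity)] at h1
      linarith
    · rw [div_lt_iff₀ (by positivity)] at h2
      rw [← mul_div_assoc, div_le_iff₀ hNp]
      linarith
  have hκ : n2 (stLin M₀) ((N : ℂ)⁻¹ • ∑ j : Fin N, θ (Nat.pair N j) a₀ - x₀) ≤ e / 4 := by
    rw [htr, hx₀e]
    have h1 : n2 (stLin U.M) ((N : ℂ)⁻¹ • ∑ j : Fin N, Θ (Nat.pair N j) a₀ - el U (D.avg a₀)) ^ 2 ≤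
        (e / 4) ^ 2 := by
      refine le_trans ?_ ((hdist N hN0).trans hN1)
      exact Finset.single_le_sum (f := fun a => n2 (stLin U.M)
        ((N : ℂ)⁻¹ • ∑ j : Fin N, Θ (Nat.pair N j) a - el U (D.avg a)) ^ 2)
        (fun a _ => by positivity) ha₀
    exact le_of_sq_le_sq h1 (by positivity)
  have hsum : ∑ a ∈ G, n2 (stLin M₀) ((N : ℂ)⁻¹ • ∑ j : Fin N, θ (Nat.pair N j) a) ^ 2 ≤
      c₀ + e ^ 2 / 32 := by
    have h0 : ∀ a, n2 (stLin M₀) ((N : ℂ)⁻¹ • ∑ j : Fin N, θ (Nat.pair N j) a) =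
        n2 (stLin U.M) ((N : ℂ)⁻¹ • ∑ j : Fin N, Θ (Nat.pair N j) a) := by
      intro a
      rw [← hn2, map_smul, map_sum]
      rfl
    have h1 : ∑ a ∈ G, n2 (stLin M₀) ((N : ℂ)⁻¹ • ∑ j : Fin N, θ (Nat.pair N j) a) ^ 2 ≤
        ∑ a ∈ G, ((1 + s) * n2 (stLin U.M) (el U (D.avg a)) ^ 2 +
          (1 + 1 / s) * n2 (stLin U.M)
            ((N : ℂ)⁻¹ • ∑ j : Fin N, Θ (Nat.pair N j) a - el U (D.avg a)) ^ 2) := by
      refine Finset.sum_le_sum fun a _ => ?_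
      rw [h0]
      refine step_num hs0 (n2_nonneg _ _) (n2_nonneg _ _) ?_ (n2_nonneg _ _)
      have h2 := hMt.n2_add_le (el U (D.avg a))
        ((N : ℂ)⁻¹ • ∑ j : Fin N, Θ (Nat.pair N j) a - el U (D.avg a))
      rwa [add_sub_cancel] at h2
    refine h1.trans ?_
    rw [Finset.sum_add_distrib, ← Finset.mul_sum, ← Finset.mul_sum, ← hLdef]
    have h3 : (1 + 1 / s) * ∑ a ∈ G, n2 (stLin U.M)
        ((N : ℂ)⁻¹ • ∑ j : Fin N, Θ (Nat.pair N j) a - el U (D.avg a)) ^ 2 ≤ e ^ 2 / 64 := by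
      refine le_trans ?_ hN2
      exact mul_le_mul_of_nonneg_left (hdist N hN0) (by positivity)
    have h4 : (1 + s) * L ≤ (1 + s) * c₀ := mul_le_mul_of_nonneg_left hLe (by positivity)
    have h5 : s * c₀ = e ^ 2 / 64 := by
      rw [hs]
      field_simp
    nlinarith
  have hsx' : SepBy M₀.N (stLin M₀) {y | ∃ b : Alg A, (b : H →L[ℂ] H) ∈ B ∧
      ∃ j : Fin N, y = θ (Nat.pair N j) b} x₀ e := by
    refine hsx.mono ?_
    rintro y ⟨b, hb, j, rfl⟩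
    exact ⟨b, hb, hobs.agree _ _ b hb⟩
  obtain ⟨c, hc1, hc2⟩ := exists_between (show
    ∑ a ∈ G, n2 (stLin M₀) ((N : ℂ)⁻¹ • ∑ j : Fin N, θ (Nat.pair N j) a) ^ 2 -
      (e - 2 * (e / 4)) ^ 2 / 4 < c₀ by nlinarith)
  exact ⟨c, hc2, fam_new hτ (stLin_isTrace M₀) hN0 (fun j : Fin N => θ (Nat.pair N j))
    (fun j a => hobs.trace_eq _ a) (fun j j' b hb => hobs.agree _ _ b hb) G hG ha₀ hsx' hκ
    (by linarith) hc1⟩

/-- Inner averaging holds if all obstructions are separated from `B`. -/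
theorem innerAveraging_of_sepN (hτ : IsTrace A τ) (hA : ConnesEmb A τ) (hsep : HSepN A B τ) :
    InnerAveraging A B τ :=
  innerAveraging_of_fam fun G hG => fam_of_step hA G fun _ hc₀ h => stepN hτ hG hsep hc₀ h

end Pool.Agent.QFD
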