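import Pool.Agent.QFD.Defs

/-!
# [QFD-V1a] The von Neumann algebra of a tracial cyclic representation

Let `π : C →⋆ₐ B(K)` and let `Ω` be a unit vector with `⟨Ω, π(c d) Ω⟩ = ⟨Ω, π(d c) Ω⟩` and `π(C) Ω` dense.
`M.N` is the bicommutant of the range of `π`, `M.ξ 0 = Ω`, `M.ξ i = 0` for `i ≠ 0`.
-/

set_option autoImplicit false

namespace Pool.Agent.QFD

open Pool.Agent.QFP
open scoped InnerProductSpace
open Filter Topology

universe u v

namespace V1a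

section
variable {C : Type v} [CStarAlgebra C] {K : Type u} [NormedAddCommGroup K] [InnerProductSpace ℂ K]
    [CompleteSpace K] (π : C →⋆ₐ[ℂ] (K →L[ℂ] K)) (Ω : K)

/-- `c ↦ π(c) Ω` -/
noncomputable def ev : C →ₗ[ℂ] K where
  toFun c := π c Ω
  map_add' a b := by rw [map_add]; rfl
  map_smul' z a := by rw [map_smul]; rfl

theorem ev_apply (c : C) : ev π Ω c = π c Ω := rfl

theorem inner_ev (c d : C) : ⟪π c Ω, π d Ω⟫_ℂ = ⟪Ω, π (star c * d) Ω⟫_ℂ := by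
  rw [map_mul, map_star]
  show _ = ⟪Ω, (star (π c)) (π d Ω)⟫_ℂ
  rw [ContinuousLinearMap.star_eq_adjoint, ContinuousLinearMap.adjoint_inner_right]

variable (htr : ∀ c d, ⟪Ω, π (c * d) Ω⟫_ℂ = ⟪Ω, π (d * c) Ω⟫_ℂ)
include htr

theorem norm_star_ev (c : C) : ‖π (star c) Ω‖ = ‖π c Ω‖ := by
  have h1 : ⟪π (star c) Ω, π (star c) Ω⟫_ℂ = ⟪π c Ω, π c Ω⟫_ℂ := by
    rw [inner_ev, inner_ev, star_star, htr]
  rw [inner_self_eq_norm_sq_to_K, inner_self_eq_norm_sq_to_K] at h1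
  have h2 : ‖π (star c) Ω‖ ^ 2 = ‖π c Ω‖ ^ 2 := by exact_mod_cast h1
  exact (sq_eq_sq₀ (norm_nonneg _) (norm_nonneg _)).1 h2

theorem norm_mul_ev (c d : C) : ‖π (c * d) Ω‖ ≤ ‖d‖ * ‖π c Ω‖ := by
  rw [← norm_star_ev π Ω htr (c * d), star_mul, map_mul]
  show ‖π (star d) (π (star c) Ω)‖ ≤ _
  refine (ContinuousLinearMap.le_opNorm _ _).trans ?_
  rw [norm_star_ev π Ω htr c]
  refine mul_le_mul_of_nonneg_right ?_ (norm_nonneg _)
  have h := NonUnitalStarAlgHom.norm_apply_le π (star d)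
  rwa [norm_star] at h

omit htr in
/-- right multiplication -/
noncomputable def R (d : C) : K →L[ℂ] K :=
  ((ev π Ω) ∘ₗ (LinearMap.mulRight ℂ d)).extendOfNorm (ev π Ω)

variable (hd : DenseRange fun c => π c Ω)
include hd

theorem R_ev (d c : C) : R π Ω d (π c Ω) = π (c * d) Ω := by
  have h := LinearMap.extendOfNorm_eq (f := (ev π Ω) ∘ₗ (LinearMap.mulRight ℂ d)) (e := ev π Ω) hd
    ⟨‖d‖, fun c => norm_mul_ev π Ω htr c d⟩ c
  exact h

omit htr in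
theorem ext_dense {Z : Type*} [TopologicalSpace Z] [T2Space Z] {f g : K → Z} (hf : Continuous f)
    (hg : Continuous g) (h : ∀ c, f (π c Ω) = g (π c Ω)) : f = g :=
  hd.equalizer hf hg (funext h)

theorem R_inner (d : C) (η ζ : K) : ⟪R π Ω d η, ζ⟫_ℂ = ⟪η, R π Ω (star d) ζ⟫_ℂ := by
  have h1 : ∀ c e : C, ⟪R π Ω d (π c Ω), π e Ω⟫_ℂ = ⟪π c Ω, R π Ω (star d) (π e Ω)⟫_ℂ := by
    intro c e
    rw [R_ev π Ω htr hd, R_ev π Ω htr hd, inner_ev, inner_ev, star_mul, mul_assoc,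
      htr (star d) (star c * e), mul_assoc]
  have h2 : ∀ (c : C) (ζ : K), ⟪R π Ω d (π c Ω), ζ⟫_ℂ = ⟪π c Ω, R π Ω (star d) ζ⟫_ℂ := by
    intro c ζ
    exact congrFun (ext_dense π Ω hd (f := fun ζ : K => ⟪R π Ω d (π c Ω), ζ⟫_ℂ)
      (g := fun ζ : K => ⟪π c Ω, R π Ω (star d) ζ⟫_ℂ) (by fun_prop) (by fun_prop)
      (fun e => h1 c e)) ζ
  exact congrFun (ext_dense π Ω hd (f := fun η : K => ⟪R π Ω d η, ζ⟫_ℂ)
      (g := fun η : K => ⟪η, R π Ω (star d) ζ⟫_ℂ) (by fun_prop) (by fun_prop)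
      (fun e => h2 e ζ)) η

theorem R_mem (d : C) : R π Ω d ∈ Set.centralizer (Set.range π) := by
  rintro _ ⟨c, rfl⟩
  refine ContinuousLinearMap.ext fun η => ?_
  refine congrFun (ext_dense π Ω hd (f := fun η : K => π c (R π Ω d η))
    (g := fun η : K => R π Ω d (π c η)) (by fun_prop) (by fun_prop) fun e => ?_) η
  show π c (R π Ω d (π e Ω)) = R π Ω d (π c (π e Ω))
  have h1 : π c (π e Ω) = π (c * e) Ω := by rw [map_mul]; rfl
  rw [h1, R_ev π Ω htr hd, R_ev π Ω htr hd, mul_assoc, map_mul π c (e * d)]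
  rfl

theorem R_Ω (d : C) : R π Ω d Ω = π d Ω := by
  have h1 : π 1 Ω = Ω := by rw [map_one]; rfl
  have h2 := R_ev π Ω htr hd d 1
  rwa [h1, one_mul] at h2

theorem comm {x : K →L[ℂ] K} (hx : x ∈ Set.centralizer (Set.centralizer (Set.range π))) (d : C)
    (η : K) : x (R π Ω d η) = R π Ω d (x η) :=
  (congrArg (fun f : K →L[ℂ] K => f η) (hx _ (R_mem π Ω htr hd d))).symm

theorem faithful {x : K →L[ℂ] K} (hx : x ∈ Set.centralizer (Set.centralizer (Set.range π)))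
    (h : ⟪Ω, (star x * x) Ω⟫_ℂ = 0) : x = 0 := by
  have h1 : x Ω = 0 := by
    have h2 : ⟪Ω, (star x * x) Ω⟫_ℂ = ⟪x Ω, x Ω⟫_ℂ := by
      show ⟪Ω, star x (x Ω)⟫_ℂ = _
      rw [ContinuousLinearMap.star_eq_adjoint, ContinuousLinearMap.adjoint_inner_right]
    rw [h2] at h
    exact inner_self_eq_zero.1 h
  refine ContinuousLinearMap.ext fun η => ?_
  refine congrFun (ext_dense π Ω hd (f := fun η : K => x η)
    (g := fun η : K => (0 : K →L[ℂ] K) η) (by fun_prop) (by fun_prop) fun d => ?_) η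
  show x (π d Ω) = (0 : K →L[ℂ] K) (π d Ω)
  rw [← R_Ω π Ω htr hd d, comm π Ω htr hd hx, h1, map_zero]
  rfl

theorem star_inner {x : K →L[ℂ] K} (hx : x ∈ Set.centralizer (Set.centralizer (Set.range π)))
    (d : C) : ⟪(star x) Ω, π d Ω⟫_ℂ = ⟪π (star d) Ω, x Ω⟫_ℂ := by
  rw [ContinuousLinearMap.star_eq_adjoint, ContinuousLinearMap.adjoint_inner_left,
    ← R_Ω π Ω htr hd d, comm π Ω htr hd hx, ← R_Ω π Ω htr hd (star d), R_inner π Ω htr hd,
    star_star]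

theorem tracial {x y : K →L[ℂ] K} (hx : x ∈ Set.centralizer (Set.centralizer (Set.range π)))
    (hy : y ∈ Set.centralizer (Set.centralizer (Set.range π))) :
    ⟪Ω, (x * y) Ω⟫_ℂ = ⟪Ω, (y * x) Ω⟫_ℂ := by
  obtain ⟨u, hu, hlim⟩ := mem_closure_iff_seq_limit.1 (hd (y Ω))
  choose c hc using hu
  have hc' : ∀ n, u n = π (c n) Ω := fun n => (hc n).symm
  have hcau : CauchySeq fun n => π (star (c n)) Ω := by
    have h1 : CauchySeq u := hlim.cauchySeq
    rw [Metric.cauchySeq_iff] at h1 ⊢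
    intro ε hε
    obtain ⟨N, hN⟩ := h1 ε hε
    refine ⟨N, fun m hm n hn => ?_⟩
    have h2 := hN m hm n hn
    rw [dist_eq_norm, hc', hc'] at h2
    have h3 : π (c m) Ω - π (c n) Ω = π (c m - c n) Ω := by rw [map_sub]; rfl
    have h4 : π (star (c m)) Ω - π (star (c n)) Ω = π (star (c m - c n)) Ω := by
      rw [star_sub, map_sub]; rfl
    rw [h3] at h2
    rw [dist_eq_norm, h4, norm_star_ev π Ω htr]
    exact h2
  obtain ⟨η, hη⟩ := cauchySeq_tendsto_of_complete hcau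
  have hηy : η = (star y) Ω := by
    refine ext_inner_right ℂ fun ζ => ?_
    refine congrFun (ext_dense π Ω hd (f := fun ζ : K => ⟪η, ζ⟫_ℂ)
      (g := fun ζ : K => ⟪(star y) Ω, ζ⟫_ℂ) (by fun_prop) (by fun_prop) (fun d => ?_)) ζ
    show ⟪η, π d Ω⟫_ℂ = ⟪(star y) Ω, π d Ω⟫_ℂ
    rw [star_inner π Ω htr hd hy]
    have h1 : Tendsto (fun n => ⟪π (star (c n)) Ω, π d Ω⟫_ℂ) atTop (𝓝 ⟪η, π d Ω⟫_ℂ) :=
      hη.inner tendsto_const_nhds
    have h2 : Tendsto (fun n => ⟪π (star d) Ω, π (c n) Ω⟫_ℂ) atTop (𝓝 ⟪π (star d) Ω, y Ω⟫_ℂ) := by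
      refine Tendsto.inner tendsto_const_nhds ?_
      have h3 : (fun n => π (c n) Ω) = u := funext hc
      rw [h3]
      exact hlim
    refine tendsto_nhds_unique h1 (h2.congr fun n => ?_)
    rw [inner_ev, inner_ev, star_star, star_star, htr]
  have h5 : ⟪Ω, (x * y) Ω⟫_ℂ = ⟪(star x) Ω, y Ω⟫_ℂ := by
    rw [ContinuousLinearMap.star_eq_adjoint, ContinuousLinearMap.adjoint_inner_left]
    rfl
  have h6 : ⟪Ω, (y * x) Ω⟫_ℂ = ⟪(star y) Ω, x Ω⟫_ℂ := by
    rw [ContinuousLinearMap.star_eq_adjoint, ContinuousLinearMap.adjoint_inner_left]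
    rfl
  rw [h5, h6, ← hηy]
  have h7 : Tendsto (fun n => ⟪(star x) Ω, π (c n) Ω⟫_ℂ) atTop (𝓝 ⟪(star x) Ω, y Ω⟫_ℂ) := by
    refine Tendsto.inner tendsto_const_nhds ?_
    have h3 : (fun n => π (c n) Ω) = u := funext hc
    rw [h3]
    exact hlim
  have h8 : Tendsto (fun n => ⟪π (star (c n)) Ω, x Ω⟫_ℂ) atTop (𝓝 ⟪η, x Ω⟫_ℂ) :=
    hη.inner tendsto_const_nhds
  refine tendsto_nhds_unique h7 (h8.congr fun n => ?_)
  rw [star_inner π Ω htr hd hx]

end

section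
variable {C : Type v} [CStarAlgebra C] {K : Type u} [NormedAddCommGroup K] [InnerProductSpace ℂ K]
    [CompleteSpace K] (π : C →⋆ₐ[ℂ] (K →L[ℂ] K))

/-- the bicommutant of the range of `π` -/
def bc : VonNeumannAlgebra K where
  carrier := Set.centralizer (Set.centralizer (Set.range π))
  mul_mem' := (Subalgebra.centralizer ℂ (Set.centralizer (Set.range π))).mul_mem'
  one_mem' := (Subalgebra.centralizer ℂ (Set.centralizer (Set.range π))).one_mem'
  add_mem' := (Subalgebra.centralizer ℂ (Set.centralizer (Set.range π))).add_mem'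
  zero_mem' := (Subalgebra.centralizer ℂ (Set.centralizer (Set.range π))).zero_mem'
  algebraMap_mem' := (Subalgebra.centralizer ℂ (Set.centralizer (Set.range π))).algebraMap_mem'
  star_mem' := by
    intro a ha
    refine Set.star_mem_centralizer' (fun b hb => ?_) ha
    refine Set.star_mem_centralizer' ?_ hb
    rintro _ ⟨c, rfl⟩
    exact ⟨star c, map_star π c⟩
  centralizer_centralizer' := Set.centralizer_centralizer_centralizer _

end

theorem vecSum_single {K : Type u} [NormedAddCommGroup K] [InnerProductSpace ℂ K]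
    [CompleteSpace K] (Ω : K) (x : K →L[ℂ] K) :
    St.vecSum (fun i => if i = 0 then Ω else 0) x = ⟪Ω, x Ω⟫_ℂ := by
  unfold St.vecSum
  rw [tsum_eq_single 0]
  · simp
  · intro i hi
    simp [hi]

end V1a

theorem exists_vn (C : Type v) [CStarAlgebra C] {K : Type u} [NormedAddCommGroup K] [InnerProductSpace ℂ K]
    [CompleteSpace K] (π : C →⋆ₐ[ℂ] (K →L[ℂ] K)) (Ω : K) (h1 : ‖Ω‖ = 1)
    (htr : ∀ c d, ⟪Ω, π (c * d) Ω⟫_ℂ = ⟪Ω, π (d * c) Ω⟫_ℂ) (hd : DenseRange fun c => π c Ω) :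
    ∃ M : St.TracialVN K, (∀ c, π c ∈ M.N) ∧ ∀ x, M.tr x = ⟪Ω, x Ω⟫_ℂ := by
  refine ⟨⟨V1a.bc π, fun i => if i = 0 then Ω else 0, ?_, ?_, ?_, ?_⟩, ?_, ?_⟩
  · refine summable_of_ne_finset_zero (s := {0}) fun i hi => ?_
    have h : i ≠ 0 := fun h => hi (by simp [h])
    simp [h]
  · rw [V1a.vecSum_single]
    show ⟪Ω, Ω⟫_ℂ = 1
    rw [inner_self_eq_norm_sq_to_K, h1]
    simp
  · intro x hx y hy
    rw [V1a.vecSum_single, V1a.vecSum_single]
    exact V1a.tracial π Ω htr hd hx hy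
  · intro x hx h
    rw [V1a.vecSum_single] at h
    exact V1a.faithful π Ω htr hd hx h
  · intro c
    exact Set.subset_centralizer_centralizer ⟨c, rfl⟩
  · intro x
    exact V1a.vecSum_single Ω x

end Pool.Agent.QFD
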