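import Pool.Agent.QFD.Defs

/-!
# [QFD-V1] The GNS construction of a tracial state

`exists_rep` [V1b]: Mathlib's GNS construction (`Mathlib.Analysis.CStarAlgebra.GelfandNaimarkSegal`): with the local instances
`CStarAlgebra.spectralOrder C`, `CStarAlgebra.spectralOrderedRing C` the functional `t` is a positive linear map
`f : C →ₚ[ℂ] ℂ` (`a ≥ 0` is of the form `star b * b`; `TrAlg.pos`), `K = f.GNS`, `π = f.gnsStarAlgHom`, `Ω` the image of `f.toPreGNS 1`;
`⟪a, b⟫ = f (star a * b)` (`preGNS_inner_def`), `π c Ω` is the image of `f.toPreGNS c`; the image of `f.PreGNS` in its completion is dense.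

`exists_gns` [V1c]: `exists_rep` and `exists_vn`. `h1`: `‖Ω‖² = t 1 = 1`. The map to `Alg M.N` is `π` with codomain restricted. For `x : Alg M.N`:
`n2 (stLin M) (π c - x) = ‖(π c - x) Ω‖`, which is small for some `c` by density of `π(C) Ω`.
-/

set_option autoImplicit false

namespace Pool.Agent.QFD

open Pool.Agent.QFP
open scoped InnerProductSpace ComplexOrder
open Filter Topology

universe u

/-- [V1b] -/
theorem exists_rep (C : Type u) [CStarAlgebra C] (t : C →ₗ[ℂ] ℂ) (ht : TrAlg t) :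
    ∃ (K : Type u) (_ : NormedAddCommGroup K) (_ : InnerProductSpace ℂ K) (_ : CompleteSpace K)
      (π : C →⋆ₐ[ℂ] (K →L[ℂ] K)) (Ω : K), (∀ c, ⟪Ω, π c Ω⟫_ℂ = t c) ∧ DenseRange fun c => π c Ω := by
  let _ : PartialOrder C := CStarAlgebra.spectralOrder C
  have : StarOrderedRing C := CStarAlgebra.spectralOrderedRing C
  have hpos : ∀ a : C, 0 ≤ a → 0 ≤ t a := by
    intro a ha
    obtain ⟨b, rfl⟩ := CStarAlgebra.nonneg_iff_eq_star_mul_self.1 ha
    rw [Complex.nonneg_iff]
    exact ⟨(ht.pos b).1, (ht.pos b).2.symm⟩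
  let f : C →ₚ[ℂ] ℂ := PositiveLinearMap.mk₀ t hpos
  have hf : ∀ c, f c = t c := fun c => rfl
  have happ : ∀ c : C, f.gnsStarAlgHom c ((f.toPreGNS 1 : f.PreGNS) : f.GNS) = ((f.toPreGNS c : f.PreGNS) : f.GNS) := by
    intro c
    have h1 : f.gnsStarAlgHom c ((f.toPreGNS 1 : f.PreGNS) : f.GNS) =
        ((f.leftMulMapPreGNS c (f.toPreGNS 1) : f.PreGNS) : f.GNS) :=
      PositiveLinearMap.gnsNonUnitalStarAlgHom_apply_coe f
    rw [h1, PositiveLinearMap.leftMulMapPreGNS_apply, PositiveLinearMap.ofPreGNS_toPreGNS, mul_one]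
  refine ⟨f.GNS, inferInstance, inferInstance, inferInstance, f.gnsStarAlgHom,
    ((f.toPreGNS 1 : f.PreGNS) : f.GNS), ?_, ?_⟩
  · intro c
    rw [happ, UniformSpace.Completion.inner_coe, PositiveLinearMap.preGNS_inner_def,
      PositiveLinearMap.ofPreGNS_toPreGNS, PositiveLinearMap.ofPreGNS_toPreGNS, star_one, one_mul, hf]
  · have h2 : (fun c => f.gnsStarAlgHom c ((f.toPreGNS 1 : f.PreGNS) : f.GNS)) =
        (fun a : f.PreGNS => (a : f.GNS)) ∘ f.toPreGNS := by
      funext c
      exact happ c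
    rw [h2]
    unfold DenseRange
    rw [f.toPreGNS.surjective.range_comp]
    exact UniformSpace.Completion.denseRange_coe

end Pool.Agent.QFD
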