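import Pool.Agent.QFD.V1a
import Pool.Agent.QFD.V1b

/-!
# [QFD-V1] The GNS construction of a tracial state

`exists_rep` [V1b]: Mathlib's GNS construction (`Mathlib.Analysis.CStarAlgebra.GelfandNaimarkSegal`): with the local instances
`CStarAlgebra.spectralOrder C`, `CStarAlgebra.spectralOrderedRing C` the functional `t` is a positive linear map
`f : C →ₚ[ℂ] ℂ` (`a ≥ 0` is of the form `star b * b`; `TrAlg.pos`), `K = f.GNS`, `π = f.gnsStarAlgHom`, `Ω` the image of `f.toPreGNS 1`;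
`⟪a, b⟫ = f (star a * b)` (`preGNS_inner_def`), `π c Ω` is the image of `f.toPreGNS c`; the image of `f.PreGNS` in its completion is dense.

`exists_gns` [V1c]: `exists_rep` and `exists_vn`. `h1`: `‖Ω‖² = t 1 = 1`. The map to `Alg M.N` is `π` with codomain restricted. For `x : Alg M.N`:
`n2 (stLin M) (π c - x) = ‖(π c - x) Ω‖`, which is small for some `c` by density of `π(C) Ω`.
-/

set_option autoImplicit false

namespace Pool.Agent.QFD

open Pool.Agent.QFP
open scoped InnerProductSpace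
open Filter Topology

universe u

/-- [V1c] -/
theorem exists_gns (C : Type u) [CStarAlgebra C] (t : C →ₗ[ℂ] ℂ) (ht : TrAlg t) :
    ∃ (K : Type u) (_ : NormedAddCommGroup K) (_ : InnerProductSpace ℂ K) (_ : CompleteSpace K)
      (M : St.TracialVN K) (π : C →⋆ₐ[ℂ] Alg M.N), (∀ c, stLin M (π c) = t c) ∧
      ∀ (x : Alg M.N) (δ : ℝ), 0 < δ → ∃ c : C, n2 (stLin M) (π c - x) < δ := by
  obtain ⟨K, i1, i2, i3, π, Ω, hΩ, hd⟩ := exists_rep C t ht
  have h1 : ‖Ω‖ = 1 := by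
    have h := hΩ 1
    rw [map_one, ht.one] at h
    have h2 : ⟪Ω, Ω⟫_ℂ = 1 := h
    have h3 : ‖Ω‖ ^ 2 = 1 := by
      have h4 := congrArg Complex.re h2
      rw [Complex.one_re] at h4
      rw [← h4]
      exact (inner_self_eq_norm_sq (𝕜 := ℂ) Ω).symm
    nlinarith [norm_nonneg Ω]
  obtain ⟨M, hM1, hM2⟩ := exists_vn C π Ω h1 (fun c d => by rw [hΩ, hΩ, ht.comm]) hd
  let ρ : C →⋆ₐ[ℂ] Alg M.N :=
    { toFun := fun c => ⟨π c, hM1 c⟩
      map_one' := Subtype.ext (map_one π)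
      map_mul' := fun a b => Subtype.ext (map_mul π a b)
      map_zero' := Subtype.ext (map_zero π)
      map_add' := fun a b => Subtype.ext (map_add π a b)
      commutes' := fun z => Subtype.ext (by
        show π (algebraMap ℂ C z) = algebraMap ℂ (K →L[ℂ] K) z
        exact AlgHomClass.commutes π z)
      map_star' := fun a => Subtype.ext (map_star π a) }
  refine ⟨K, i1, i2, i3, M, ρ, fun c => ?_, ?_⟩
  · show M.tr (π c) = t c
    rw [hM2, hΩ]
  · intro x δ hδ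
    obtain ⟨c, hc⟩ := hd.exists_dist_lt ((x : K →L[ℂ] K) Ω) hδ
    refine ⟨c, ?_⟩
    have h2 : n2 (stLin M) (ρ c - x) = ‖(π c - (x : K →L[ℂ] K)) Ω‖ := by
      unfold n2
      have h3 : stLin M (star (ρ c - x) * (ρ c - x)) =
          ⟪Ω, (star (π c - (x : K →L[ℂ] K)) * (π c - (x : K →L[ℂ] K))) Ω⟫_ℂ := by
        show M.tr _ = _
        rw [hM2]
        rfl
      rw [h3]
      have h4 : ⟪Ω, (star (π c - (x : K →L[ℂ] K)) * (π c - (x : K →L[ℂ] K))) Ω⟫_ℂ =
          ⟪(π c - (x : K →L[ℂ] K)) Ω, (π c - (x : K →L[ℂ] K)) Ω⟫_ℂ := by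
        show ⟪Ω, star (π c - (x : K →L[ℂ] K)) ((π c - (x : K →L[ℂ] K)) Ω)⟫_ℂ = _
        rw [ContinuousLinearMap.star_eq_adjoint, ContinuousLinearMap.adjoint_inner_right]
      rw [h4, inner_self_eq_norm_sq_to_K]
      have h5 : (((‖(π c - (x : K →L[ℂ] K)) Ω‖ : ℝ) : ℂ) ^ 2).re = ‖(π c - (x : K →L[ℂ] K)) Ω‖ ^ 2 := by
        rw [← Complex.ofReal_pow, Complex.ofReal_re]
      exact (congrArg Real.sqrt h5).trans (Real.sqrt_sq (norm_nonneg _))
    rw [h2, sub_apply, ← dist_eq_norm, dist_comm]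
    exact hc

end Pool.Agent.QFD
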