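import Pool.Agent.QFD.Defs

/-!
# [QFD-V2] Matrix ultraproducts

`exists_lim` [V2a]: the functional `c ↦ lim_ω ntr (c i)`. A bounded function `I → ℂ` has a limit along the ultrafilter `ω`
(`‖ntr (c i)‖ ≤ ‖c i‖ ≤ ‖c‖` (`TrAlg.norm_le_n2`, `n2 ≤ norm`, or directly); the closed ball of `ℂ` is compact: `IsCompact.ultrafilter_le_nhds`
for the ultrafilter `ω.map _`). Linear: uniqueness of limits. `TrAlg`: `t 1 = 1` (`ntr 1 = 1`), tracial and positive: limits of the properties of
`ntr` (`ntr_trAlg`).

`nonempty_UM` [V2b]: `exists_lim` and `exists_gns` (V1) for `C = BF ν` give `M`, `π`. `ConnesEmb`: `connesEmb_of_model` (QFP/T4.lean) with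
`κ = BF ν`, `c = π`, `R k = ‖k‖`: `hc`: a ⋆-homomorphism is contractive (`NonUnitalStarAlgHom.norm_apply_le`); `hd`: the second property of `exists_gns`, the noncommutative polynomial is one
letter (see `NC`, `ncEval` in QFP/N1x.lean or N1y.lean); `H`: given `F, m, ε`: there are finitely many words `w` in the letters of `F` of length at most `m`, and for each of them
`ntr (wordEval (fun k => k i) w) = ntr ((wordEval id w : BF ν) i)` tends along `ω` to `stLin M (π (wordEval id w)) = stLin M (wordEval π w)`; so for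
`ω`-almost all `i` all these words are fine (`Filter.eventually_all_finite`; finitely many words: lists of length at most `m` over a finite set, `List.finite_length_le` after restricting
the letters to the finite set `F ×ˢ univ`); an ultrafilter is `NeBot`, so such an `i` exists; `Y k = k i`, `‖k i‖ ≤ ‖k‖` (`lp.norm_apply_le_norm`).
-/

set_option autoImplicit false

namespace Pool.Agent.QFD

open Pool.Agent.QFP
open scoped InnerProductSpace Matrix.Norms.L2Operator
open Filter Topology

universe u

variable {I : Type u} (ω : Ultrafilter I) (ν : I → ℕ) [∀ i, NeZero (ν i)]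

/-- [V2a] -/
theorem exists_lim : ∃ t : BF ν →ₗ[ℂ] ℂ, TrAlg t ∧ ∀ c : BF ν, Tendsto (fun i => ntr (c i)) ω (𝓝 (t c)) := by
  have hne : ∀ i, Nonempty (Fin (ν i)) := fun i => ⟨⟨0, Nat.pos_of_ne_zero (NeZero.ne (ν i))⟩⟩
  have ht : ∀ i, TrAlg (ntr : Mt (ν i) →ₗ[ℂ] ℂ) := fun i => ntr_trAlg
  have hex : ∀ c : BF ν, ∃ z : ℂ, Tendsto (fun i => ntr (c i)) ω (𝓝 z) := by
    intro c
    have h1 : (↑(ω.map fun i => ntr (c i)) : Filter ℂ) ≤ 𝓟 (Metric.closedBall (0 : ℂ) ‖c‖) := by
      rw [Ultrafilter.coe_map, le_principal_iff, mem_map]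
      refine Filter.univ_mem' fun i => ?_
      show ntr (c i) ∈ Metric.closedBall (0 : ℂ) ‖c‖
      rw [mem_closedBall_zero_iff]
      exact ((ht i).norm_le _).trans (lp.norm_apply_le_norm ENNReal.top_ne_zero c i)
    obtain ⟨z, -, hz⟩ := (isCompact_closedBall (0 : ℂ) ‖c‖).ultrafilter_le_nhds _ h1
    exact ⟨z, hz⟩
  choose t hlim using hex
  have hadd : ∀ c d : BF ν, t (c + d) = t c + t d := fun c d =>
    tendsto_nhds_unique (hlim (c + d)) (((hlim c).add (hlim d)).congr fun i => (map_add ntr (c i) (d i)).symm)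
  have hsmul : ∀ (z : ℂ) (c : BF ν), t (z • c) = z • t c := fun z c =>
    tendsto_nhds_unique (hlim (z • c)) (((hlim c).const_smul z).congr fun i => (map_smul ntr z (c i)).symm)
  refine ⟨{ toFun := t, map_add' := hadd, map_smul' := hsmul }, ⟨?_, ?_, ?_⟩, hlim⟩
  · refine tendsto_nhds_unique (hlim 1) (tendsto_const_nhds.congr fun i => ?_)
    exact (ht i).one.symm
  · intro x y
    exact tendsto_nhds_unique (hlim (x * y)) ((hlim (y * x)).congr fun i => (ht i).comm (y i) (x i))
  · intro x
    have h1 := hlim (star x * x)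
    constructor
    · refine ge_of_tendsto ((Complex.continuous_re.tendsto _).comp h1) (Eventually.of_forall fun i => ?_)
      exact ((ht i).pos (x i)).1
    · refine tendsto_nhds_unique ((Complex.continuous_im.tendsto _).comp h1) (tendsto_const_nhds.congr fun i => ?_)
      exact ((ht i).pos (x i)).2.symm

end Pool.Agent.QFD
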