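import Pool.Agent.QFD.V1c
import Pool.Agent.QFD.V2a
import Pool.Agent.QFP.K4x

/-!
# [QFD-V2] Matrix ultraproducts

`exists_lim` [V2a]: the functional `c ↦ lim_ω ntr (c i)`. A bounded function `I → ℂ` has a limit along the ultrafilter `ω`
(`‖ntr (c i)‖ ≤ ‖c i‖ ≤ ‖c‖` (`TrAlg.norm_le_n2`, `n2 ≤ norm`, or directly); the closed ball of `ℂ` is compact: `IsCompact.ultrafilter_le_nhds`
for the ultrafilter `ω.map _`). Linear: uniqueness of limits. `TrAlg`: `t 1 = 1` (`ntr 1 = 1`), tracial and positive: limits of the properties of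
`ntr` (`ntr_trAlg`).

`nonempty_UM` [V2b]: `exists_lim` and `exists_gns` (V1) for `C = BF ν` give `M`, `π`. `ConnesEmb`: `connesEmb_of_model` (QFP/T4.lean) with
`κ = BF ν`, `c = π`, `R k = ‖k‖`: `hc`: a ⋆-homomorphism is contractive (`NonUnitalStarAlgHom.norm_apply_le`); `hd`: the second property of `exists_gns`, the noncommutative polynomial is one
letter (see `NC`, `ncEval` in QFP/N1x.lean or N1y.lean); `H`: given `F, m, ε`: there are finitely many words `w` in the letters of `F` of length at most `m`, and for each of them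
`ntr (wordEval (fun k => k i) w) = ntr ((wordEval id w : BF ν) i)` tends along `ω` to `stLin M (π (wordEval id w)) = stLin M (wordEval π w)`; so for
`ω`-almost all `i` all these words are fine (`Filter.eventually_all_finite`; finitely many words: lists of length at most `m` over a finite set, `List.finite_length_le` after restricting
the letters to the finite set `F ×ˢ univ`); an ultrafilter is `NeBot`, so such an `i` exists; `Y k = k i`, `‖k i‖ ≤ ‖k‖` (`lp.norm_apply_le_norm`).
-/

set_option autoImplicit false

namespace Pool.Agent.QFD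

open Pool.Agent.QFP
open scoped InnerProductSpace Matrix.Norms.L2Operator
open Filter Topology

universe u

variable {I : Type u} (ω : Ultrafilter I) (ν : I → ℕ) [∀ i, NeZero (ν i)]

/-- [V2b] -/
theorem nonempty_UM : Nonempty (UM ω ν) := by
  obtain ⟨t, ht, hlim⟩ := exists_lim ω ν
  obtain ⟨K, i1, i2, i3, M, π, hπ, hd⟩ := exists_gns (BF ν) t ht
  refine ⟨{ K := K, i1 := i1, i2 := i2, i3 := i3, M := M, π := π, emb := ?_, lim := fun c => by rw [hπ]; exact hlim c }⟩
  refine connesEmb_of_model (stLin_isTrace M) (κ := BF ν) (fun c => π c) (fun k => ‖k‖)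
    (fun k => NonUnitalStarAlgHom.norm_apply_le π k) ?_ ?_
  · intro x δ hδ
    obtain ⟨c, hc⟩ := hd x δ hδ
    exact ⟨ncVar c, by rw [ncEval_var]; exact hc⟩
  · intro F m ε hε
    have hev : ∀ w : List (BF ν × Bool), ∀ i, (wordEval (id : BF ν → BF ν) w : BF ν) i = wordEval (fun k : BF ν => k i) w := by
      intro w i
      induction w with
      | nil => rfl
      | cons p w ih =>
        rw [W1_cons, W1_cons, ← ih]
        obtain ⟨k, s⟩ := p
        cases s
        · rfl
        · rfl
    have h1 : ∀ w : List (BF ν × Bool), Tendsto (fun i => ntr (wordEval (fun k : BF ν => k i) w)) ω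
        (𝓝 (stLin M (wordEval (fun c => π c) w))) := by
      intro w
      have h2 := hlim (wordEval (id : BF ν → BF ν) w)
      rw [← hπ, map_wordEval] at h2
      refine h2.congr fun i => ?_
      rw [hev]
    have h3 : ∀ᶠ i in (ω : Filter I), ∀ w ∈ {w : List (BF ν × Bool) | (∀ p ∈ w, p.1 ∈ F) ∧ w.length ≤ m},
        ‖ntr (wordEval (fun k : BF ν => k i) w) - stLin M (wordEval (fun c => π c) w)‖ < ε := by
      rw [Filter.eventually_all_finite (words_finite F m)]
      intro w _
      have h4 := (Metric.tendsto_nhds.1 (h1 w)) ε hε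
      filter_upwards [h4] with i hi
      rwa [dist_eq_norm] at hi
    obtain ⟨i, hi⟩ := h3.exists
    exact ⟨ν i, Nat.pos_of_ne_zero (NeZero.ne (ν i)), fun k => k i,
      fun k => lp.norm_apply_le_norm ENNReal.top_ne_zero k i, fun w hw hl => hi w ⟨hw, hl⟩⟩

end Pool.Agent.QFD
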